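import Pool.Agent.Work.MP_d3517d_nt.Basic2

/-!
# Gouvêa slope distribution (MP_d3517d_nt), all primes: common definitions

The step of the weights is `stp p a = (p-1) p^a` (`a = 0` is the first version, `p ≥ 5`);
all definitions which do not depend on the step are those of `Basic.lean` and `Basic2.lean`
(`VB`, `GB`, `vd`, `lev`, `cnt`, `Acount`, `ma`, `mr`, `minor`, `cr`, `Gam`, `Um`, `Dat`, ...).
-/

open Polynomial Finset

noncomputable section

namespace Gouvea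

/-- The step of the weights. -/
def stp (p a : ℕ) : ℕ := (p - 1) * p ^ a

/-- The condition on `a` under which the combinatorial inequality has room:
`1 - 1/((p-1)p^a) - 4/((p-1)^2 p^a) ≥ 1/2`. It holds for `p ≥ 5, a ≥ 0`, `p = 3, a ≥ 1`,
`p = 2, a ≥ 4`. -/
def CondA (p a : ℕ) : Prop := 2 * (p + 3) ≤ (p - 1) ^ 2 * p ^ a

/-- `φ_a(i) = i - v_p(⌊i / p^a⌋!)`. -/
def phiA (p a i : ℕ) : ℕ := i - padicValNat p (i / p ^ a).factorial

/-- `ψ_a(j) = v_p(⌊j / p^(a+1)⌋!)`. -/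
def psiA (p a j : ℕ) : ℕ := padicValNat p (j / p ^ (a + 1)).factorial

/-- Sum of the lower bound of the Gauss valuation, for the block `i < M` (`q` elements per level)
minus `u` elements of level `M - 1`. -/
def Lam0A (p a q M u : ℕ) : ℤ :=
  (q : ℤ) * ∑ i ∈ range M, ((phiA p a i : ℤ) + psiA p a i)
    - u * ((phiA p a (M - 1) : ℤ) + psiA p a (M - 1))

/-- The Gauss bound for the principal minor with level function `c`. -/
def LamAA (p a q M u L : ℕ) (c : ℕ → ℕ) : ℤ :=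
  ∑ i ∈ range L, (c i : ℤ) * phiA p a i +
    ((q : ℤ) * ∑ i ∈ range M, (psiA p a i : ℤ) - u * (psiA p a (M - 1) : ℤ))

/-- A family (in the weight) of matrices: `U(κ)`, `n = n0 + (p-1) p^a κ`. -/
structure WFamA (p a h n0 L J : ℕ) [Fact p.Prime] (E : Type) [Fintype E] [DecidableEq E] where
  /-- the matrix, polynomial in `κ` -/
  U : Matrix (E × Fin L) (E × Fin L) ℚ_[p][X]
  /-- the involution on the edges -/
  σ : Equiv.Perm E
  /-- integral factorisation `U = D_φ G D_ψ H` -/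
  G : Matrix (E × Fin L) (E × Fin L) ℚ_[p][X]
  H : Matrix (E × Fin L) (E × Fin L) ℚ_[p]
  hG : ∀ x y, GB p (G x y) 0
  hH : ∀ x y, VB p (H x y) 0
  fac : ∀ x y, U x y = ∑ z, C ((p : ℚ_[p]) ^ phiA p a (lev x)) * G x z *
    C ((p : ℚ_[p]) ^ psiA p a (lev z) * H z y)
  /-- at an integer weight `n = n0 + (p-1) p^a κ < J` the matrix is a sum of a matrix `P` of rank
  `≤ h(n+1)` and a matrix `Q` which is antidiagonal on the columns of level `≤ n`. -/
  dec : ∀ κ : ℕ, n0 + stp p a * κ < J → ∃ P Q : Matrix (E × Fin L) (E × Fin L) ℚ_[p],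
    (U.map fun F => F.eval (κ : ℚ_[p])) = P + Q ∧ P.rank ≤ h * (n0 + stp p a * κ + 1) ∧
    ∀ x y, Q x y ≠ 0 → (n0 + stp p a * κ < lev y ∨
      (x.1 = σ y.1 ∧ lev x + lev y = n0 + stp p a * κ))

/-- The family `F` interpolates the matrices `Um D n`, `n = n0 + (p-1) p^a κ`. -/
structure CompatA {p a h n0 L J : ℕ} [Fact p.Prime] {E : Type} [Fintype E] [DecidableEq E]
    (F : WFamA p a h n0 L J E) (D : Gam p E) : Prop where
  blk : ∀ κ : ℕ, n0 + stp p a * κ < J → n0 + stp p a * κ < L → ∀ x y : E × Fin L,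
    ∀ (hx : lev x < n0 + stp p a * κ + 1) (hy : lev y < n0 + stp p a * κ + 1),
    (F.U x y).eval (κ : ℚ_[p]) =
      ((Um D (n0 + stp p a * κ) (x.1, ⟨lev x, hx⟩) (y.1, ⟨lev y, hy⟩) : ℤ_[p]) : ℚ_[p])
  zero : ∀ κ : ℕ, n0 + stp p a * κ < J → n0 + stp p a * κ < L → ∀ x y : E × Fin L,
    n0 + stp p a * κ < lev x → lev y ≤ n0 + stp p a * κ → (F.U x y).eval (κ : ℚ_[p]) = 0
  low : ∀ κ : ℕ, n0 + stp p a * κ < J → n0 + stp p a * κ < L → ∀ x y : E × Fin L,
    n0 + stp p a * κ < lev x → VB p ((F.U x y).eval (κ : ℚ_[p])) (lev x)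

/-- interval bound for a weight function `w` -/
def IBA (p a : ℕ) (w : ℕ → ℝ) (V : ℕ) : Prop :=
  (∀ n, 0 ≤ w n) ∧ ∀ x y : ℕ, x ≤ y →
    ∑ n ∈ Ico x y, w n ≤ ((y : ℝ) - x) / (((p : ℝ) - 1) ^ 2 * (p : ℝ) ^ a) + V

end Gouvea
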