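import Pool.Agent.Work.MP_d3517d_nt.A.Basic
import Pool.Agent.Work.MP_d3517d_nt.Comb2

/-!
# M5 for the step `(p - 1) p ^ a` (all primes)

`comb_cost1`, `comb_cost2`, `cX_sq`, `cY_sq` do not depend on the step: see `Comb.lean`.
-/

set_option autoImplicit false

open Polynomial Finset

noncomputable section

namespace Gouvea

open Comb

namespace CombA

/-- `(p - 1)² p^a` is at least `10` under `CondA` -/
theorem ten_le {p a : ℕ} (hp : 2 ≤ p) (hpa : CondA p a) :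
    (10 : ℝ) ≤ ((p : ℝ) - 1) ^ 2 * (p : ℝ) ^ a := by
  have h1 : 10 ≤ (p - 1) ^ 2 * p ^ a := le_trans (by omega) hpa
  have h2 : ((p - 1 : ℕ) : ℝ) = (p : ℝ) - 1 := by
    rw [Nat.cast_sub (by omega)]
    simp
  have h3 : (10 : ℝ) ≤ ((p - 1 : ℕ) : ℝ) ^ 2 * (p : ℝ) ^ a := by exact_mod_cast h1
  rwa [h2] at h3

theorem gain_ge {p a : ℕ} (hp : 2 ≤ p) (hpa : CondA p a) :
    1 / 2 + 4 / (((p : ℝ) - 1) ^ 2 * (p : ℝ) ^ a) ≤ 1 - 1 / (((p : ℝ) - 1) * (p : ℝ) ^ a) := by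
  have hp' : (2 : ℝ) ≤ p := by exact_mod_cast hp
  have hp1 : (0 : ℝ) < (p : ℝ) - 1 := by linarith
  have hpa0 : (0 : ℝ) < (p : ℝ) ^ a := by positivity
  have h1 : 2 * ((p : ℝ) + 3) ≤ ((p : ℝ) - 1) ^ 2 * (p : ℝ) ^ a := by
    have h2 : ((p - 1 : ℕ) : ℝ) = (p : ℝ) - 1 := by
      rw [Nat.cast_sub (by omega)]
      simp
    rw [← h2]
    exact_mod_cast hpa
  have hD : (0 : ℝ) < ((p : ℝ) - 1) ^ 2 * (p : ℝ) ^ a := by positivity
  have e1 : 1 / (((p : ℝ) - 1) * (p : ℝ) ^ a) =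
      ((p : ℝ) - 1) / (((p : ℝ) - 1) ^ 2 * (p : ℝ) ^ a) := by
    field_simp
  rw [e1, le_sub_iff_add_le]
  have e2 : 1 / 2 + 4 / (((p : ℝ) - 1) ^ 2 * (p : ℝ) ^ a) +
      ((p : ℝ) - 1) / (((p : ℝ) - 1) ^ 2 * (p : ℝ) ^ a) =
      1 / 2 + ((p : ℝ) + 3) / (((p : ℝ) - 1) ^ 2 * (p : ℝ) ^ a) := by
    rw [add_assoc, ← add_div]
    ring
  rw [e2]
  have h3 : ((p : ℝ) + 3) / (((p : ℝ) - 1) ^ 2 * (p : ℝ) ^ a) ≤ 1 / 2 := by
    rw [div_le_div_iff₀ hD (by norm_num)]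
    linarith
  linarith

/-- increments of `φ_a` -/
theorem phiA_sub_ge {p : ℕ} [Fact p.Prime] (a i j : ℕ) {V : ℕ} (hij : i ≤ j)
    (hi : i < p ^ (V + 1)) :
    (1 - 1 / (((p : ℝ) - 1) * (p : ℝ) ^ a)) * ((j : ℝ) - i) - (V + 2) ≤
      (phiA p a j : ℝ) - phiA p a i := by
  have hpp : p.Prime := Fact.out
  have hp2 := hpp.two_le
  have hp1 : ((p - 1 : ℕ) : ℝ) = (p : ℝ) - 1 := by
    rw [Nat.cast_sub (by omega)]
    simp
  have hp0 : (1 : ℝ) ≤ (p : ℝ) - 1 := by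
    rw [← hp1]
    exact_mod_cast (show 1 ≤ p - 1 by omega)
  have hpa0 : (0 : ℝ) < (p : ℝ) ^ a := by positivity
  have hle : ∀ i : ℕ, padicValNat p (i / p ^ a).factorial ≤ i := fun i =>
    (_root_.padicValNat_factorial_le p _).trans (Nat.div_le_self _ _)
  have hcast : ∀ i : ℕ, (phiA p a i : ℝ) = i - padicValNat p (i / p ^ a).factorial := by
    intro i
    rw [phiA, Nat.cast_sub (hle i)]
  have hdig : ∀ i : ℕ, ((p : ℝ) - 1) * padicValNat p (i / p ^ a).factorial =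
      ((i / p ^ a : ℕ) : ℝ) - (p.digits (i / p ^ a)).sum := by
    intro i
    have := sub_one_mul_padicValNat_factorial (p := p) (i / p ^ a)
    rw [← hp1, ← Nat.cast_mul, this, Nat.cast_sub (Nat.digit_sum_le p _)]
  have h3 : (p.digits (i / p ^ a)).sum ≤ (p - 1) * (V + 1) := by
    have h4 : (p.digits (i / p ^ a)).length ≤ V + 1 :=
      (Nat.digits_length_le_iff hpp.one_lt _).2 ((Nat.div_le_self _ _).trans_lt hi)
    have h5 : (p.digits (i / p ^ a)).sum ≤ (p.digits (i / p ^ a)).length • (p - 1) := by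
      refine List.sum_le_card_nsmul _ _ fun d hd => ?_
      have := Nat.digits_lt_base hpp.one_lt hd
      omega
    refine h5.trans ?_
    rw [smul_eq_mul, mul_comm]
    exact Nat.mul_le_mul_left _ h4
  have h3' : (((p.digits (i / p ^ a)).sum : ℕ) : ℝ) ≤ ((p : ℝ) - 1) * (V + 1) := by
    rw [← hp1]
    exact_mod_cast h3
  have h6 : (0 : ℝ) ≤ ((p.digits (j / p ^ a)).sum : ℕ) := Nat.cast_nonneg _
  have h7 : ((j / p ^ a : ℕ) : ℝ) - ((i / p ^ a : ℕ) : ℝ) ≤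
      ((j : ℝ) - i) / (p : ℝ) ^ a + 1 := by
    have h8 : (((j / p ^ a : ℕ) : ℝ)) * (p : ℝ) ^ a ≤ j := by
      exact_mod_cast Nat.div_mul_le_self j (p ^ a)
    have h9 : (i : ℝ) ≤ ((i / p ^ a : ℕ) : ℝ) * (p : ℝ) ^ a + (p : ℝ) ^ a := by
      have h10 := Nat.lt_div_mul_add (a := i) (Nat.pos_of_ne_zero (pow_ne_zero a (by omega)) :
        0 < p ^ a)
      exact_mod_cast h10.le
    rw [div_add_one hpa0.ne', le_div_iff₀ hpa0]
    nlinarith
  have h8 : ((p : ℝ) - 1) * ((1 - 1 / (((p : ℝ) - 1) * (p : ℝ) ^ a)) * ((j : ℝ) - i) -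
      (V + 2)) ≤ ((p : ℝ) - 1) * ((phiA p a j : ℝ) - phiA p a i) := by
    have e1 : ((p : ℝ) - 1) * ((1 - 1 / (((p : ℝ) - 1) * (p : ℝ) ^ a)) * ((j : ℝ) - i) -
        (V + 2)) = ((p : ℝ) - 1) * ((j : ℝ) - i) - ((j : ℝ) - i) / (p : ℝ) ^ a -
        ((p : ℝ) - 1) * (V + 2) := by
      have : (p : ℝ) - 1 ≠ 0 := by linarith
      field_simp
    have e2 := hdig i
    have e3 := hdig j
    rw [e1, hcast i, hcast j]
    have _ := hij
    nlinarith
  exact le_of_mul_le_mul_left h8 (by linarith)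

end CombA

open CombA

/-- (4.1), sharp form -/
theorem combA_ghost {p a : ℕ} (hp : 2 ≤ p) {h q M L r V : ℕ} (hq : q = (p + 1) * h)
    (hM : 1 ≤ M) (c : ℕ → ℕ) (hc : ∀ i, c i ≤ q)
    (hsum : ∑ i ∈ range L, c i = r) (w : ℕ → ℝ) (hw : IBA p a w V) (N : Finset ℕ)
    (hN : ∀ n ∈ N, M ≤ n ∧ n < L) :
    ∑ n ∈ N, (mr p h r n : ℝ) * w n ≤ ∑ n ∈ N, (ma h r c L n : ℝ) * w n +
      4 / (((p : ℝ) - 1) ^ 2 * (p : ℝ) ^ a) * (cost q M L c + cX q M c) +
      2 * (cX q M c + cY M L c) * V := by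
  obtain ⟨hw0, hw1⟩ := hw
  have hp' : (2 : ℝ) ≤ p := by exact_mod_cast hp
  set P : ℝ := ((p : ℝ) - 1) ^ 2 * (p : ℝ) ^ a with hPdef
  have hP : (0 : ℝ) < P := mul_pos (pow_pos (by linarith) 2) (by positivity)
  -- the two parts of `N`
  have hup : ∑ n ∈ N.filter (fun n => 2 * M ≤ n + 1), (mr p h r n : ℝ) * w n ≤
      ∑ n ∈ N.filter (fun n => 2 * M ≤ n + 1), (ma h r c L n : ℝ) * w n +
      ∑ i ∈ Ico M L, 2 * (c i : ℝ) * ∑ n ∈ Ico (2 * M - 1) (2 * i + 1), w n := by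
    have h1 : ∀ n ∈ N.filter (fun n => 2 * M ≤ n + 1), (mr p h r n : ℝ) * w n ≤
        (ma h r c L n : ℝ) * w n +
          ∑ i ∈ Ico M L, if n ≤ 2 * i then 2 * (c i : ℝ) * w n else 0 := by
      intro n hn
      rw [mem_filter] at hn
      have h2 := loss_up (p := p) (h := h) (r := r) c hn.2 (hN n hn.1).2
      have h3 : (mr p h r n : ℝ) ≤ (ma h r c L n : ℝ) +
          2 * ∑ i ∈ (Ico M L).filter (fun i => n ≤ 2 * i), (c i : ℝ) := by
        exact_mod_cast h2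
      refine (mul_le_mul_of_nonneg_right h3 (hw0 n)).trans (le_of_eq ?_)
      rw [← sum_filter, add_mul, mul_sum, sum_mul]
    refine (sum_le_sum h1).trans ?_
    rw [sum_add_distrib]
    refine add_le_add le_rfl ?_
    rw [sum_comm]
    refine sum_le_sum fun i _ => ?_
    rw [← sum_filter, mul_sum]
    refine sum_le_sum_of_subset_of_nonneg (fun n hn => ?_)
      (fun n _ _ => mul_nonneg (by positivity) (hw0 n))
    rw [mem_filter, mem_filter] at hn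
    rw [mem_Ico]
    omega
  have hdn : ∑ n ∈ N.filter (fun n => ¬ 2 * M ≤ n + 1), (mr p h r n : ℝ) * w n ≤
      ∑ n ∈ N.filter (fun n => ¬ 2 * M ≤ n + 1), (ma h r c L n : ℝ) * w n +
      ∑ i ∈ range M, 2 * ((q - c i : ℕ) : ℝ) * ∑ n ∈ Ico (2 * i) (2 * M - 1), w n := by
    have h1 : ∀ n ∈ N.filter (fun n => ¬ 2 * M ≤ n + 1), (mr p h r n : ℝ) * w n ≤
        (ma h r c L n : ℝ) * w n +
          ∑ i ∈ range M, if 2 * i ≤ n then 2 * ((q - c i : ℕ) : ℝ) * w n else 0 := by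
      intro n hn
      rw [mem_filter] at hn
      have h2 := loss_down (M := M) hq c hc hsum (n := n) (by omega) (hN n hn.1).2
      have h3 : (mr p h r n : ℝ) ≤ (ma h r c L n : ℝ) +
          2 * ∑ i ∈ (range M).filter (fun i => 2 * i ≤ n), ((q - c i : ℕ) : ℝ) := by
        exact_mod_cast h2
      refine (mul_le_mul_of_nonneg_right h3 (hw0 n)).trans (le_of_eq ?_)
      rw [← sum_filter, add_mul, mul_sum, sum_mul]
    refine (sum_le_sum h1).trans ?_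
    rw [sum_add_distrib]
    refine add_le_add le_rfl ?_
    rw [sum_comm]
    refine sum_le_sum fun i _ => ?_
    rw [← sum_filter, mul_sum]
    refine sum_le_sum_of_subset_of_nonneg (fun n hn => ?_)
      (fun n _ _ => mul_nonneg (by positivity) (hw0 n))
    rw [mem_filter, mem_filter] at hn
    rw [mem_Ico]
    omega
  have hY : ∑ i ∈ Ico M L, 2 * (c i : ℝ) * ∑ n ∈ Ico (2 * M - 1) (2 * i + 1), w n ≤
      4 / P * costY M L c + 2 * cY M L c * V := by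
    have h1 : ∀ i ∈ Ico M L, 2 * (c i : ℝ) * ∑ n ∈ Ico (2 * M - 1) (2 * i + 1), w n ≤
        4 / P * ((c i : ℝ) * ((i + 1 - M : ℕ) : ℝ)) + 2 * (c i : ℝ) * V := by
      intro i hi
      rw [mem_Ico] at hi
      have h2 := hw1 (2 * M - 1) (2 * i + 1) (by omega)
      have h3 : ((2 * i + 1 : ℕ) : ℝ) - ((2 * M - 1 : ℕ) : ℝ) = 2 * ((i + 1 - M : ℕ) : ℝ) := by
        rw [Nat.cast_sub (by omega), Nat.cast_sub (by omega)]
        push_cast
        ring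
      rw [h3] at h2
      calc _ ≤ 2 * (c i : ℝ) * (2 * ((i + 1 - M : ℕ) : ℝ) / P + V) :=
            mul_le_mul_of_nonneg_left h2 (by positivity)
        _ = _ := by ring
    refine (sum_le_sum h1).trans (le_of_eq ?_)
    rw [sum_add_distrib, ← mul_sum, ← sum_mul, ← mul_sum, costY, cY]
    push_cast
    ring
  have hX : ∑ i ∈ range M, 2 * ((q - c i : ℕ) : ℝ) * ∑ n ∈ Ico (2 * i) (2 * M - 1), w n ≤
      4 / P * (costX q M c + cX q M c) + 2 * cX q M c * V := by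
    have h1 : ∀ i ∈ range M,
        2 * ((q - c i : ℕ) : ℝ) * ∑ n ∈ Ico (2 * i) (2 * M - 1), w n ≤
        4 / P * (((q - c i : ℕ) : ℝ) * ((M - 1 - i : ℕ) : ℝ)) +
          4 / P * ((q - c i : ℕ) : ℝ) + 2 * ((q - c i : ℕ) : ℝ) * V := by
      intro i hi
      rw [mem_range] at hi
      have h2 := hw1 (2 * i) (2 * M - 1) (by omega)
      have h3 : ((2 * M - 1 : ℕ) : ℝ) - ((2 * i : ℕ) : ℝ) ≤
          2 * ((M - 1 - i : ℕ) : ℝ) + 2 := by
        rw [Nat.cast_sub (by omega), Nat.cast_sub (by omega), Nat.cast_sub (by omega)]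
        push_cast
        linarith
      have h4 : ∑ n ∈ Ico (2 * i) (2 * M - 1), w n ≤
          (2 * ((M - 1 - i : ℕ) : ℝ) + 2) / P + V := by
        refine h2.trans (add_le_add ?_ le_rfl)
        gcongr
      calc _ ≤ 2 * ((q - c i : ℕ) : ℝ) *
            ((2 * ((M - 1 - i : ℕ) : ℝ) + 2) / P + V) :=
            mul_le_mul_of_nonneg_left h4 (by positivity)
        _ = _ := by ring
    refine (sum_le_sum h1).trans (le_of_eq ?_)
    rw [sum_add_distrib, sum_add_distrib, ← mul_sum, ← mul_sum, ← sum_mul, ← mul_sum, costX, cX]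
    push_cast
    ring
  have hs1 := sum_filter_add_sum_filter_not N (fun n => 2 * M ≤ n + 1)
    (fun n => (mr p h r n : ℝ) * w n)
  have hs2 := sum_filter_add_sum_filter_not N (fun n => 2 * M ≤ n + 1)
    (fun n => (ma h r c L n : ℝ) * w n)
  have hcc : ((cost q M L c : ℕ) : ℝ) = costY M L c + costX q M c := by
    rw [cost_eq]
    push_cast
    ring
  rw [← hs1, ← hs2, hcc]
  have e1 : 4 / P * ((costY M L c : ℝ) + costX q M c + cX q M c) =
      4 / P * costY M L c + 4 / P * ((costX q M c : ℝ) + cX q M c) := by ring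
  rw [e1]
  linarith [hup, hdn, hY, hX]

/-- (4.2) -/
theorem combA_phi {p : ℕ} [Fact p.Prime] (a : ℕ) {q M u L r V : ℕ} (hM : 1 ≤ M) (hML : M ≤ L)
    (hV : M < p ^ (V + 1)) (c : ℕ → ℕ) (hc : ∀ i, c i ≤ q) (hr : r + u = q * M)
    (hsum : ∑ i ∈ range L, c i = r) :
    (Lam0A p a q M u : ℝ) + (1 - 1 / (((p : ℝ) - 1) * (p : ℝ) ^ a)) * cost q M L c
      - (cX q M c + cY M L c) * (V + 2) ≤ LamAA p a q M u L c := by
  have h0 := cX_eq hML c hc hr hsum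
  have h0' : (cX q M c : ℝ) = cY M L c + u := by exact_mod_cast h0
  set K : ℝ := 1 - 1 / (((p : ℝ) - 1) * (p : ℝ) ^ a)
  have hsplit : ∑ i ∈ range L, (c i : ℝ) * phiA p a i =
      ∑ i ∈ range M, (c i : ℝ) * phiA p a i + ∑ i ∈ Ico M L, (c i : ℝ) * phiA p a i := by
    rw [range_eq_Ico, range_eq_Ico]
    exact (sum_Ico_consecutive (fun i => (c i : ℝ) * phiA p a i) (Nat.zero_le _) hML).symm
  have hlow : ∑ i ∈ range M, (c i : ℝ) * phiA p a i =
      q * ∑ i ∈ range M, (phiA p a i : ℝ) - ∑ i ∈ range M, ((q - c i : ℕ) : ℝ) * phiA p a i := by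
    rw [mul_sum, ← sum_sub_distrib]
    refine sum_congr rfl fun i _ => ?_
    rw [Nat.cast_sub (hc i)]
    ring
  have hY : K * costY M L c - cY M L c * (V + 2) ≤
      ∑ i ∈ Ico M L, (c i : ℝ) * phiA p a i - cY M L c * phiA p a (M - 1) := by
    have h1 : ∀ i ∈ Ico M L, K * ((c i : ℝ) * ((i + 1 - M : ℕ) : ℝ)) -
        (c i : ℝ) * (V + 2) ≤ (c i : ℝ) * phiA p a i - (c i : ℝ) * phiA p a (M - 1) := by
      intro i hi
      rw [mem_Ico] at hi
      have h2 := phiA_sub_ge (p := p) a (M - 1) i (V := V) (by omega) (by omega)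
      have h3 : (i : ℝ) - ((M - 1 : ℕ) : ℝ) = ((i + 1 - M : ℕ) : ℝ) := by
        rw [Nat.cast_sub (by omega), Nat.cast_sub (by omega)]
        push_cast
        ring
      rw [h3] at h2
      have h4 := mul_le_mul_of_nonneg_left h2 (Nat.cast_nonneg (α := ℝ) (c i))
      calc _ = (c i : ℝ) * (K * ((i + 1 - M : ℕ) : ℝ) - (V + 2)) := by
            ring
        _ ≤ _ := h4
        _ = _ := by ring
    have h2 := sum_le_sum h1
    rw [sum_sub_distrib, sum_sub_distrib, ← mul_sum, ← sum_mul, ← sum_mul] at h2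
    rw [costY, cY]
    push_cast
    exact h2
  have hX : K * costX q M c - cX q M c * (V + 2) ≤
      cX q M c * phiA p a (M - 1) - ∑ i ∈ range M, ((q - c i : ℕ) : ℝ) * phiA p a i := by
    have h1 : ∀ i ∈ range M,
        K * (((q - c i : ℕ) : ℝ) * ((M - 1 - i : ℕ) : ℝ)) -
        ((q - c i : ℕ) : ℝ) * (V + 2) ≤
        ((q - c i : ℕ) : ℝ) * phiA p a (M - 1) - ((q - c i : ℕ) : ℝ) * phiA p a i := by
      intro i hi
      rw [mem_range] at hi
      have h2 := phiA_sub_ge (p := p) a i (M - 1) (V := V) (by omega) (by omega)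
      have h3 : ((M - 1 : ℕ) : ℝ) - (i : ℝ) = ((M - 1 - i : ℕ) : ℝ) := by
        rw [Nat.cast_sub (show i ≤ M - 1 by omega)]
      rw [h3] at h2
      have h4 := mul_le_mul_of_nonneg_left h2 (Nat.cast_nonneg (α := ℝ) (q - c i))
      calc _ = ((q - c i : ℕ) : ℝ) * (K * ((M - 1 - i : ℕ) : ℝ) - (V + 2)) := by
            ring
        _ ≤ _ := h4
        _ = _ := by ring
    have h2 := sum_le_sum h1
    rw [sum_sub_distrib, sum_sub_distrib, ← mul_sum, ← sum_mul, ← sum_mul] at h2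
    rw [costX, cX]
    push_cast
    exact h2
  have hcc : ((cost q M L c : ℕ) : ℝ) = costY M L c + costX q M c := by
    rw [cost_eq]
    push_cast
    ring
  have hL : (LamAA p a q M u L c : ℝ) - Lam0A p a q M u =
      (∑ i ∈ Ico M L, (c i : ℝ) * phiA p a i - cY M L c * phiA p a (M - 1)) +
      (cX q M c * phiA p a (M - 1) - ∑ i ∈ range M, ((q - c i : ℕ) : ℝ) * phiA p a i) := by
    unfold LamAA Lam0A
    push_cast
    rw [hsplit, hlow, sum_add_distrib, h0']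
    ring
  have h5 := add_le_add hY hX
  rw [← hL] at h5
  rw [hcc]
  have e : (Lam0A p a q M u : ℝ) + K * (costY M L c + costX q M c) -
      (cX q M c + cY M L c) * (V + 2) = Lam0A p a q M u +
      (K * costY M L c - cY M L c * (V + 2) +
        (K * costX q M c - cX q M c * (V + 2))) := by ring
  rw [e]
  linarith

/-- (4.3): `β ≥ cost / 2 - (|X| + |Y|) (3 V + 2) - 2 |X| / 5` -/
theorem combA_beta_aux {p : ℕ} [hpp : Fact p.Prime] {a : ℕ} (hpa : CondA p a)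
    {h q M u L r V : ℕ} (hq : q = (p + 1) * h)
    (hM : 1 ≤ M) (hML : M ≤ L) (hV : M < p ^ (V + 1))
    (c : ℕ → ℕ) (hc : ∀ i, c i ≤ q) (hr : r + u = q * M)
    (hsum : ∑ i ∈ range L, c i = r) (w : ℕ → ℝ) (hw : IBA p a w V) (N : Finset ℕ)
    (hN : ∀ n ∈ N, M ≤ n ∧ n < L) :
    (Lam0A p a q M u : ℝ) + ∑ n ∈ N, (mr p h r n : ℝ) * w n + (cost q M L c : ℝ) / 2 -
      (cX q M c + cY M L c) * (3 * V + 2) - 2 * (cX q M c : ℝ) / 5 ≤
      LamAA p a q M u L c + ∑ n ∈ N, (ma h r c L n : ℝ) * w n := by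
  have hp2 := hpp.out.two_le
  have h1 := combA_ghost hp2 hq hM c hc hsum w hw N hN
  have h2 := combA_phi a hM hML hV c hc hr hsum
  have hc0 : (0 : ℝ) ≤ cost q M L c := Nat.cast_nonneg _
  have hX0 : (0 : ℝ) ≤ cX q M c := Nat.cast_nonneg _
  have h10 := ten_le hp2 hpa
  have hg := gain_ge hp2 hpa
  set P : ℝ := ((p : ℝ) - 1) ^ 2 * (p : ℝ) ^ a
  have hP : 0 < P := by linarith
  have h3 : 4 / P ≤ 2 / 5 := by
    rw [div_le_div_iff₀ hP (by norm_num)]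
    linarith
  have h5 : 4 / P * (cX q M c : ℝ) ≤ 2 * (cX q M c : ℝ) / 5 := by
    calc _ ≤ 2 / 5 * (cX q M c : ℝ) := mul_le_mul_of_nonneg_right h3 hX0
      _ = _ := by ring
  have h6 : (cost q M L c : ℝ) / 2 + 4 / P * (cost q M L c : ℝ) ≤
      (1 - 1 / (((p : ℝ) - 1) * (p : ℝ) ^ a)) * (cost q M L c : ℝ) := by
    calc _ = (1 / 2 + 4 / P) * (cost q M L c : ℝ) := by ring
      _ ≤ _ := mul_le_mul_of_nonneg_right hg hc0
  have e1 : 4 / P * ((cost q M L c : ℝ) + cX q M c) =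
      4 / P * (cost q M L c : ℝ) + 4 / P * cX q M c := by ring
  rw [e1] at h1
  linarith

/-- (4.3), first consequence (same constant as for `a = 0`) -/
theorem combA_beta {p : ℕ} [hpp : Fact p.Prime] {a : ℕ} (hpa : CondA p a)
    {h q M u L r V : ℕ} (hq : q = (p + 1) * h) (hh : 1 ≤ h)
    (hM : 1 ≤ M) (hML : M ≤ L) (hV : M < p ^ (V + 1))
    (c : ℕ → ℕ) (hc : ∀ i, c i ≤ q) (hr : r + u = q * M)
    (hsum : ∑ i ∈ range L, c i = r) (w : ℕ → ℝ) (hw : IBA p a w V) (N : Finset ℕ)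
    (hN : ∀ n ∈ N, M ≤ n ∧ n < L) :
    (Lam0A p a q M u : ℝ) + ∑ n ∈ N, (mr p h r n : ℝ) * w n - 2 * q * (5 * V + 3) ^ 2 ≤
      LamAA p a q M u L c + ∑ n ∈ N, (ma h r c L n : ℝ) * w n := by
  have h1 := combA_beta_aux hpa hq hM hML hV c hc hr hsum w hw N hN
  have h2 : (cX q M c : ℝ) ^ 2 ≤ 2 * q * (costX q M c + cX q M c) := by
    exact_mod_cast cX_sq_le c
  have h3 : (cY M L c : ℝ) ^ 2 ≤ 2 * q * costY M L c := by
    exact_mod_cast cY_sq_le c hc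
  have hcc : ((cost q M L c : ℕ) : ℝ) = costY M L c + costX q M c := by
    rw [cost_eq]
    push_cast
    ring
  have hq1 : (1 : ℝ) ≤ q := by
    rw [hq]
    have : 1 ≤ (p + 1) * h := Nat.mul_pos (by omega) hh
    exact_mod_cast this
  set x : ℝ := (cX q M c : ℝ)
  set y : ℝ := (cY M L c : ℝ)
  set k : ℝ := (cost q M L c : ℝ)
  have hV0 : (0 : ℝ) ≤ V := Nat.cast_nonneg _
  have h4 : x ^ 2 + y ^ 2 ≤ 2 * q * k + 2 * q * x := by
    rw [hcc]
    linarith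
  have hqq : (0 : ℝ) ≤ (q : ℝ) * q := by positivity
  have hqqV : (0 : ℝ) ≤ (q : ℝ) * q * V := by positivity
  have hqqV2 : (0 : ℝ) ≤ (q : ℝ) * q * (V * V) := by positivity
  have h5 : (0 : ℝ) ≤ 4 * q * (k / 2 - (x + y) * (3 * V + 2) - 2 * x / 5 +
      2 * q * (5 * V + 3) ^ 2) := by
    nlinarith [sq_nonneg (x - 2 * q * (3 * V + 29 / 10)), sq_nonneg (y - 2 * q * (3 * V + 2))]
  have h6 := nonneg_of_mul_nonneg_right h5 (by linarith : (0 : ℝ) < 4 * q)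
  linarith

/-- (4.3), second consequence (same constants as for `a = 0`) -/
theorem combA_beta' {p : ℕ} [hpp : Fact p.Prime] {a : ℕ} (hpa : CondA p a)
    {h q M u L r V X4 : ℕ} (hq : q = (p + 1) * h) (hh : 1 ≤ h)
    (hV1 : 1 ≤ V) (hM : 1 ≤ M) (hML : M ≤ L) (hV : M < p ^ (V + 1))
    (c : ℕ → ℕ) (hc : ∀ i, c i ≤ q) (hr : r + u = q * M)
    (hsum : ∑ i ∈ range L, c i = r) (w : ℕ → ℝ) (hw : IBA p a w V) (N : Finset ℕ)
    (hN : ∀ n ∈ N, M ≤ n ∧ n < L) (hX : 32 * q * (5 * V + 2) ^ 2 ≤ X4)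
    (hcost : 4 * X4 ≤ cost q M L c) :
    (Lam0A p a q M u : ℝ) + ∑ n ∈ N, (mr p h r n : ℝ) * w n + X4 ≤
      LamAA p a q M u L c + ∑ n ∈ N, (ma h r c L n : ℝ) * w n := by
  have h1 := combA_beta_aux hpa hq hM hML hV c hc hr hsum w hw N hN
  have h2 : (cX q M c : ℝ) ^ 2 ≤ 2 * q * (costX q M c + cX q M c) := by
    exact_mod_cast cX_sq_le c
  have h3 : (cY M L c : ℝ) ^ 2 ≤ 2 * q * costY M L c := by
    exact_mod_cast cY_sq_le c hc
  have hcc : ((cost q M L c : ℕ) : ℝ) = costY M L c + costX q M c := by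
    rw [cost_eq]
    push_cast
    ring
  have hq1 : (1 : ℝ) ≤ q := by
    rw [hq]
    have : 1 ≤ (p + 1) * h := Nat.mul_pos (by omega) hh
    exact_mod_cast this
  have hX' : 32 * (q : ℝ) * (5 * V + 2) ^ 2 ≤ X4 := by exact_mod_cast hX
  have hc' : 4 * (X4 : ℝ) ≤ cost q M L c := by exact_mod_cast hcost
  have hV1' : (1 : ℝ) ≤ V := by exact_mod_cast hV1
  set x : ℝ := (cX q M c : ℝ)
  set y : ℝ := (cY M L c : ℝ)
  set z : ℝ := (cost q M L c : ℝ)
  set k : ℝ := 5 * V + 2 with hk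
  have hk7 : 7 ≤ k := by linarith
  have hx0 : 0 ≤ x := Nat.cast_nonneg _
  have hy0 : 0 ≤ y := Nat.cast_nonneg _
  have h4 : x ^ 2 + y ^ 2 ≤ 2 * q * z + 2 * q * x := by
    rw [hcc]
    linarith
  have h5 : 4 * k * (x + y) ≤ z := by
    by_contra hcon
    rw [not_le] at hcon
    have hc0 : 0 < z := by
      have : (0 : ℝ) < 32 * q * k ^ 2 := by positivity
      linarith
    have hS0 : 0 < x + y := by
      by_contra h0
      have h0' : x + y = 0 := le_antisymm (not_lt.1 h0) (by linarith)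
      rw [h0', mul_zero] at hcon
      linarith
    have h6 : (x + y) * (x + y) ≤ (16 * q * k + 4 * q) * (x + y) := by
      have h7 : 4 * q * z ≤ 4 * q * (4 * k * (x + y)) :=
        mul_le_mul_of_nonneg_left hcon.le (by linarith)
      nlinarith [sq_nonneg (x - y)]
    have h7 : x + y ≤ 16 * q * k + 4 * q := le_of_mul_le_mul_right h6 hS0
    have h8 : x + y ≤ 17 * q * k := by nlinarith
    have h9 : 4 * k * (x + y) ≤ 4 * k * (17 * q * k) :=
      mul_le_mul_of_nonneg_left h8 (by linarith)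
    nlinarith
  have h6 : (x + y) * (3 * V + 2) + 2 * x / 5 ≤ k * (x + y) := by
    rw [hk]
    nlinarith
  nlinarith

variable {p : ℕ} [Fact p.Prime]

/-- (4.1) -/
theorem comb_ghostA (a : ℕ) (hpa : CondA p a) {h q M u L r V : ℕ} (hq : q = (p + 1) * h)
    (hM : 1 ≤ M) (hu : u ≤ q) (c : ℕ → ℕ) (hc : ∀ i, c i ≤ q) (hr : r + u = q * M)
    (hsum : ∑ i ∈ range L, c i = r) (w : ℕ → ℝ) (hw : IBA p a w V) (N : Finset ℕ)
    (hN : ∀ n ∈ N, M ≤ n ∧ n < L) :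
    ∑ n ∈ N, (mr p h r n : ℝ) * w n ≤ ∑ n ∈ N, (ma h r c L n : ℝ) * w n +
      4 / (((p : ℝ) - 1) ^ 2 * (p : ℝ) ^ a) * (cost q M L c + cX q M c)
      + 4 * (cX q M c + cY M L c) * V := by
  have _ := hpa
  have _ := hu
  have _ := hr
  have h1 := combA_ghost (Fact.out : p.Prime).two_le hq hM c hc hsum w hw N hN
  have h2 : (0 : ℝ) ≤ (cX q M c + cY M L c) * V := by positivity
  linarith

/-- (4.2) -/
theorem comb_phiA (a : ℕ) (hpa : CondA p a) {q M u L r V : ℕ} (hM : 1 ≤ M) (hML : M ≤ L)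
    (hV : M < p ^ (V + 1)) (hu : u ≤ q)
    (c : ℕ → ℕ) (hc : ∀ i, c i ≤ q) (hr : r + u = q * M) (hsum : ∑ i ∈ range L, c i = r) :
    (Lam0A p a q M u : ℝ) + (1 - 1 / (((p : ℝ) - 1) * (p : ℝ) ^ a)) * cost q M L c
      - (cX q M c + cY M L c) * (V + 2) ≤ LamAA p a q M u L c := by
  have _ := hpa
  have _ := hu
  exact combA_phi a hM hML hV c hc hr hsum

theorem comb_betaA (a : ℕ) (hpa : CondA p a) {h q M u L r V : ℕ} (hq : q = (p + 1) * h)
    (hh : 1 ≤ h) (hM : 1 ≤ M) (hML : M ≤ L) (hV : M < p ^ (V + 1))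
    (hu : u ≤ q) (c : ℕ → ℕ) (hc : ∀ i, c i ≤ q) (hr : r + u = q * M)
    (hsum : ∑ i ∈ range L, c i = r) (w : ℕ → ℝ) (hw : IBA p a w V) (N : Finset ℕ)
    (hN : ∀ n ∈ N, M ≤ n ∧ n < L) :
    (Lam0A p a q M u : ℝ) + ∑ n ∈ N, (mr p h r n : ℝ) * w n - 2 * q * (5 * V + 5) ^ 2 ≤
      LamAA p a q M u L c + ∑ n ∈ N, (ma h r c L n : ℝ) * w n := by
  have _ := hu
  have h1 := combA_beta hpa hq hh hM hML hV c hc hr hsum w hw N hN
  have h2 : 2 * (q : ℝ) * (5 * V + 3) ^ 2 ≤ 2 * q * (5 * V + 5) ^ 2 := by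
    have hV0 : (0 : ℝ) ≤ V := Nat.cast_nonneg _
    have h3 : ((5 : ℝ) * V + 3) ^ 2 ≤ (5 * V + 5) ^ 2 := by nlinarith
    exact mul_le_mul_of_nonneg_left h3 (by positivity)
  linarith

theorem comb_betaA' (a : ℕ) (hpa : CondA p a) {h q M u L r V X4 : ℕ} (hq : q = (p + 1) * h)
    (hh : 1 ≤ h) (hV1 : 1 ≤ V) (hM : 1 ≤ M) (hML : M ≤ L) (hV : M < p ^ (V + 1))
    (hu : u ≤ q) (c : ℕ → ℕ) (hc : ∀ i, c i ≤ q) (hr : r + u = q * M)
    (hsum : ∑ i ∈ range L, c i = r) (w : ℕ → ℝ) (hw : IBA p a w V) (N : Finset ℕ)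
    (hN : ∀ n ∈ N, M ≤ n ∧ n < L) (hX : 32 * q * (5 * V + 5) ^ 2 ≤ X4)
    (hcost : 4 * X4 ≤ cost q M L c) :
    (Lam0A p a q M u : ℝ) + ∑ n ∈ N, (mr p h r n : ℝ) * w n + X4 ≤
      LamAA p a q M u L c + ∑ n ∈ N, (ma h r c L n : ℝ) * w n := by
  have _ := hu
  refine combA_beta' hpa hq hh hV1 hM hML hV c hc hr hsum w hw N hN (le_trans ?_ hX) hcost
  exact Nat.mul_le_mul_left _ (Nat.pow_le_pow_left (by omega) 2)

end Gouvea
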