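import Pool.Agent.Work.MP_d3517d_nt.A.Basic
import Pool.Agent.Work.MP_d3517d_nt.CrFam

/-!
# MP_d3517d_nt, all primes: the coefficients `c_r` of a family at an integer weight
-/

open Polynomial Finset Matrix

noncomputable section

namespace Gouvea

open Pool.Agent.Gouv

variable {p a h n0 L J : ℕ} [hp : Fact p.Prime] {E : Type} [Fintype E] [DecidableEq E]

/-- The block of level `> n` at the weight `n`. -/
def highBlockA (F : WFamA p a h n0 L J E) (κ : ℕ) :
    Matrix {x : E × Fin L // ¬ lev x < n0 + stp p a * κ + 1}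
      {x : E × Fin L // ¬ lev x < n0 + stp p a * κ + 1} ℚ_[p] :=
  (F.U.map fun G => G.eval (κ : ℚ_[p])).submatrix Subtype.val Subtype.val

theorem highBlockA_VB {F : WFamA p a h n0 L J E} {D : Gam p E} (hc : CompatA F D) {κ : ℕ}
    (hJ : n0 + stp p a * κ < J) (hL : n0 + stp p a * κ < L)
    (x y : {x : E × Fin L // ¬ lev x < n0 + stp p a * κ + 1}) :
    VB p (highBlockA F κ x y) (lev x.1) :=
  hc.low κ hJ hL x.1 y.1 (by have := x.2; omega)

/-- The coefficient `c_r` of the family at the weight `n`. -/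
theorem cr_fam_evalA {F : WFamA p a h n0 L J E} {D : Gam p E} (hc : CompatA F D) {κ : ℕ}
    (hJ : n0 + stp p a * κ < J) (hL : n0 + stp p a * κ < L) (r : ℕ) :
    (cr F.U r).eval (κ : ℚ_[p]) = ∑ x ∈ antidiagonal r,
      cr (toQ (Um D (n0 + stp p a * κ))) x.1 * cr (highBlockA F κ) x.2 := by
  set n := n0 + stp p a * κ with hn
  have h1 : ∀ x y : E × Fin L, ¬ lev x < n + 1 → lev y < n + 1 →
      (F.U.map fun G => G.eval (κ : ℚ_[p])) x y = 0 := fun x y hx hy =>
    hc.zero κ hJ hL x y (by omega) (by omega)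
  rw [cr_eval, cr_block _ (fun x => lev x < n + 1) h1]
  refine sum_congr rfl fun i _ => ?_
  have h2 : (toQ (Um D n)) =
      ((F.U.map fun G => G.eval (κ : ℚ_[p])).submatrix
        (Subtype.val : {x : E × Fin L // lev x < n + 1} → E × Fin L) Subtype.val).submatrix
        (lowEquiv E hL) (lowEquiv E hL) := by
    ext x y
    have h3 := hc.blk κ hJ hL (lowEquiv E hL x).1 (lowEquiv E hL y).1 (lowEquiv E hL x).2
      (lowEquiv E hL y).2
    exact h3.symm
  rw [h2, cr_submatrix_equiv]
  rfl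

/-- `v(c_j) ≥ (n + 1) j` for the block of level `> n`. -/
theorem highBlockA_cr {F : WFamA p a h n0 L J E} {D : Gam p E} (hc : CompatA F D) {κ : ℕ}
    (hJ : n0 + stp p a * κ < J) (hL : n0 + stp p a * κ < L) (r : ℕ) :
    VB p (cr (highBlockA F κ) r) ((n0 + stp p a * κ + 1 : ℕ) * r) :=
  VB_cr_of_le (l := fun x => lev x.1) (fun x y => highBlockA_VB hc hJ hL x y)
    (fun x => by have := x.2; omega) r

end Gouvea
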