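import Pool.Agent.Work.MP_d3517d_nt.DivPow

/-! Divided powers of level `a` in `p z` (all primes): `x ^ m ∈ p ^ (v(⌊m / p^a⌋!)) A_a`. -/

namespace Pool.Agent.Gouv

open PowerSeries Finset

/-- `v_p(n!)` -/
def vf (p n : ℕ) : ℕ := padicValNat p n.factorial

/-- `φ_a(i) = i - v_p(⌊i / p^a⌋!)` -/
def phA (p a i : ℕ) : ℕ := i - vf p (i / p ^ a)

section Comb

variable {p : ℕ} [hp : Fact p.Prime]

theorem vf_mono {m n : ℕ} (h : m ≤ n) : vf p m ≤ vf p n := by
  unfold vf
  exact (padicValNat_dvd_iff_le (Nat.factorial_ne_zero n)).mp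
    (dvd_trans pow_padicValNat_dvd (Nat.factorial_dvd_factorial h))

theorem vf_zero : vf p 0 = 0 := by simp [vf]

theorem vf_le (n : ℕ) : vf p n ≤ n := by
  have := sub_one_mul_padicValNat_factorial (p := p) n
  have h9 : padicValNat p n.factorial ≤ (p - 1) * padicValNat p n.factorial := by
    have : 1 ≤ p - 1 := by have := hp.out.two_le; omega
    nlinarith
  unfold vf
  omega

theorem vf_div_le (n q : ℕ) : vf p (n / q) ≤ n := (vf_le _).trans (Nat.div_le_self _ _)

theorem vf_add (m n : ℕ) : vf p m + vf p n ≤ vf p (m + n) := by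
  unfold vf
  rw [← padicValNat.mul (Nat.factorial_ne_zero m) (Nat.factorial_ne_zero n)]
  exact (padicValNat_dvd_iff_le (Nat.factorial_ne_zero _)).mp
    (dvd_trans pow_padicValNat_dvd (Nat.factorial_mul_factorial_dvd_factorial_add m n))

theorem vf_div_add (m n q : ℕ) : vf p (m / q) + vf p (n / q) ≤ vf p ((m + n) / q) :=
  (vf_add _ _).trans (vf_mono (Nat.div_add_div_le_add_div))

theorem phA_add (a i j : ℕ) : phA p a (i + j) ≤ phA p a i + phA p a j := by
  unfold phA
  have h1 := vf_div_add (p := p) i j (p ^ a)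
  have h2 := vf_div_le (p := p) i (p ^ a)
  have h3 := vf_div_le (p := p) j (p ^ a)
  omega

/-- `∑_{e=1}^{a} ⌊n / p^e⌋` -/
def SA (p a n : ℕ) : ℕ := ∑ e ∈ range a, n / p ^ (e + 1)

theorem vf_eq (a n : ℕ) : vf p n = SA p a n + vf p (n / p ^ a) := by
  induction a with
  | zero => simp [SA]
  | succ a ih =>
    have h1 : ∀ m : ℕ, vf p m = m / p + vf p (m / p) := by
      intro m
      unfold vf
      rw [← padicValNat_mul_div_factorial, padicValNat_factorial_mul, add_comm]
    rw [ih, SA, SA, Finset.sum_range_succ, h1 (n / p ^ a), Nat.div_div_eq_div_mul, ← pow_succ]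
    ring

theorem SA_add (a l k : ℕ) : SA p a l + SA p a k ≤ SA p a (l + k) := by
  unfold SA
  rw [← Finset.sum_add_distrib]
  exact Finset.sum_le_sum fun e _ => Nat.div_add_div_le_add_div

theorem vf_choose (a l k : ℕ) : vf p ((l + k) / p ^ a) ≤
    padicValNat p ((l + k).choose l) + vf p (l / p ^ a) + vf p (k / p ^ a) := by
  have h1 : vf p (l + k) = padicValNat p ((l + k).choose l) + vf p l + vf p k := by
    unfold vf
    have hc : (l + k).choose l ≠ 0 := (Nat.choose_pos (Nat.le_add_right _ _)).ne'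
    rw [← Nat.add_choose_mul_factorial_mul_factorial l k, ← Nat.choose_symm_add,
      padicValNat.mul (mul_ne_zero hc (Nat.factorial_ne_zero _)) (Nat.factorial_ne_zero _),
      padicValNat.mul hc (Nat.factorial_ne_zero _)]
  have h2 := vf_eq (p := p) a (l + k)
  have h3 := vf_eq (p := p) a l
  have h4 := vf_eq (p := p) a k
  have h5 := SA_add (p := p) a l k
  omega

theorem factorial_pow_dvd (s : ℕ) (hs : 1 ≤ s) (m : ℕ) :
    m.factorial * s.factorial ^ m ∣ (m * s).factorial := by
  induction m with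
  | zero => simp
  | succ m ih =>
    obtain ⟨k, rfl⟩ : ∃ k, s = k + 1 := ⟨s - 1, by omega⟩
    have e1 : (m + 1) * (k + 1) = (m * (k + 1) + k) + 1 := by ring
    have h1 := Nat.add_one_mul_choose_eq (m * (k + 1) + k) k
    have h2 : (m + 1) * (m * (k + 1) + k).choose k = ((m + 1) * (k + 1)).choose (k + 1) := by
      apply Nat.eq_of_mul_eq_mul_right (Nat.succ_pos k)
      rw [e1]
      rw [← h1]
      simp only [Nat.succ_eq_add_one]
      ring
    have h3 : ((m + 1) * (k + 1)).choose (k + 1) * (k + 1).factorial * (m * (k + 1)).factorial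
        = ((m + 1) * (k + 1)).factorial := by
      have := Nat.choose_mul_factorial_mul_factorial
        (show k + 1 ≤ (m + 1) * (k + 1) by nlinarith)
      rw [← this]
      congr 2
      have : (m + 1) * (k + 1) - (k + 1) = m * (k + 1) := by
        rw [Nat.succ_mul]; omega
      rw [this]
    obtain ⟨c, hc⟩ := ih
    refine ⟨(m * (k + 1) + k).choose k * c, ?_⟩
    rw [← h3, ← h2, hc, Nat.factorial_succ m, pow_succ]
    ring

theorem vf_mul (s : ℕ) (hs : 1 ≤ s) (m : ℕ) : vf p m + m * vf p s ≤ vf p (m * s) := by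
  unfold vf
  have h := factorial_pow_dvd s hs m
  have h2 : padicValNat p (m.factorial * s.factorial ^ m) ≤ padicValNat p (m * s).factorial :=
    (padicValNat_dvd_iff_le (Nat.factorial_ne_zero _)).mp (dvd_trans pow_padicValNat_dvd h)
  rw [padicValNat.mul (Nat.factorial_ne_zero _) (pow_ne_zero _ (Nat.factorial_ne_zero _)),
    padicValNat.pow] at h2
  exact h2

theorem vf_monomial (a m i : ℕ) (hi : 1 ≤ i) :
    vf p (m / p ^ a) + m * vf p (i / p ^ a) ≤ vf p ((i * m) / p ^ a) := by
  have hq : 0 < p ^ a := pow_pos hp.out.pos a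
  rcases Nat.eq_zero_or_pos (i / p ^ a) with h | h
  · rw [h, vf_zero, mul_zero, add_zero]
    exact vf_mono (Nat.div_le_div_right (Nat.le_mul_of_pos_left m hi))
  · refine le_trans (Nat.add_le_add_right (vf_mono (Nat.div_le_self m _)) _) ?_
    refine (vf_mul _ h m).trans (vf_mono ?_)
    rw [Nat.le_div_iff_mul_le hq]
    calc m * (i / p ^ a) * p ^ a = m * (i / p ^ a * p ^ a) := by ring
      _ ≤ m * i := Nat.mul_le_mul_left _ (Nat.div_mul_le_self i _)
      _ = i * m := mul_comm _ _

theorem phA_monomial (a m i : ℕ) (hi : 1 ≤ i) :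
    phA p a (i * m) + vf p (m / p ^ a) ≤ m * phA p a i := by
  unfold phA
  have h1 := vf_monomial (p := p) a m i hi
  have h2 := vf_div_le (p := p) (i * m) (p ^ a)
  have h3 := vf_div_le (p := p) i (p ^ a)
  rw [Nat.mul_sub, mul_comm m i]
  omega

end Comb

section Ring

variable {B : Type*} [CommRing B]

/-- Power series whose `i`-th coefficient lies in `p^(φ_a(i)) R`. -/
def DA (R : Subring B) (p a : ℕ) [hp : Fact p.Prime] : Subring B⟦X⟧ where
  carrier := {f | ∀ i, ∃ r ∈ R, coeff i f = (p : B) ^ phA p a i * r}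
  zero_mem' := fun i => ⟨0, R.zero_mem, by simp⟩
  one_mem' := by
    intro i
    rcases Nat.eq_zero_or_pos i with h | h
    · subst h
      exact ⟨1, R.one_mem, by simp [phA]⟩
    · exact ⟨0, R.zero_mem, by simp [PowerSeries.coeff_one, h.ne']⟩
  add_mem' := by
    rintro f g hf hg i
    obtain ⟨r, hr, h1⟩ := hf i
    obtain ⟨s, hs, h2⟩ := hg i
    exact ⟨r + s, R.add_mem hr hs, by rw [map_add, h1, h2]; ring⟩
  neg_mem' := by
    rintro f hf i
    obtain ⟨r, hr, h1⟩ := hf i
    exact ⟨-r, R.neg_mem hr, by rw [map_neg, h1]; ring⟩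
  mul_mem' := by
    rintro f g hf hg n
    choose r hr h1 using hf
    choose s hs h2 using hg
    refine ⟨∑ x ∈ antidiagonal n, (p : B) ^ (phA p a x.1 + phA p a x.2 - phA p a n) *
      (r x.1 * s x.2), ?_, ?_⟩
    · refine R.sum_mem fun x _ => R.mul_mem (R.pow_mem (natCast_mem R _) _)
        (R.mul_mem (hr _) (hs _))
    · rw [PowerSeries.coeff_mul, Finset.mul_sum]
      refine Finset.sum_congr rfl fun x hx => ?_
      obtain ⟨i, j⟩ := x
      have hij : i + j = n := by simpa using hx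
      subst hij
      simp only
      rw [h1, h2, ← mul_assoc ((p : B) ^ phA p a (i + j)), ← pow_add]
      have : phA p a (i + j) + (phA p a i + phA p a j - phA p a (i + j))
          = phA p a i + phA p a j := by
        have := phA_add (p := p) a i j
        omega
      rw [this, pow_add]
      ring

variable {R T : Subring B} {p : ℕ} [hp : Fact p.Prime] {a : ℕ}

theorem C_mem_DA {r : B} (hr : r ∈ R) : PowerSeries.C r ∈ DA R p a := by
  intro i
  rcases Nat.eq_zero_or_pos i with h | h
  · subst h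
    exact ⟨r, hr, by simp [phA]⟩
  · exact ⟨0, R.zero_mem, by simp [PowerSeries.coeff_C, h.ne']⟩

/-- elements with level `a` divided powers -/
def PA (R : Subring B) (p a : ℕ) [hp : Fact p.Prime] (x : B⟦X⟧) : Prop :=
  ∀ m, ∃ g ∈ DA R p a, x ^ m = (p : B⟦X⟧) ^ vf p (m / p ^ a) * g

theorem PA_add {x y : B⟦X⟧} (hx : PA R p a x) (hy : PA R p a y) : PA R p a (x + y) := by
  intro m
  choose g hg h1 using hx
  choose k hk h2 using hy
  refine ⟨∑ l ∈ range (m + 1), (p : B⟦X⟧) ^ (padicValNat p (m.choose l) + vf p (l / p ^ a)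
      + vf p ((m - l) / p ^ a) - vf p (m / p ^ a)) *
      (((m.choose l / p ^ padicValNat p (m.choose l) : ℕ) : B⟦X⟧) * (g l * k (m - l))), ?_, ?_⟩
  · refine (DA R p a).sum_mem fun l _ => ?_
    exact (DA R p a).mul_mem ((DA R p a).pow_mem (natCast_mem _ _) _)
      ((DA R p a).mul_mem (natCast_mem _ _) ((DA R p a).mul_mem (hg _) (hk _)))
  · rw [add_pow, Finset.mul_sum]
    refine Finset.sum_congr rfl fun l hl => ?_
    have hlm : l ≤ m := by have := Finset.mem_range.mp hl; omega
    obtain ⟨c, rfl⟩ := Nat.exists_eq_add_of_le hlm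
    have h3 := vf_choose (p := p) a l c
    have h4 : l + c - l = c := by omega
    rw [h4, h1, h2, ← mul_assoc ((p : B⟦X⟧) ^ vf p ((l + c) / p ^ a)), ← pow_add]
    have h5 : vf p ((l + c) / p ^ a) + (padicValNat p ((l + c).choose l) + vf p (l / p ^ a)
        + vf p (c / p ^ a) - vf p ((l + c) / p ^ a))
        = padicValNat p ((l + c).choose l) + vf p (l / p ^ a) + vf p (c / p ^ a) := by omega
    rw [h5]
    have h6 : (((l + c).choose l : ℕ) : B⟦X⟧) = (p : B⟦X⟧) ^ padicValNat p ((l + c).choose l)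
        * (((l + c).choose l / p ^ padicValNat p ((l + c).choose l) : ℕ) : B⟦X⟧) := by
      have h7 := Nat.mul_div_cancel' (pow_padicValNat_dvd (p := p) (n := (l + c).choose l))
      have h8 := congrArg (Nat.cast : ℕ → B⟦X⟧) h7
      rw [← h8]
      push_cast
      rfl
    rw [h6, pow_add, pow_add]
    ring

theorem PA_zero : PA R p a (0 : B⟦X⟧) := by
  intro m
  rcases Nat.eq_zero_or_pos m with h | h
  · subst h
    exact ⟨1, (DA R p a).one_mem, by simp [vf]⟩
  · exact ⟨0, (DA R p a).zero_mem, by simp [h.ne']⟩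

theorem PA_sum {ι : Type*} (s : Finset ι) (f : ι → B⟦X⟧) (h : ∀ i ∈ s, PA R p a (f i)) :
    PA R p a (∑ i ∈ s, f i) := by
  classical
  induction s using Finset.induction_on with
  | empty => simpa using PA_zero
  | insert i s his ih =>
    rw [Finset.sum_insert his]
    exact PA_add (h i (Finset.mem_insert_self i s))
      (ih fun j hj => h j (Finset.mem_insert_of_mem hj))

theorem PA_const {t : B} (ht : t ∈ R) : PA R p a (PowerSeries.C ((p : B) * t)) := by
  intro m
  have h1 := vf_div_le (p := p) m (p ^ a)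
  refine ⟨PowerSeries.C ((p : B) ^ (m - vf p (m / p ^ a)) * t ^ m), C_mem_DA
    (R.mul_mem (R.pow_mem (natCast_mem R _) _) (R.pow_mem ht _)), ?_⟩
  have h2 : (p : B⟦X⟧) ^ vf p (m / p ^ a) = PowerSeries.C ((p : B) ^ vf p (m / p ^ a)) := by
    simp
  rw [h2, ← map_pow, ← map_mul, ← mul_assoc, ← pow_add, mul_pow]
  congr 3
  omega

theorem PA_monomial {r : B} (hr : r ∈ R) {i : ℕ} (hi : 1 ≤ i) :
    PA R p a (PowerSeries.monomial i ((p : B) ^ phA p a i * r)) := by
  intro m
  have h1 := phA_monomial (p := p) a m i hi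
  refine ⟨PowerSeries.monomial (m * i) ((p : B) ^ (m * phA p a i - vf p (m / p ^ a)) * r ^ m),
    ?_, ?_⟩
  · intro j
    rcases eq_or_ne j (m * i) with h | h
    · subst h
      refine ⟨(p : B) ^ (m * phA p a i - vf p (m / p ^ a) - phA p a (m * i)) * r ^ m,
        R.mul_mem (R.pow_mem (natCast_mem R _) _) (R.pow_mem hr _), ?_⟩
      rw [PowerSeries.coeff_monomial, if_pos rfl, ← mul_assoc, ← pow_add]
      congr 2
      rw [mul_comm i m] at h1
      omega
    · exact ⟨0, R.zero_mem, by rw [PowerSeries.coeff_monomial, if_neg h, mul_zero]⟩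
  · have h2 : (p : B⟦X⟧) ^ vf p (m / p ^ a) = PowerSeries.C ((p : B) ^ vf p (m / p ^ a)) := by
      simp
    have h3 : ∀ (i : ℕ) (c : B), PowerSeries.monomial i c = PowerSeries.C c * PowerSeries.X ^ i :=
      fun i c => PowerSeries.monomial_eq_mk i c ▸ by
        ext k
        simp [PowerSeries.coeff_X_pow]
    rw [h2, h3, h3, mul_pow, ← map_pow, ← pow_mul, ← mul_assoc, ← map_mul, mul_comm i m]
    congr 2
    rw [← mul_assoc, ← pow_add, mul_pow, ← pow_mul]
    congr 2
    rw [mul_comm (phA p a i) m]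
    omega

/-- Divided powers of level `a`. -/
theorem PA_of_mem {x : B⟦X⟧} (hx : x ∈ DA R p a) (h0 : coeff 0 x = 0) : PA R p a x := by
  choose r hr h1 using hx
  have key : ∀ n, PA R p a (((trunc n x : Polynomial B) : B⟦X⟧)) := by
    intro n
    have h2 : ((trunc n x : Polynomial B) : B⟦X⟧)
        = ∑ i ∈ range n, PowerSeries.monomial i (coeff i x) := by
      ext k
      rw [Polynomial.coeff_coe, PowerSeries.coeff_trunc, map_sum]
      simp only [PowerSeries.coeff_monomial]
      by_cases hk : k < n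
      · rw [if_pos hk, Finset.sum_eq_single k]
        · simp
        · intro b _ hb; rw [if_neg (Ne.symm hb)]
        · intro h; exact absurd (Finset.mem_range.mpr hk) h
      · rw [if_neg hk, Finset.sum_eq_zero]
        intro b hb
        rw [if_neg]
        rintro rfl
        exact hk (Finset.mem_range.mp hb)
    rw [h2]
    refine PA_sum _ _ fun i _ => ?_
    rcases Nat.eq_zero_or_pos i with h | h
    · subst h
      rw [h0, map_zero]
      exact PA_zero
    · rw [h1 i]
      exact PA_monomial (hr i) h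
  intro m
  choose g hg h3 using fun n => key n m
  refine ⟨PowerSeries.mk fun i => coeff i (g (i + 1)), ?_, ?_⟩
  · intro i
    obtain ⟨s, hs, h4⟩ := hg (i + 1) i
    exact ⟨s, hs, by rw [PowerSeries.coeff_mk, h4]⟩
  · ext i
    have h2 : (p : B⟦X⟧) ^ vf p (m / p ^ a) = PowerSeries.C ((p : B) ^ vf p (m / p ^ a)) := by
      simp
    rw [h2, PowerSeries.coeff_C_mul, PowerSeries.coeff_mk, ← PowerSeries.coeff_C_mul, ← h2, ← h3]
    have h5 := PowerSeries.trunc_trunc_pow x (i + 1) m
    have h6 := congrArg (fun P : Polynomial B => P.coeff i) h5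
    simp only [PowerSeries.coeff_trunc, Nat.lt_succ_self, if_true] at h6
    exact h6.symm

/-- Lemma 2.1 of level `a`. -/
theorem exists_polyA (hT : Frob R T p) (j : ℕ) :
    ∃ P : Polynomial ℤ, P.Monic ∧ P.natDegree = j ∧
      ∀ y ∈ DA R p a, coeff 0 y ∈ T → ∃ g ∈ DA R p a, Polynomial.aeval y P
        = (p : B⟦X⟧) ^ (vf p (j / p ^ (a + 1))) * g := by
  have hm : (Polynomial.X ^ p - Polynomial.X : Polynomial ℤ).Monic :=
    Polynomial.monic_X_pow_sub (by
      rw [Polynomial.degree_X]
      exact_mod_cast hp.out.one_lt)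
  have hd : (Polynomial.X ^ p - Polynomial.X : Polynomial ℤ).natDegree = p := by
    rw [Polynomial.natDegree_sub_eq_left_of_natDegree_lt]
    · exact Polynomial.natDegree_X_pow p
    · rw [Polynomial.natDegree_X, Polynomial.natDegree_X_pow]
      exact hp.out.one_lt
  refine ⟨Polynomial.X ^ (j % p) * (Polynomial.X ^ p - Polynomial.X) ^ (j / p),
    (Polynomial.monic_X_pow _).mul (hm.pow _), ?_, ?_⟩
  · rw [(Polynomial.monic_X_pow _).natDegree_mul (hm.pow _), hm.natDegree_pow, hd,
      Polynomial.natDegree_X_pow, mul_comm]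
    have := Nat.div_add_mod j p
    omega
  · intro y hy hy0
    obtain ⟨s, hs, hts⟩ := hT.frob _ hy0
    have hx : y ^ p - y - PowerSeries.C ((p : B) * s) ∈ DA R p a :=
      (DA R p a).sub_mem ((DA R p a).sub_mem ((DA R p a).pow_mem hy _) hy)
        (C_mem_DA (R.mul_mem (natCast_mem R _) (hT.le hs)))
    have hx0 : coeff 0 (y ^ p - y - PowerSeries.C ((p : B) * s)) = 0 := by
      rw [← hts]
      simp
    obtain ⟨g, hg, h1⟩ := PA_add (PA_of_mem hx hx0) (PA_const (a := a) (hT.le hs)) (j / p)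
    rw [sub_add_cancel] at h1
    refine ⟨y ^ (j % p) * g, (DA R p a).mul_mem ((DA R p a).pow_mem hy _) hg, ?_⟩
    rw [map_mul, map_pow, map_pow, map_sub, map_pow, Polynomial.aeval_X, h1,
      Nat.div_div_eq_div_mul, pow_succ' p a]
    ring

/-- Lemma 2.1 of level `a`, in terms of the powers of `y`. -/
theorem exists_familyA (hT : Frob R T p) :
    ∃ H : ℕ → ℕ → ℤ, ∀ y ∈ DA R p a, coeff 0 y ∈ T → ∃ gg : ℕ → B⟦X⟧,
      (∀ k, gg k ∈ DA R p a) ∧ ∀ j, y ^ j = ∑ k ∈ range (j + 1), ((H k j : ℤ) : B⟦X⟧) *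
        ((p : B⟦X⟧) ^ (vf p (k / p ^ (a + 1))) * gg k) := by
  choose P hP1 hP2 hP3 using fun j => exists_polyA (a := a) hT j
  obtain ⟨H, hH⟩ := exists_expansion P fun j => ⟨hP1 j, hP2 j⟩
  refine ⟨H, fun y hy hy0 => ?_⟩
  choose gg hgg1 hgg2 using fun k => hP3 k y hy hy0
  refine ⟨gg, hgg1, fun j => ?_⟩
  have h2 := congrArg (Polynomial.aeval y) (hH j)
  rw [map_pow, Polynomial.aeval_X, map_sum] at h2
  rw [h2]
  refine Finset.sum_congr rfl fun k _ => ?_
  rw [map_mul, hgg2 k, Polynomial.aeval_C]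
  simp

end Ring

end Pool.Agent.Gouv
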