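import Pool.Agent.Work.MP_d3517d_nt.A.Basic

/-! The weight family of the slash action, step `(p-1) p^a`, as power series in `z` over
`ℚ_p[κ]`. -/

open Polynomial Finset

noncomputable section

namespace Gouvea

variable (p : ℕ) [Fact p.Prime] (a : ℕ)

/-- the weight `n0 + (p - 1) p^a κ` as an element of `ℚ_p[κ]` -/
def wtPA (n0 : ℕ) : ℚ_[p][X] := C (n0 : ℚ_[p]) + C ((stp p a : ℕ) : ℚ_[p]) * X

/-- the truncated binomial expansion of `d ^ ((p - 1) p^a κ)` -/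
def PdA (J : ℕ) (d : ℚ_[p]) : ℚ_[p][X] :=
  ∑ t ∈ range J, Ring.choose (X : ℚ_[p][X]) t * C ((d ^ stp p a - 1) ^ t)

variable {p}

/-- `z^j |_κ γ` -/
def famSA (n0 J : ℕ) (g : Matrix (Fin 2) (Fin 2) ℤ_[p]) (j : ℕ) : PowerSeries (ℚ_[p][X]) :=
  PowerSeries.C (C ((g 1 1 : ℚ_[p]) ^ ((n0 : ℤ) - (j : ℤ))) * PdA p a J (g 1 1 : ℚ_[p])) *
    PowerSeries.rescale (C ((g 1 0 : ℚ_[p]) / (g 1 1 : ℚ_[p])))
      (PowerSeries.binomialSeries (ℚ_[p][X]) (wtPA p a n0 - (j : ℚ_[p][X]))) *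
    (PowerSeries.C (C (g 0 0 : ℚ_[p])) * PowerSeries.X + PowerSeries.C (C (g 0 1 : ℚ_[p]))) ^ j

/-- the integral factorisation of the family `famSA` (Lemma 2.1, general step) -/
def FamFacA (p : ℕ) [Fact p.Prime] (a : ℕ) : Prop :=
  ∃ H : ℕ → ℕ → ℤ, ∀ (n0 J : ℕ) (g : Matrix (Fin 2) (Fin 2) ℤ_[p]),
    (p : ℤ_[p]) ∣ g 0 0 → (p : ℤ_[p]) ∣ g 1 0 → IsUnit (g 1 1) →
    ∃ G : ℕ → ℕ → ℚ_[p][X], (∀ i k, GB p (G i k) 0) ∧
      ∀ i j, PowerSeries.coeff i (famSA a n0 J g j) = ∑ k ∈ range (j + 1),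
        C ((p : ℚ_[p]) ^ phiA p a i) * G i k *
          C ((p : ℚ_[p]) ^ psiA p a k * (H k j : ℚ_[p]))

end Gouvea
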