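import Pool.Agent.Work.MP_d3517d_nt.Fam3
import Pool.Agent.Work.MP_d3517d_nt.A.FamDef

/-!
# M9b, all primes: the family with step `(p-1) p^a`
-/

open Polynomial Finset

noncomputable section

namespace Gouvea

variable {p : ℕ} [Fact p.Prime] {a : ℕ}

/-- the factor `F` -/
def FFA (p : ℕ) [Fact p.Prime] (a n0 J : ℕ) (c d : ℚ_[p]) : PowerSeries ℚ_[p][X] :=
  PowerSeries.C (C (d ^ n0) * PdA p a J d) * bs (wtPA p a n0) (c / d)

/-- the family in the form `F y^j` -/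
theorem famSA_eqA (n0 J : ℕ) (g : Matrix (Fin 2) (Fin 2) ℤ_[p]) (hd : (g 1 1 : ℚ_[p]) ≠ 0)
    (j : ℕ) : famSA a n0 J g j = FFA p a n0 J (g 1 0 : ℚ_[p]) (g 1 1 : ℚ_[p]) *
      yy (g 0 0 : ℚ_[p]) (g 0 1 : ℚ_[p]) (g 1 0 : ℚ_[p]) (g 1 1 : ℚ_[p]) ^ j := by
  have h1 : PowerSeries.rescale (C ((g 1 0 : ℚ_[p]) / (g 1 1 : ℚ_[p])))
      (PowerSeries.binomialSeries (ℚ_[p][X]) (wtPA p a n0 - (j : ℚ_[p][X]))) =
      bs (wtPA p a n0) ((g 1 0 : ℚ_[p]) / (g 1 1 : ℚ_[p])) *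
        bs (-1) ((g 1 0 : ℚ_[p]) / (g 1 1 : ℚ_[p])) ^ j := bs_sub_nat _ _ _
  have h2 : (PowerSeries.C (C ((g 0 0 : ℚ_[p]) / (g 1 1 : ℚ_[p]))) * PowerSeries.X +
      PowerSeries.C (C ((g 0 1 : ℚ_[p]) / (g 1 1 : ℚ_[p]))) : PowerSeries ℚ_[p][X]) =
      PowerSeries.C (C ((g 1 1 : ℚ_[p])⁻¹)) * (PowerSeries.C (C (g 0 0 : ℚ_[p])) * PowerSeries.X +
        PowerSeries.C (C (g 0 1 : ℚ_[p]))) := by
    rw [div_eq_inv_mul, div_eq_inv_mul, C_mul, C_mul, map_mul, map_mul]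
    ring
  have h3 : C ((g 1 1 : ℚ_[p]) ^ ((n0 : ℤ) - (j : ℤ))) =
      C ((g 1 1 : ℚ_[p]) ^ n0) * C ((g 1 1 : ℚ_[p])⁻¹) ^ j := by
    rw [zpow_sub₀ hd, zpow_natCast, zpow_natCast, div_eq_mul_inv, C_mul, ← C_pow, inv_pow]
  have h4 : (PowerSeries.C (C ((g 1 1 : ℚ_[p])⁻¹) ^ j) : PowerSeries ℚ_[p][X]) =
      PowerSeries.C (C ((g 1 1 : ℚ_[p])⁻¹)) ^ j := map_pow _ _ _
  rw [famSA, h1, FFA, yy, h2, h3, mul_pow, mul_pow, map_mul, map_mul, map_mul, h4]
  ring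

/-- the matrix coefficient of the family: coefficient of `z^i` in `z^j |_κ γ` -/
def slkA (a n0 J : ℕ) (g : Matrix (Fin 2) (Fin 2) ℤ_[p]) (i j : ℕ) : ℚ_[p][X] :=
  PowerSeries.coeff i (famSA a n0 J g j)

theorem eval_wtPA (n0 κ : ℕ) :
    (wtPA p a n0).eval (κ : ℚ_[p]) = ((n0 + stp p a * κ : ℕ) : ℚ_[p]) := by
  simp [wtPA]

theorem eval_PdA {J κ : ℕ} (hκ : κ < J) (d : ℚ_[p]) :
    (PdA p a J d).eval (κ : ℚ_[p]) = d ^ (stp p a * κ) := by
  have h1 : (PdA p a J d).eval (κ : ℚ_[p]) =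
      ∑ t ∈ range J, (d ^ stp p a - 1) ^ t * (Nat.choose κ t : ℚ_[p]) := by
    rw [PdA, eval_finsetSum]
    refine sum_congr rfl fun t _ => ?_
    rw [eval_mul, eval_C, mul_comm]
    congr 1
    have h := Ring.map_choose (Polynomial.evalRingHom (κ : ℚ_[p])) X t
    rw [coe_evalRingHom, eval_X, Ring.choose_natCast] at h
    exact h
  rw [h1]
  have h2 : ∑ t ∈ range J, (d ^ stp p a - 1) ^ t * (Nat.choose κ t : ℚ_[p]) =
      ∑ t ∈ range (κ + 1), (d ^ stp p a - 1) ^ t * (Nat.choose κ t : ℚ_[p]) := by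
    symm
    refine sum_subset (range_subset_range.2 hκ) fun t _ ht => ?_
    rw [mem_range, not_lt] at ht
    rw [Nat.choose_eq_zero_of_lt ht, Nat.cast_zero, mul_zero]
  rw [h2, pow_mul]
  have h3 := add_pow (d ^ stp p a - 1) 1 κ
  rw [sub_add_cancel] at h3
  rw [h3]
  refine sum_congr rfl fun t _ => ?_
  rw [one_pow, mul_one]

theorem stp_pos : 1 ≤ stp p a := by
  have hp := (Fact.out : p.Prime).two_le
  have h1 : 0 < p ^ a := Nat.pos_of_ne_zero (pow_ne_zero _ (by omega))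
  exact Nat.mul_pos (by omega) h1

theorem fm_kappa_ltA {n0 J κ : ℕ} (h : n0 + stp p a * κ < J) : κ < J := by
  have : 1 * κ ≤ stp p a * κ := Nat.mul_le_mul_right _ stp_pos
  omega

theorem evk_FFA {n0 J κ : ℕ} (h : n0 + stp p a * κ < J) (c d : ℚ_[p]) (hd : d ≠ 0) :
    evk κ (FFA p a n0 J c d) =
      (PowerSeries.C d + PowerSeries.C c * PowerSeries.X) ^ (n0 + stp p a * κ) := by
  rw [FFA, map_mul, evk_C, evk_bs_nat κ _ _ _ (eval_wtPA n0 κ), eval_mul, eval_C,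
    eval_PdA (fm_kappa_ltA h), ← pow_add, map_pow, ← mul_pow]
  congr 1
  rw [mul_add, mul_one, ← mul_assoc, ← map_mul, mul_div_cancel₀ _ hd]

theorem evk_prodA {n0 J κ j : ℕ} (h : n0 + stp p a * κ < J) (hj : j ≤ n0 + stp p a * κ)
    (a' b c d : ℚ_[p]) (hd : d ≠ 0) :
    evk κ (FFA p a n0 J c d * yy a' b c d ^ j) =
      (PowerSeries.C a' * PowerSeries.X + PowerSeries.C b) ^ j *
      (PowerSeries.C c * PowerSeries.X + PowerSeries.C d) ^ (n0 + stp p a * κ - j) := by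
  rw [map_mul, map_pow, evk_FFA h c d hd, ← evk_yy κ a' b c d hd]
  obtain ⟨k, hk⟩ := Nat.exists_eq_add_of_le hj
  rw [hk, Nat.add_sub_cancel_left, pow_add, mul_pow]
  ring

theorem slk_evalA {n0 J κ : ℕ} (h : n0 + stp p a * κ < J) (g : Matrix (Fin 2) (Fin 2) ℤ_[p])
    (hg : IsUnit (g 1 1)) (i j : ℕ) (hj : j ≤ n0 + stp p a * κ) :
    (slkA a n0 J g i j).eval (κ : ℚ_[p]) = ((sl (n0 + stp p a * κ) g i j : ℤ_[p]) : ℚ_[p]) := by
  have hd : ((g 1 1 : ℤ_[p]) : ℚ_[p]) ≠ 0 := fm_unit_ne hg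
  rw [slkA, famSA_eqA n0 J g hd, ← coeff_evk, evk_prodA h hj _ _ _ _ hd, sl]
  have h1 : ((((C (g 0 0) * X + C (g 0 1)) ^ j *
      (C (g 1 0) * X + C (g 1 1)) ^ (n0 + stp p a * κ - j) : ℤ_[p][X])).map
        PadicInt.Coe.ringHom : ℚ_[p][X]) =
      (C ((g 0 0 : ℤ_[p]) : ℚ_[p]) * X + C ((g 0 1 : ℤ_[p]) : ℚ_[p])) ^ j *
      (C ((g 1 0 : ℤ_[p]) : ℚ_[p]) * X + C ((g 1 1 : ℤ_[p]) : ℚ_[p])) ^
        (n0 + stp p a * κ - j) := by
    simp only [Polynomial.map_mul, Polynomial.map_pow, Polynomial.map_add, Polynomial.map_C,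
      Polynomial.map_X]
    rfl
  have h2 := congrArg (fun f : ℚ_[p][X] => f.coeff i) h1
  simp only [Polynomial.coeff_map] at h2
  have h3 : ((((C (g 0 0) * X + C (g 0 1)) ^ j *
      (C (g 1 0) * X + C (g 1 1)) ^ (n0 + stp p a * κ - j) : ℤ_[p][X]).coeff i : ℤ_[p]) : ℚ_[p]) =
      PadicInt.Coe.ringHom (((C (g 0 0) * X + C (g 0 1)) ^ j *
      (C (g 1 0) * X + C (g 1 1)) ^ (n0 + stp p a * κ - j) : ℤ_[p][X]).coeff i) := rfl
  rw [h3, h2, ← Polynomial.coeff_coe]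
  congr 1
  simp

theorem slk_eval_zeroA {n0 J κ : ℕ} (h : n0 + stp p a * κ < J)
    (g : Matrix (Fin 2) (Fin 2) ℤ_[p]) (hg : IsUnit (g 1 1)) (i j : ℕ)
    (hj : j ≤ n0 + stp p a * κ) (hi : n0 + stp p a * κ < i) :
    (slkA a n0 J g i j).eval (κ : ℚ_[p]) = 0 := by
  rw [slk_evalA h g hg i j hj, fm_sl_eq_zero g hj hi]
  rfl

theorem slk_lowA {n0 J κ : ℕ} (h : n0 + stp p a * κ < J)
    (g : Matrix (Fin 2) (Fin 2) ℤ_[p]) (h00 : (p : ℤ_[p]) ∣ g 0 0) (h10 : (p : ℤ_[p]) ∣ g 1 0)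
    (hg : IsUnit (g 1 1)) (i j : ℕ) :
    VB p ((slkA a n0 J g i j).eval (κ : ℚ_[p])) i := by
  have hd : ((g 1 1 : ℤ_[p]) : ℚ_[p]) ≠ 0 := fm_unit_ne hg
  rw [slkA, famSA_eqA n0 J g hd, ← coeff_evk, map_mul, map_pow, evk_FFA h _ _ hd,
    add_comm (PowerSeries.C _)]
  exact ((InP.lin (fm_VB_coe_dvd h10) (fm_VB_coe _)).pow _).mul
    ((InP_yy κ (fm_VB_coe_dvd h00) (fm_VB_coe _) (fm_VB_coe_dvd h10) (fm_norm_unit hg)).pow _) i

variable {E : Type} [Fintype E] [DecidableEq E]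

/-- the matrix of the family -/
def famUA (a : ℕ) (D : Gam p E) (n0 L J : ℕ) : Matrix (E × Fin L) (E × Fin L) ℚ_[p][X] :=
  fun x y => ∑ t, if D.tgt x.1 t = y.1 then
    C ((D.co x.1 t : ℤ_[p]) : ℚ_[p]) * slkA a n0 J (D.γ x.1 t) (lev x) (lev y) else 0

omit [Fintype E] in
theorem famU_evalA (D : Gam p E) {n0 L J κ : ℕ} (h : n0 + stp p a * κ < J) (x y : E × Fin L)
    (hx : lev x < n0 + stp p a * κ + 1) (hy : lev y < n0 + stp p a * κ + 1) :
    (famUA a D n0 L J x y).eval (κ : ℚ_[p]) =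
      ((Um D (n0 + stp p a * κ) (x.1, ⟨lev x, hx⟩) (y.1, ⟨lev y, hy⟩) : ℤ_[p]) : ℚ_[p]) := by
  have h1 : ((Um D (n0 + stp p a * κ) (x.1, ⟨lev x, hx⟩) (y.1, ⟨lev y, hy⟩) : ℤ_[p]) : ℚ_[p]) =
      ∑ t, if D.tgt x.1 t = y.1 then
        ((D.co x.1 t : ℤ_[p]) : ℚ_[p]) *
          ((sl (n0 + stp p a * κ) (D.γ x.1 t) (lev x) (lev y) : ℤ_[p]) : ℚ_[p]) else 0 := by
    rw [Um]
    have h2 := map_sum (PadicInt.Coe.ringHom (p := p)) (fun t => if D.tgt x.1 t = y.1 then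
      D.co x.1 t * sl (n0 + stp p a * κ) (D.γ x.1 t) (lev x) (lev y) else 0) univ
    refine h2.trans (sum_congr rfl fun t _ => ?_)
    by_cases ht : D.tgt x.1 t = y.1
    · rw [if_pos ht, if_pos ht, map_mul]; rfl
    · rw [if_neg ht, if_neg ht, map_zero]
  rw [h1, famUA, eval_finsetSum]
  refine sum_congr rfl fun t _ => ?_
  by_cases ht : D.tgt x.1 t = y.1
  · rw [if_pos ht, if_pos ht, eval_mul, eval_C]
    congr 1
    exact slk_evalA h _ (D.h11 _ _) _ _ (by omega)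
  · rw [if_neg ht, if_neg ht, eval_zero]

omit [Fintype E] in
theorem famU_zeroA (D : Gam p E) {n0 L J κ : ℕ} (h : n0 + stp p a * κ < J) (x y : E × Fin L)
    (hx : n0 + stp p a * κ < lev x) (hy : lev y ≤ n0 + stp p a * κ) :
    (famUA a D n0 L J x y).eval (κ : ℚ_[p]) = 0 := by
  rw [famUA, eval_finsetSum]
  refine sum_eq_zero fun t _ => ?_
  by_cases ht : D.tgt x.1 t = y.1
  · rw [if_pos ht, eval_mul, slk_eval_zeroA h _ (D.h11 _ _) _ _ hy hx, mul_zero]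
  · rw [if_neg ht, eval_zero]

omit [Fintype E] in
theorem famU_lowA (D : Gam p E) {n0 L J κ : ℕ} (h : n0 + stp p a * κ < J) (x y : E × Fin L) :
    VB p ((famUA a D n0 L J x y).eval (κ : ℚ_[p])) (lev x) := by
  rw [famUA, eval_finsetSum]
  refine VB.sum fun t _ => ?_
  by_cases ht : D.tgt x.1 t = y.1
  · rw [if_pos ht, eval_mul, eval_C]
    have h1 := (fm_VB_coe (D.co x.1 t)).mul
      (slk_lowA h _ (D.h00 x.1 t) (D.h10 x.1 t) (D.h11 x.1 t) (lev x) (lev y))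
    rwa [zero_add] at h1
  · rw [if_neg ht, eval_zero]
    exact VB.zero _

/-- the decomposition at an integer weight -/
theorem famU_decA {h : ℕ} {V : Type} [Fintype V] [DecidableEq V] (D : Dat p h E V)
    {n0 L J κ : ℕ} (he : Even (n0 + stp p a * κ)) (hJ : n0 + stp p a * κ < J) :
    ∃ P Q : Matrix (E × Fin L) (E × Fin L) ℚ_[p],
      ((famUA a D.toGam n0 L J).map fun F => F.eval (κ : ℚ_[p])) = P + Q ∧
      P.rank ≤ h * (n0 + stp p a * κ + 1) ∧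
      ∀ x y, Q x y ≠ 0 → (n0 + stp p a * κ < lev y ∨
        (x.1 = D.σ y.1 ∧ lev x + lev y = n0 + stp p a * κ)) := by
  obtain ⟨n, hn⟩ : ∃ n, n = n0 + stp p a * κ := ⟨_, rfl⟩
  obtain ⟨A, hA⟩ : ∃ A : Matrix (E × Fin L) (V × Fin (n + 1)) ℚ_[p], A = fun x v =>
    if hx : lev x < n + 1 then (((D.W n * D.ι n) (x.1, ⟨lev x, hx⟩) v : ℤ_[p]) : ℚ_[p])
      else 0 := ⟨_, rfl⟩
  obtain ⟨B, hB⟩ : ∃ B : Matrix (V × Fin (n + 1)) (E × Fin L) ℚ_[p], B = fun v y =>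
    if hy : lev y < n + 1 then ((D.π n v (y.1, ⟨lev y, hy⟩) : ℤ_[p]) : ℚ_[p])
      else 0 := ⟨_, rfl⟩
  refine ⟨A * B, ((famUA a D.toGam n0 L J).map fun F => F.eval (κ : ℚ_[p])) - A * B,
    (add_sub_cancel _ _).symm, ?_, ?_⟩
  · refine (Matrix.rank_mul_le_left A B).trans ((Matrix.rank_le_card_width A).trans ?_)
    rw [Fintype.card_prod, Fintype.card_fin, D.cardV, hn]
  · intro x y hxy
    by_contra hcon
    rw [not_or, not_lt] at hcon
    obtain ⟨hy, hcon⟩ := hcon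
    refine hxy ?_
    rw [Matrix.sub_apply, Matrix.map_apply]
    by_cases hx : lev x < n + 1
    · have hy' : lev y < n + 1 := by omega
      have hAB : (A * B) x y = (((D.W n * (D.ι n * D.π n)) (x.1, ⟨lev x, hx⟩)
          (y.1, ⟨lev y, hy'⟩) : ℤ_[p]) : ℚ_[p]) := by
        rw [← Matrix.mul_assoc, Matrix.mul_apply, Matrix.mul_apply]
        have h2 := map_sum (PadicInt.Coe.ringHom (p := p))
          (fun v => (D.W n * D.ι n) (x.1, ⟨lev x, hx⟩) v * D.π n v (y.1, ⟨lev y, hy'⟩)) univ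
        refine Eq.trans ?_ h2.symm
        refine sum_congr rfl fun v _ => ?_
        rw [hA, hB, map_mul]
        simp only [dif_pos hx, dif_pos hy']
        rfl
      have hU : (famUA a D.toGam n0 L J x y).eval (κ : ℚ_[p]) =
          ((Um D.toGam n (x.1, ⟨lev x, hx⟩) (y.1, ⟨lev y, hy'⟩) : ℤ_[p]) : ℚ_[p]) := by
        subst hn
        exact famU_evalA D.toGam hJ x y hx hy'
      have hWU := D.WU n (hn ▸ he)
      rw [hU, hAB, ← hWU, mul_sub, mul_one, Matrix.sub_apply, PadicInt.coe_sub,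
        sub_sub_cancel_left]
      have hW : D.W n (x.1, ⟨lev x, hx⟩) (y.1, ⟨lev y, hy'⟩) = 0 := by
        by_contra hne
        have := D.W0 n (hn ▸ he) _ _ hne
        refine hcon ⟨this.1, ?_⟩
        rw [← hn]
        exact this.2
      rw [hW, PadicInt.coe_zero, neg_zero]
    · rw [famU_zeroA D.toGam hJ x y (by omega) hy, zero_sub, neg_eq_zero, Matrix.mul_apply]
      refine sum_eq_zero fun v _ => ?_
      rw [hA]
      simp only [dif_neg hx, zero_mul]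

theorem famU_facA {H : ℕ → ℕ → ℤ} {n0 J : ℕ} (L : ℕ) (D : Gam p E)
    (G : E → Fin D.m → ℕ → ℕ → ℚ_[p][X])
    (hG : ∀ e t i j, PowerSeries.coeff i (famSA a n0 J (D.γ e t) j) = ∑ k ∈ range (j + 1),
        C ((p : ℚ_[p]) ^ phiA p a i) * G e t i k * C ((p : ℚ_[p]) ^ psiA p a k * (H k j : ℚ_[p])))
    (x y : E × Fin L) :
    famUA a D n0 L J x y = ∑ z : E × Fin L, C ((p : ℚ_[p]) ^ phiA p a (lev x)) *
      (∑ t, if D.tgt x.1 t = z.1 then
        C ((D.co x.1 t : ℤ_[p]) : ℚ_[p]) * G x.1 t (lev x) (lev z) else 0) *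
      C ((p : ℚ_[p]) ^ psiA p a (lev z) *
        (if z.1 = y.1 ∧ lev z ≤ lev y then (H (lev z) (lev y) : ℚ_[p]) else 0)) := by
  rw [Fintype.sum_prod_type, sum_eq_single y.1]
  · have h1 : ∀ k : Fin L, C ((p : ℚ_[p]) ^ phiA p a (lev x)) *
        (∑ t, if D.tgt x.1 t = ((y.1, k) : E × Fin L).1 then
          C ((D.co x.1 t : ℤ_[p]) : ℚ_[p]) *
            G x.1 t (lev x) (lev ((y.1, k) : E × Fin L)) else 0) *
        C ((p : ℚ_[p]) ^ psiA p a (lev ((y.1, k) : E × Fin L)) *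
        (if ((y.1, k) : E × Fin L).1 = y.1 ∧ lev ((y.1, k) : E × Fin L) ≤ lev y then
          (H (lev ((y.1, k) : E × Fin L)) (lev y) : ℚ_[p]) else 0)) =
        (fun k : ℕ => if k ≤ lev y then ∑ t, (if D.tgt x.1 t = y.1 then
          C ((D.co x.1 t : ℤ_[p]) : ℚ_[p]) * (C ((p : ℚ_[p]) ^ phiA p a (lev x)) * G x.1 t (lev x) k *
            C ((p : ℚ_[p]) ^ psiA p a k * (H k (lev y) : ℚ_[p]))) else 0) else 0) k := by
      intro k
      have e1 : lev ((y.1, k) : E × Fin L) = (k : ℕ) := rfl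
      simp only [e1, true_and]
      by_cases hk : (k : ℕ) ≤ lev y
      · rw [if_pos hk, if_pos hk, mul_sum, sum_mul]
        refine sum_congr rfl fun t _ => ?_
        by_cases ht : D.tgt x.1 t = y.1
        · rw [if_pos ht, if_pos ht]
          ring
        · rw [if_neg ht, if_neg ht, mul_zero, zero_mul]
      · rw [if_neg hk, if_neg hk, mul_zero, C_0, mul_zero]
    rw [sum_congr rfl (fun k _ => h1 k)]
    rw [Fin.sum_univ_eq_sum_range (fun k : ℕ => if k ≤ lev y then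
      ∑ t, (if D.tgt x.1 t = y.1 then
          C ((D.co x.1 t : ℤ_[p]) : ℚ_[p]) * (C ((p : ℚ_[p]) ^ phiA p a (lev x)) * G x.1 t (lev x) k *
            C ((p : ℚ_[p]) ^ psiA p a k * (H k (lev y) : ℚ_[p]))) else 0) else 0) L]
    have h2 : (range L).filter (fun k => k ≤ lev y) = range (lev y + 1) := by
      ext k
      have : lev y < L := y.2.2
      simp only [mem_filter, mem_range]
      omega
    rw [← sum_filter, h2, sum_comm, famUA]
    refine sum_congr rfl fun t _ => ?_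
    by_cases ht : D.tgt x.1 t = y.1
    · simp only [if_pos ht]
      rw [slkA, hG, mul_sum]
    · simp only [if_neg ht, sum_const_zero]
  · intro e _ he
    refine sum_eq_zero fun k _ => ?_
    rw [if_neg (fun h => he h.1), mul_zero, C_0, mul_zero]
  · intro h
    exact absurd (mem_univ _) h

/-- M9b: the family of the matrices `Um`. -/
theorem exists_fam_ofA (hF : FamFacA p a) {h : ℕ} {V : Type} [Fintype V] [DecidableEq V]
    (D : Dat p h E V) (hp : p = 2 → 1 ≤ a) {n0 : ℕ} (hn0 : Even n0) (L J : ℕ) :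
    ∃ F : WFamA p a h n0 L J E, CompatA F D.toGam := by
  obtain ⟨H, hH⟩ := hF
  choose G hG0 hG using fun (e : E) (t : Fin D.m) =>
    hH n0 J (D.γ e t) (D.h00 e t) (D.h10 e t) (D.h11 e t)
  have hev : ∀ κ, Even (n0 + stp p a * κ) := by
    intro κ
    refine hn0.add (Even.mul_right ?_ κ)
    rcases (Fact.out : p.Prime).eq_two_or_odd' with h2 | h2
    · obtain ⟨b, hb⟩ := Nat.exists_eq_add_of_le (hp h2)
      rw [stp, hb, pow_add, pow_one]
      refine Even.mul_left (Even.mul_right ?_ _) _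
      rw [h2]
      exact even_two
    · rw [stp]
      refine Even.mul_right ?_ _
      obtain ⟨k, hk⟩ := h2
      exact ⟨k, by omega⟩
  refine ⟨{ U := famUA a D.toGam n0 L J
            σ := D.σ
            G := fun x z => ∑ t, if D.tgt x.1 t = z.1 then
              C ((D.co x.1 t : ℤ_[p]) : ℚ_[p]) * G x.1 t (lev x) (lev z) else 0
            H := fun z y => if z.1 = y.1 ∧ lev z ≤ lev y then (H (lev z) (lev y) : ℚ_[p]) else 0
            hG := ?_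
            hH := ?_
            fac := fun x y => famU_facA L D.toGam G hG x y
            dec := fun κ hκ => famU_decA D (hev κ) hκ }, ?_⟩
  · intro x y
    refine GB.sum fun t _ => ?_
    by_cases ht : D.tgt x.1 t = y.1
    · rw [if_pos ht]
      have h1 := (GB.C (fm_VB_coe (D.co x.1 t))).mul (hG0 x.1 t (lev x) (lev y))
      rwa [zero_add] at h1
    · rw [if_neg ht]
      exact GB.zero _
  · intro x y
    split_ifs
    · exact VB.intCast _
    · exact VB.zero _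
  · exact { blk := fun κ hJ _ x y hx hy => famU_evalA D.toGam hJ x y hx hy
            zero := fun κ hJ _ x y hx hy => famU_zeroA D.toGam hJ x y hx hy
            low := fun κ hJ _ x y _ => famU_lowA D.toGam hJ x y }

end Gouvea
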