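import Pool.Agent.Work.MP_d3517d_nt.A.FamDef
import Pool.Agent.Work.MP_d3517d_nt.A.DivPowA
import Pool.Agent.Work.MP_d3517d_nt.FamFac

/-! Lemma 2.1 of level `a` in coordinates: the factorisation `D_φ G D_ψ H` of the weight family
with step `(p - 1) p ^ a`. -/

open Finset

noncomputable section

namespace Gouvea

open Pool.Agent.Gouv

section

variable {p : ℕ} [hp : Fact p.Prime]

theorem SA_zero (a : ℕ) : SA p a 0 = 0 := by simp [SA]

theorem SA_succ (a n : ℕ) : SA p a (n + 1) = SA p a n + min a (padicValNat p (n + 1)) := by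
  induction a with
  | zero => simp [SA]
  | succ a ih =>
    have e1 : ∀ m, SA p (a + 1) m = SA p a m + m / p ^ (a + 1) := by
      intro m
      rw [SA, SA, Finset.sum_range_succ]
    rw [e1, e1, ih, Nat.succ_div]
    have h1 : p ^ (a + 1) ∣ n + 1 ↔ a + 1 ≤ padicValNat p (n + 1) :=
      padicValNat_dvd_iff_le (Nat.succ_ne_zero n)
    by_cases h : p ^ (a + 1) ∣ n + 1
    · rw [if_pos h]
      have := h1.mp h
      omega
    · rw [if_neg h]
      have : ¬ (a + 1 ≤ padicValNat p (n + 1)) := fun h2 => h (h1.mpr h2)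
      omega

/-- the falling factorials of `P X` -/
theorem desc_mem (a i : ℕ) : ∃ r ∈ RInt p,
    (descPochhammer ℤ i).smeval
      (Polynomial.C ((stp p a : ℕ) : ℚ_[p]) * Polynomial.X : Polynomial ℚ_[p])
      = Polynomial.C ((p : ℚ_[p]) ^ SA p a i) * r := by
  set m : Polynomial ℚ_[p] := Polynomial.C ((stp p a : ℕ) : ℚ_[p]) * Polynomial.X with hm
  have hX : (Polynomial.X : Polynomial ℚ_[p]) ∈ RInt p := ⟨Polynomial.X, by simp⟩
  have hstp : Polynomial.C ((stp p a : ℕ) : ℚ_[p])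
      = Polynomial.C ((p : ℚ_[p]) ^ a) * ((p - 1 : ℕ) : Polynomial ℚ_[p]) := by
    unfold stp
    simp only [Nat.cast_mul, Nat.cast_pow, map_mul, map_natCast, map_pow]
    ring
  have hsucc : ∀ i, (descPochhammer ℤ (i + 1)).smeval m
      = (descPochhammer ℤ i).smeval m * (m - (i : Polynomial ℚ_[p])) := by
    intro i
    rw [descPochhammer_succ_right]
    have h1 : ∀ q : Polynomial ℤ, q.smeval m = Polynomial.aeval m q := by
      intro q
      rw [Polynomial.aeval_eq_smeval]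
    rw [h1, h1, map_mul, map_sub, Polynomial.aeval_X, map_natCast]
  have key : ∀ i, ∃ r ∈ RInt p, (descPochhammer ℤ (i + 1)).smeval m
      = Polynomial.C ((p : ℚ_[p]) ^ (a + SA p a i)) * r := by
    intro i
    induction i with
    | zero =>
      refine ⟨((p - 1 : ℕ) : Polynomial ℚ_[p]) * Polynomial.X,
        (RInt p).mul_mem (natCast_mem _ _) hX, ?_⟩
      rw [hsucc, SA_zero]
      simp only [descPochhammer_zero, Polynomial.smeval_one, pow_zero, one_smul, Nat.cast_zero,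
        sub_zero, one_mul, add_zero]
      rw [hm, hstp]
      ring
    | succ i ih =>
      obtain ⟨r, hr, h1⟩ := ih
      set μ := min a (padicValNat p (i + 1)) with hμ
      have h2 : ∃ s ∈ RInt p, m - ((i + 1 : ℕ) : Polynomial ℚ_[p])
          = Polynomial.C ((p : ℚ_[p]) ^ μ) * s := by
        have h3 : p ^ μ ∣ i + 1 :=
          (padicValNat_dvd_iff_le (Nat.succ_ne_zero i)).mpr (min_le_right _ _)
        obtain ⟨c, hc⟩ := h3
        obtain ⟨b, hb⟩ := Nat.exists_eq_add_of_le (min_le_left a (padicValNat p (i + 1)))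
        refine ⟨Polynomial.C ((p : ℚ_[p]) ^ b) * (((p - 1 : ℕ) : Polynomial ℚ_[p]) *
          Polynomial.X) - (c : Polynomial ℚ_[p]), ?_, ?_⟩
        · refine (RInt p).sub_mem ((RInt p).mul_mem ?_ ((RInt p).mul_mem (natCast_mem _ _) hX))
            (natCast_mem _ _)
          rw [map_pow]
          refine (RInt p).pow_mem ?_ _
          rw [map_natCast]
          exact natCast_mem _ _
        · have h4 : ((i + 1 : ℕ) : Polynomial ℚ_[p]) = Polynomial.C ((p : ℚ_[p]) ^ μ) * c := by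
            rw [hc]
            simp
          have h5 : (p : ℚ_[p]) ^ a = (p : ℚ_[p]) ^ μ * (p : ℚ_[p]) ^ b := by
            rw [← pow_add]
            congr 1
          rw [h4, hm, hstp, h5, Polynomial.C_mul]
          ring
      obtain ⟨s, hs, h6⟩ := h2
      refine ⟨r * s, (RInt p).mul_mem hr hs, ?_⟩
      rw [hsucc, h1, h6, SA_succ, ← add_assoc, pow_add _ (a + SA p a i), Polynomial.C_mul]
      ring
  cases i with
  | zero => exact ⟨1, (RInt p).one_mem, by simp [SA_zero]⟩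
  | succ i =>
    obtain ⟨r, hr, h1⟩ := key i
    have h2 : SA p a (i + 1) ≤ a + SA p a i := by
      rw [SA_succ]
      have := min_le_left a (padicValNat p (i + 1))
      omega
    obtain ⟨c, hc⟩ := Nat.exists_eq_add_of_le h2
    refine ⟨Polynomial.C ((p : ℚ_[p]) ^ c) * r, (RInt p).mul_mem ?_ hr, ?_⟩
    · rw [map_pow]
      refine (RInt p).pow_mem ?_ _
      rw [map_natCast]
      exact natCast_mem _ _
    · rw [h1, hc, pow_add, Polynomial.C_mul]
      ring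

theorem norm_pow_div_fac (i : ℕ) :
    ‖(p : ℚ_[p]) ^ vf p i / ((i.factorial : ℕ) : ℚ_[p])‖ = 1 := by
  have hfac : ((i.factorial : ℕ) : ℚ_[p]) ≠ 0 := by exact_mod_cast Nat.factorial_ne_zero i
  have h7 : ‖((i.factorial : ℕ) : ℚ_[p])‖ = (p : ℝ) ^ (-(vf p i : ℤ)) := by
    rw [Padic.norm_eq_zpow_neg_valuation hfac, Padic.valuation_natCast]
    rfl
  rw [norm_div, norm_pow, Padic.norm_p, h7, inv_pow, ← zpow_natCast, ← zpow_neg, div_self]
  have : (0 : ℝ) < p := by exact_mod_cast hp.out.pos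
  positivity

/-- `(1 + p u z) ^ (P κ)` -/
theorem binS_memA (a : ℕ) {u : ℚ_[p]} (hu : ‖u‖ ≤ 1) :
    PowerSeries.rescale (Polynomial.C ((p : ℚ_[p]) * u))
      (PowerSeries.binomialSeries (Polynomial ℚ_[p])
        (Polynomial.C ((stp p a : ℕ) : ℚ_[p]) * Polynomial.X : Polynomial ℚ_[p]))
      ∈ DA (RInt p) p a := by
  intro i
  obtain ⟨r, hr, h1⟩ := desc_mem (p := p) a i
  rw [Ring.descPochhammer_eq_factorial_smul_choose] at h1
  set c : Polynomial ℚ_[p] := Ring.choose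
    (Polynomial.C ((stp p a : ℕ) : ℚ_[p]) * Polynomial.X : Polynomial ℚ_[p]) i with hc
  have hfac : ((i.factorial : ℕ) : ℚ_[p]) ≠ 0 := by exact_mod_cast Nat.factorial_ne_zero i
  have h2 : c = Polynomial.C (((i.factorial : ℕ) : ℚ_[p])⁻¹ * (p : ℚ_[p]) ^ SA p a i) * r := by
    have h3 : Polynomial.C (((i.factorial : ℕ) : ℚ_[p])) * c
        = Polynomial.C ((p : ℚ_[p]) ^ SA p a i) * r := by
      rw [← h1, nsmul_eq_mul, map_natCast]
    rw [Polynomial.C_mul, mul_assoc, ← h3, ← mul_assoc, ← Polynomial.C_mul,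
      inv_mul_cancel₀ hfac, Polynomial.C_1, one_mul]
  refine ⟨Polynomial.C ((p : ℚ_[p]) ^ vf p i / ((i.factorial : ℕ) : ℚ_[p])) *
    (Polynomial.C (u ^ i) * r), ?_, ?_⟩
  · refine (RInt p).mul_mem (C_mem_RInt (norm_pow_div_fac i).le)
      ((RInt p).mul_mem (C_mem_RInt ?_) hr)
    rw [norm_pow]
    exact pow_le_one₀ (norm_nonneg _) hu
  · rw [PowerSeries.coeff_rescale, PowerSeries.binomialSeries_coeff, ← hc, h2]
    have h4 : phA p a i + vf p i = i + SA p a i := by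
      have h5 := vf_eq (p := p) a i
      have h6 := vf_div_le (p := p) i (p ^ a)
      unfold phA
      omega
    have h7 : (p : ℚ_[p]) ^ phA p a i * ((p : ℚ_[p]) ^ vf p i / ((i.factorial : ℕ) : ℚ_[p]))
        = (p : ℚ_[p]) ^ i * (((i.factorial : ℕ) : ℚ_[p])⁻¹ * (p : ℚ_[p]) ^ SA p a i) := by
      rw [mul_div_assoc', ← pow_add, h4, pow_add]
      ring
    have h8 : ((p : ℕ) : Polynomial ℚ_[p]) ^ phA p a i
        = Polynomial.C ((p : ℚ_[p]) ^ phA p a i) := by simp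
    have h9 : (Polynomial.C ((p : ℚ_[p]) * u)) ^ i
        = Polynomial.C ((p : ℚ_[p]) ^ i) * Polynomial.C (u ^ i) := by
      rw [← Polynomial.C_pow, mul_pow, Polynomial.C_mul]
    rw [h8, ← mul_assoc, ← Polynomial.C_mul, h7, smul_eq_mul, mul_one, h9,
      Polynomial.C_mul (a := (p : ℚ_[p]) ^ i)]
    ring

/-- `(1 + p u z) ^ k`, `k` an integer -/
theorem binS_intA (a : ℕ) {u : ℚ_[p]} (hu : ‖u‖ ≤ 1) (k : ℤ) :
    PowerSeries.rescale (Polynomial.C ((p : ℚ_[p]) * u))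
      (PowerSeries.binomialSeries (Polynomial ℚ_[p]) (k : Polynomial ℚ_[p]))
      ∈ DA (RInt p) p a := by
  intro i
  have h1 : Ring.choose (k : Polynomial ℚ_[p]) i = ((Ring.choose k i : ℤ) : Polynomial ℚ_[p]) := by
    have := Ring.map_choose (Int.castRingHom (Polynomial ℚ_[p])) k i
    simpa using this.symm
  have h2 : phA p a i ≤ i := Nat.sub_le _ _
  obtain ⟨c, hc⟩ := Nat.exists_eq_add_of_le h2
  refine ⟨Polynomial.C ((p : ℚ_[p]) ^ c) * (Polynomial.C (u ^ i) *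
    ((Ring.choose k i : ℤ) : Polynomial ℚ_[p])), ?_, ?_⟩
  · refine (RInt p).mul_mem ?_ ((RInt p).mul_mem (C_mem_RInt ?_) (intCast_mem _ _))
    · rw [map_pow]
      refine (RInt p).pow_mem ?_ _
      rw [map_natCast]
      exact natCast_mem _ _
    · rw [norm_pow]
      exact pow_le_one₀ (norm_nonneg _) hu
  · rw [PowerSeries.coeff_rescale, PowerSeries.binomialSeries_coeff, h1, smul_eq_mul, mul_one]
    have h8 : ((p : ℕ) : Polynomial ℚ_[p]) ^ phA p a i
        = Polynomial.C ((p : ℚ_[p]) ^ phA p a i) := by simp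
    have h9 : (Polynomial.C ((p : ℚ_[p]) * u)) ^ i = Polynomial.C ((p : ℚ_[p]) ^ phA p a i) *
        (Polynomial.C ((p : ℚ_[p]) ^ c) * Polynomial.C (u ^ i)) := by
      rw [← Polynomial.C_mul, ← Polynomial.C_mul, ← Polynomial.C_pow, mul_pow, ← mul_assoc,
        ← pow_add, ← hc]
    rw [h8, h9]
    ring

theorem PdA_mem (a J : ℕ) {d : ℤ_[p]} (hd : IsUnit d) : PdA p a J (d : ℚ_[p]) ∈ RInt p := by
  unfold PdA
  refine (RInt p).sum_mem fun t _ => ?_
  have h1 : (p : ℤ_[p]) ∣ d ^ (stp p a) - 1 := by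
    have h2 : PadicInt.toZMod (d ^ (stp p a) - 1) = 0 := by
      unfold stp
      rw [map_sub, pow_mul, map_pow, map_pow, map_one, ZMod.pow_card_sub_one_eq_one, one_pow,
        sub_self]
      exact (hd.map (PadicInt.toZMod (p := p))).ne_zero
    have h3 : d ^ (stp p a) - 1 ∈ RingHom.ker (PadicInt.toZMod (p := p)) := h2
    rw [PadicInt.ker_toZMod, PadicInt.maximalIdeal_eq_span_p] at h3
    exact Ideal.mem_span_singleton.mp h3
  obtain ⟨y, hy, hy2⟩ := exists_norm_p_mul h1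
  have hy3 : ((d : ℚ_[p])) ^ (stp p a) - 1 = p * y := by
    rw [← hy2]; push_cast; ring
  rw [hy3]
  have h4 : ((t.factorial : ℕ) : Polynomial ℚ_[p]) * Ring.choose (Polynomial.X : Polynomial ℚ_[p]) t
      = (descPochhammer ℤ t).smeval (Polynomial.X : Polynomial ℚ_[p]) := by
    rw [Ring.descPochhammer_eq_factorial_smul_choose, nsmul_eq_mul]
  have h5 : (descPochhammer ℤ t).smeval (Polynomial.X : Polynomial ℚ_[p]) ∈ RInt p := by
    rw [Polynomial.smeval_eq_sum]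
    refine (RInt p).sum_mem fun k _ => ?_
    simp only [Polynomial.smul_pow]
    exact (RInt p).zsmul_mem ((RInt p).pow_mem ⟨Polynomial.X, by simp⟩ _) _
  have hfac : ((t.factorial : ℕ) : ℚ_[p]) ≠ 0 := by exact_mod_cast Nat.factorial_ne_zero t
  have h6 : Ring.choose (Polynomial.X : Polynomial ℚ_[p]) t * Polynomial.C (((p : ℚ_[p]) * y) ^ t)
      = Polynomial.C ((p : ℚ_[p]) ^ vf p t / (t.factorial : ℕ)) *
        (Polynomial.C ((p : ℚ_[p]) ^ (t - vf p t)) * Polynomial.C (y ^ t)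
        * (descPochhammer ℤ t).smeval (Polynomial.X : Polynomial ℚ_[p])) := by
    have hvt := vf_le (p := p) t
    have e0 : (p : ℚ_[p]) ^ t = (p : ℚ_[p]) ^ vf p t * (p : ℚ_[p]) ^ (t - vf p t) := by
      rw [← pow_add]; congr 1; omega
    rw [← h4]
    have e1 : ((t.factorial : ℕ) : Polynomial ℚ_[p]) = Polynomial.C ((t.factorial : ℕ) : ℚ_[p]) := by
      simp
    rw [e1, mul_pow, e0]
    have e2 : Polynomial.C ((p : ℚ_[p]) ^ vf p t / ((t.factorial : ℕ) : ℚ_[p])) *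
        Polynomial.C ((t.factorial : ℕ) : ℚ_[p]) = Polynomial.C ((p : ℚ_[p]) ^ vf p t) := by
      rw [← Polynomial.C_mul, div_mul_cancel₀ _ hfac]
    calc Ring.choose (Polynomial.X : Polynomial ℚ_[p]) t *
          Polynomial.C ((p : ℚ_[p]) ^ vf p t * (p : ℚ_[p]) ^ (t - vf p t) * y ^ t)
        = Polynomial.C ((p : ℚ_[p]) ^ vf p t) * (Polynomial.C ((p : ℚ_[p]) ^ (t - vf p t)) *
          Polynomial.C (y ^ t) * Ring.choose (Polynomial.X : Polynomial ℚ_[p]) t) := by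
          rw [Polynomial.C_mul, Polynomial.C_mul]; ring
      _ = _ := by rw [← e2]; ring
  rw [h6]
  refine (RInt p).mul_mem (C_mem_RInt (norm_pow_div_fac t).le) ((RInt p).mul_mem
    ((RInt p).mul_mem ?_ (C_mem_RInt ?_)) h5)
  · rw [map_pow]
    refine (RInt p).pow_mem ?_ _
    rw [map_natCast]
    exact natCast_mem _ _
  · rw [norm_pow]
    exact pow_le_one₀ (norm_nonneg _) hy

/-- the factor of automorphy -/
def FSerA (a n0 J : ℕ) (g : Matrix (Fin 2) (Fin 2) ℤ_[p]) : PowerSeries (Polynomial ℚ_[p]) :=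
  PowerSeries.C (Polynomial.C ((g 1 1 : ℚ_[p]) ^ (n0 : ℤ)) * PdA p a J (g 1 1 : ℚ_[p])) *
    PowerSeries.rescale (Polynomial.C ((g 1 0 : ℚ_[p]) / (g 1 1 : ℚ_[p])))
      (PowerSeries.binomialSeries (Polynomial ℚ_[p]) (wtPA p a n0))

theorem famSA_eq (a n0 J : ℕ) {g : Matrix (Fin 2) (Fin 2) ℤ_[p]} (h11 : IsUnit (g 1 1)) (j : ℕ) :
    famSA a n0 J g j = FSerA a n0 J g * ySer g ^ j := by
  have hd : (g 1 1 : ℚ_[p]) ≠ 0 := by
    have := norm_unit_inv h11
    intro h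
    rw [h, norm_zero] at this
    exact zero_ne_one this
  unfold famSA FSerA ySer
  rw [binS_sub, map_mul (PowerSeries.rescale _), map_pow (PowerSeries.rescale _)]
  have e1 : (g 1 1 : ℚ_[p]) ^ ((n0 : ℤ) - (j : ℤ)) = (g 1 1 : ℚ_[p]) ^ (n0 : ℤ) *
      ((g 1 1 : ℚ_[p])⁻¹) ^ j := by
    rw [zpow_sub₀ hd, zpow_natCast (g 1 1 : ℚ_[p]) j, inv_pow, div_eq_mul_inv]
  rw [e1, Polynomial.C_mul, Polynomial.C_pow, mul_pow, mul_pow, ← map_pow (PowerSeries.C)]
  simp only [map_mul]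
  ring

theorem FSerA_mem (a n0 J : ℕ) {g : Matrix (Fin 2) (Fin 2) ℤ_[p]} (h10 : (p : ℤ_[p]) ∣ g 1 0)
    (h11 : IsUnit (g 1 1)) : FSerA a n0 J g ∈ DA (RInt p) p a := by
  obtain ⟨u, hu, hu2⟩ := div_of_dvd h10 h11
  unfold FSerA wtPA
  have e1 : Polynomial.C ((n0 : ℕ) : ℚ_[p]) = (((n0 : ℕ) : ℤ) : Polynomial ℚ_[p]) := by simp
  rw [hu2, e1, PowerSeries.binomialSeries_add, map_mul (PowerSeries.rescale _)]
  refine (DA (RInt p) p a).mul_mem (C_mem_DA ((RInt p).mul_mem (C_mem_RInt ?_)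
    (PdA_mem a J h11))) ((DA (RInt p) p a).mul_mem (binS_intA a hu _) (binS_memA a hu))
  rw [norm_zpow, norm_unit_inv h11, one_zpow]

theorem phA_one (a : ℕ) : phA p a 1 ≤ 1 := Nat.sub_le _ _

theorem lin_memA (a : ℕ) {x y : ℤ_[p]} (hx : (p : ℤ_[p]) ∣ x) :
    (PowerSeries.C (Polynomial.C (x : ℚ_[p])) * PowerSeries.X +
      PowerSeries.C (Polynomial.C (y : ℚ_[p]))) ∈ DA (RInt p) p a := by
  obtain ⟨z, hz, hz2⟩ := exists_norm_p_mul hx
  refine (DA (RInt p) p a).add_mem ?_ (C_mem_DA (C_mem_RInt (PadicInt.norm_le_one y)))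
  intro i
  rcases eq_or_ne i 1 with h | h
  · subst h
    obtain ⟨c, hc⟩ := Nat.exists_eq_add_of_le (phA_one (p := p) a)
    refine ⟨Polynomial.C ((p : ℚ_[p]) ^ c) * Polynomial.C z, (RInt p).mul_mem ?_
      (C_mem_RInt hz), ?_⟩
    · rw [map_pow]
      refine (RInt p).pow_mem ?_ _
      rw [map_natCast]
      exact natCast_mem _ _
    · rw [PowerSeries.coeff_C_mul, PowerSeries.coeff_X, if_pos rfl, hz2]
      have h8 : ((p : ℕ) : Polynomial ℚ_[p]) ^ phA p a 1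
          = Polynomial.C ((p : ℚ_[p]) ^ phA p a 1) := by simp
      rw [h8, ← mul_assoc, ← Polynomial.C_mul, ← pow_add, ← hc, pow_one, mul_one,
        Polynomial.C_mul]
  · refine ⟨0, (RInt p).zero_mem, ?_⟩
    rw [PowerSeries.coeff_C_mul, PowerSeries.coeff_X, if_neg h]
    simp

theorem ySer_memA (a : ℕ) {g : Matrix (Fin 2) (Fin 2) ℤ_[p]} (h00 : (p : ℤ_[p]) ∣ g 0 0)
    (h10 : (p : ℤ_[p]) ∣ g 1 0) (h11 : IsUnit (g 1 1)) : ySer g ∈ DA (RInt p) p a := by
  obtain ⟨u, hu, hu2⟩ := div_of_dvd h10 h11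
  unfold ySer
  rw [hu2]
  have e1 : (-1 : Polynomial ℚ_[p]) = ((-1 : ℤ) : Polynomial ℚ_[p]) := by simp
  rw [e1]
  refine (DA (RInt p) p a).mul_mem ((DA (RInt p) p a).mul_mem (C_mem_DA (C_mem_RInt ?_))
    (binS_intA a hu _)) (lin_memA a h00)
  rw [norm_inv, norm_unit_inv h11, inv_one]

end

/-- The change of basis matrix and the factorisation of the weight family, step `(p-1) p^a`. -/
theorem fam_facA (p : ℕ) [hp : Fact p.Prime] (a : ℕ) :
    ∃ H : ℕ → ℕ → ℤ, ∀ g : Matrix (Fin 2) (Fin 2) ℤ_[p], (p : ℤ_[p]) ∣ g 0 0 →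
      (p : ℤ_[p]) ∣ g 1 0 → IsUnit (g 1 1) → ∀ n0 J : ℕ, ∃ Gm : ℕ → ℕ → Polynomial ℚ_[p],
      (∀ i k, GB p (Gm i k) 0) ∧ ∀ i j, PowerSeries.coeff i (famSA a n0 J g j) =
        ∑ k ∈ range (j + 1), Polynomial.C ((p : ℚ_[p]) ^ phiA p a i) * Gm i k *
          Polynomial.C ((p : ℚ_[p]) ^ psiA p a k * (H k j : ℚ_[p])) := by
  obtain ⟨H, hH⟩ := exists_familyA (B := Polynomial ℚ_[p]) (p := p) (a := a) frob_padic
  refine ⟨H, fun g h00 h10 h11 n0 J => ?_⟩
  obtain ⟨gg, hgg1, hgg2⟩ := hH (ySer g) (ySer_memA a h00 h10 h11) (ySer_coeff_zero h11)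
  choose r hr1 hr2 using fun (k i : ℕ) =>
    (DA (RInt p) p a).mul_mem (FSerA_mem a n0 J h10 h11) (hgg1 k) i
  refine ⟨fun i k => r k i, fun i k => GB_of_mem_RInt (hr1 k i), fun i j => ?_⟩
  have h1 : ySer g ^ j = ∑ k ∈ range (j + 1), PowerSeries.C (Polynomial.C (H k j : ℚ_[p])) *
      (PowerSeries.C (Polynomial.C ((p : ℚ_[p]) ^ psiA p a k)) * gg k) := by
    rw [hgg2 j]
    refine Finset.sum_congr rfl fun k _ => ?_
    simp [psiA, vf]
  rw [famSA_eq a n0 J h11, h1, Finset.mul_sum, map_sum]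
  refine Finset.sum_congr rfl fun k _ => ?_
  have h3 : FSerA a n0 J g * (PowerSeries.C (Polynomial.C (H k j : ℚ_[p])) *
      (PowerSeries.C (Polynomial.C ((p : ℚ_[p]) ^ psiA p a k)) * gg k))
      = PowerSeries.C (Polynomial.C (H k j : ℚ_[p]) * Polynomial.C ((p : ℚ_[p]) ^ psiA p a k)) *
        (FSerA a n0 J g * gg k) := by
    rw [map_mul]; ring
  have h8 : ((p : ℕ) : Polynomial ℚ_[p]) ^ phA p a i
      = Polynomial.C ((p : ℚ_[p]) ^ phiA p a i) := by simp [phA, phiA, vf]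
  rw [h3, PowerSeries.coeff_C_mul, hr2 k i, Polynomial.C_mul (a := (p : ℚ_[p]) ^ psiA p a k), h8]
  ring

/-- The factorisation in the form used by the family file. -/
theorem famFacA (p : ℕ) [hp : Fact p.Prime] (a : ℕ) : FamFacA p a := by
  obtain ⟨H, hH⟩ := fam_facA p a
  exact ⟨H, fun n0 J g h00 h10 h11 => hH g h00 h10 h11 n0 J⟩

end Gouvea
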