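import Pool.Agent.Work.MP_d3517d_nt.A.Fam
import Pool.Agent.Work.MP_d3517d_nt.A.FamFac

/-! M9b, general step: `exists_famA`. -/

noncomputable section

namespace Gouvea

variable {p : ℕ} [hp : Fact p.Prime] {a h : ℕ} {E V : Type} [Fintype E] [Fintype V]
  [DecidableEq E] [DecidableEq V]

/-- M9b: the weight family of a datum, step `(p - 1) p ^ a`. -/
theorem exists_famA (D : Dat p h E V) (n0 L J : ℕ) (h0 : Even n0) (h2 : p = 2 → 1 ≤ a) :
    ∃ F : WFamA p a h n0 L J E, CompatA F D.toGam :=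
  exists_fam_ofA (famFacA p a) D h2 h0 L J

end Gouvea
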