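import Pool.Agent.Work.MP_d3517d_nt.A.MainBadDef
import Pool.Agent.Work.MP_d3517d_nt.Exc

/-!
# Few exceptional weights (MP_d3517d_nt), all primes, from the main proposition
-/

open Polynomial Finset

noncomputable section

namespace Gouvea

variable {p : ℕ} [Fact p.Prime]

theorem few_le_vd_of_dvdA {a b j : ℕ} (hab : a ≠ b) (h : (p : ℤ) ^ j ∣ (a : ℤ) - b) :
    j ≤ vd p a b := by
  have h1 : (a : ℤ) - b ≠ 0 := by
    intro h0
    exact hab (by omega)
  unfold vd
  exact (padicValInt_dvd_iff j _).1 h |>.resolve_left h1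

/-- Outside few weights `n`, every window of length `2 ℓ` below `n / (p + 1)` contains an `M`
such that the coefficient `c_r`, `r = q M - u M`, has small valuation in weight `n`. -/
theorem few_windowsA {α : ℕ} (hst : Even (stp p α)) {h V0 : ℕ}
    (hmain : MainBadStatA p α h V0)
    {E : Type} [Fintype E] [DecidableEq E] (hE : Fintype.card E = (p + 1) * h)
    {T V ℓ L J : ℕ} (hV : V0 ≤ V) (hT1 : 2 * (p + 1) * T < p ^ V)
    (hT2 : p ^ V ≤ 2 * (p + 1) * p ^ 2 * T) (hL : 2 * (p + 1) * T < L)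
    (hJ : 2 * (p + 1) * T < J) (hℓ : stp p α * p ^ (Nat.clog p (V ^ 6) + 1) ≤ ℓ)
    (F : ∀ n0, WFamA p α h n0 L J E) (u : ℕ → ℕ) (hu : ∀ M, u M ≤ (p + 1) * h)
    (hsp : ∀ M, Even (M - 1) → 1 ≤ M → M ≤ T → T ≤ V * M →
      (p : ℝ) ^ (-((((M - 1) / 2 : ℕ) : ℤ) * ((p + 1) * h : ℕ) * M + h * M - u M * M)) ≤
        ‖(cr (F ((M - 1) % stp p α)).U ((p + 1) * h * M - u M)).eval
          (((M - 1) / stp p α : ℕ) : ℚ_[p])‖) :
    ∃ Ex : Finset ℕ,
      Ex.card * ℓ ≤ 6 * T * V ^ 4 * (stp p α * p ^ (Nat.clog p (V ^ 6) + 1)) ∧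
      ∀ n, Even n → n ≤ 2 * T → n ∉ Ex → ∀ a, 1 ≤ a → T ≤ V * a →
        (p + 1) * (a + 2 * ℓ) ≤ n →
        ∃ M, a ≤ M ∧ M < a + 2 * ℓ ∧ M ≡ n + 1 [MOD stp p α * p ^ (Nat.clog p (V ^ 6) + 1)] ∧
          (p : ℝ) ^ (-((((p + 1) * h * M - u M : ℕ) : ℝ) ^ 2 / (2 * ((p + 1) * h)) +
            30 * p ^ (α + 2) * h * T * V) + 1) <
          ‖(cr (F (n % stp p α)).U ((p + 1) * h * M - u M)).eval
            ((n / stp p α : ℕ) : ℚ_[p])‖ := by
  classical
  set j1 := Nat.clog p (V ^ 6) with hj1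
  set P := stp p α * p ^ (j1 + 1) with hPdef
  have hp2 : 2 ≤ p := (Fact.out : p.Prime).two_le
  have hpp : 0 < p := by omega
  have hst0 : 0 < stp p α := Nat.mul_pos (by omega) (pow_pos hpp _)
  have hP : 0 < P := Nat.mul_pos hst0 (pow_pos hpp _)
  have hℓ0 : 0 < ℓ := lt_of_lt_of_le hP hℓ
  have hp1 : Even (stp p α) := hst
  -- bad pairs
  let bad : ℕ → ℕ → Prop := fun M n => 1 ≤ M ∧ T ≤ V * M ∧ (p + 1) * M ≤ n ∧ n ≤ 2 * T ∧
    Even n ∧
    ‖(cr (F (n % stp p α)).U ((p + 1) * h * M - u M)).eval ((n / stp p α : ℕ) : ℚ_[p])‖ ≤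
      (p : ℝ) ^ (-((((p + 1) * h * M - u M : ℕ) : ℝ) ^ 2 / (2 * ((p + 1) * h)) +
            30 * p ^ (α + 2) * h * T * V) + 1)
  have hbad : ∀ M, ∀ S : Finset ℕ, (∀ n ∈ S, M ≡ n + 1 [MOD P] ∧ bad M n) →
      S.card < 3 * V ^ 4 ∨ S.card = 0 := by
    intro M S hS
    rcases S.eq_empty_or_nonempty with rfl | ⟨n1, hn1⟩
    · right; simp
    left
    obtain ⟨hc1, hM1, hTM, hn1l, hn1u, hn1e, _⟩ := hS n1 hn1
    have hMT : M ≤ T := by nlinarith
    -- residues mod `p - 1`
    have hmod : ∀ n, M ≡ n + 1 [MOD P] → n % stp p α = (M - 1) % stp p α := by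
      intro n hn
      have h1 : M ≡ n + 1 [MOD stp p α] := hn.of_dvd ⟨_, hPdef⟩
      have h2 : (M - 1) + 1 ≡ n + 1 [MOD stp p α] := by rwa [Nat.sub_add_cancel hM1]
      exact (Nat.ModEq.add_right_cancel' 1 h2).symm
    have hMe : Even (M - 1) := by
      have h1 := hmod n1 hc1
      have h2 : Even (n1 % stp p α) := (hp1.mod_even_iff).2 hn1e
      rw [h1] at h2
      exact (hp1.mod_even_iff).1 h2
    have hur : (p + 1) * h * M - u M + u M = (p + 1) * h * M := by
      refine Nat.sub_add_cancel ((hu M).trans ?_)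
      exact Nat.le_mul_of_pos_right _ hM1
    have hκ : (M - 1) % stp p α + stp p α * ((M - 1) / stp p α) + 1 = M := by
      rw [Nat.mod_add_div]; omega
    have key := hmain E inferInstance inferInstance ((M - 1) % stp p α) L J
      (F ((M - 1) % stp p α)) T V M (u M) ((p + 1) * h * M - u M) ((M - 1) / stp p α) hE hV hT1
      hT2 hMT hTM (hu M) hur hκ hMe hL hJ (hsp M hMe hM1 hMT hTM)
      (S.image fun n => n / stp p α) ?_
    · rwa [card_image_of_injOn] at key
      intro n hn n' hn' hnn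
      have h1 := hmod n (hS n hn).1
      have h2 := hmod n' (hS n' hn').1
      have h3 := Nat.mod_add_div n (stp p α)
      have h4 := Nat.mod_add_div n' (stp p α)
      have h5 : n / stp p α = n' / stp p α := hnn
      rw [h1, h5] at h3
      rw [h2] at h4
      omega
    · intro s hs
      obtain ⟨n, hn, rfl⟩ := mem_image.1 hs
      obtain ⟨hc, _, _, hnl, hnu, _, hnorm⟩ := hS n hn
      have h1 := hmod n hc
      have h3 : (M - 1) % stp p α + stp p α * (n / stp p α) = n := by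
        rw [← h1]; exact Nat.mod_add_div n (stp p α)
      refine ⟨by rw [h3]; exact hnl, by rw [h3]; exact hnu, ?_, ?_⟩
      · have hMn : M - 1 < n := by
          have : M ≤ (p + 1) * M := Nat.le_mul_of_pos_left M (by omega)
          omega
        refine few_le_vd_of_dvdA ?_ ?_
        · intro h0
          rw [h0, h3] at hκ
          omega
        · have h4 : (P : ℤ) ∣ ((n : ℤ) + 1) - M := by
            have := (Nat.modEq_iff_dvd (n := P) (a := M) (b := n + 1)).1 hc
            simpa using this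
          have h5 : ((n : ℤ) + 1) - M =
              ((stp p α : ℕ) : ℤ) * (((n / stp p α : ℕ) : ℤ) - (((M - 1) / stp p α : ℕ) : ℤ)) := by
            have h6 : (((M - 1) % stp p α : ℕ) : ℤ) +
                ((stp p α : ℕ) : ℤ) * ((n / stp p α : ℕ) : ℤ) = n := by exact_mod_cast h3
            have h7 : (((M - 1) % stp p α : ℕ) : ℤ) +
                ((stp p α : ℕ) : ℤ) * (((M - 1) / stp p α : ℕ) : ℤ) + 1 = M := by
              exact_mod_cast hκ
            linear_combination h7 - h6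
          rw [h5, hPdef, Nat.cast_mul] at h4
          have h8 : ((stp p α : ℕ) : ℤ) ≠ 0 := by
            have : stp p α ≠ 0 := hst0.ne'
            exact_mod_cast this
          have h9 := Int.dvd_of_mul_dvd_mul_left h8 h4
          rw [← neg_sub, dvd_neg]
          simpa using h9
      · rw [← h1]; exact hnorm
  -- the exceptional sets
  let Exj : ℕ → Finset ℕ := fun j => (range (2 * T + 1)).filter fun n => 1 ≤ j * ℓ ∧
    T ≤ V * (j * ℓ) ∧ (p + 1) * ((j + 1) * ℓ) ≤ n ∧ Even n ∧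
    ∀ M ∈ Ico (j * ℓ) (j * ℓ + ℓ), M ≡ n + 1 [MOD P] → bad M n
  have hExj : ∀ j, (Exj j).card ≤ 2 * P * (3 * V ^ 4) := by
    intro j
    rcases Nat.eq_zero_or_pos V with hV0 | hVpos
    · -- `V = 0`: then `T = 0` and nothing is exceptional
      have hempty : Exj j = ∅ := by
        rw [Finset.eq_empty_iff_forall_notMem]
        intro n hn
        obtain ⟨hnr, h1, h2, h3, _⟩ := mem_filter.1 hn
        rw [mem_range] at hnr
        rw [hV0, zero_mul] at h2
        have h4 : 1 ≤ (j + 1) * ℓ := by nlinarith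
        nlinarith
      rw [hempty]; simp
    · refine exc_card hP (j * ℓ) ℓ (3 * V ^ 4) hℓ bad ?_ (Exj j) ?_
      · intro M _ S hS
        rcases hbad M S hS with h1 | h1
        · exact h1
        · rw [h1]; positivity
      · intro n hn M hM hc
        exact (mem_filter.1 hn).2.2.2.2.2 M hM hc
  refine ⟨(range (T / ℓ)).biUnion Exj, ?_, ?_⟩
  · calc ((range (T / ℓ)).biUnion Exj).card * ℓ ≤ (T / ℓ * (2 * P * (3 * V ^ 4))) * ℓ := by
          refine Nat.mul_le_mul_right _ (card_biUnion_le.trans ?_)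
          calc ∑ j ∈ range (T / ℓ), (Exj j).card ≤ ∑ _j ∈ range (T / ℓ), 2 * P * (3 * V ^ 4) :=
                sum_le_sum fun j _ => hExj j
            _ = T / ℓ * (2 * P * (3 * V ^ 4)) := by rw [sum_const, card_range, smul_eq_mul]
      _ = (T / ℓ * ℓ) * (2 * P * (3 * V ^ 4)) := by ring
      _ ≤ T * (2 * P * (3 * V ^ 4)) := Nat.mul_le_mul_right _ (Nat.div_mul_le_self _ _)
      _ = 6 * T * V ^ 4 * P := by ring
  · intro n hne hnT hnEx a ha hTa hna
    by_contra hcon
    push Not at hcon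
    refine hnEx (mem_biUnion.2 ⟨(a + ℓ - 1) / ℓ, ?_, ?_⟩)
    · -- `j < T / ℓ`
      have h1 := Nat.div_mul_le_self (a + ℓ - 1) ℓ
      have h2 : 3 * (a + 2 * ℓ) ≤ 2 * T :=
        (Nat.mul_le_mul_right _ (by omega)).trans (hna.trans hnT)
      rw [mem_range, Nat.lt_div_iff_mul_lt hℓ0]
      omega
    · set j := (a + ℓ - 1) / ℓ with hj
      have h1 : j * ℓ ≤ a + ℓ - 1 := Nat.div_mul_le_self (a + ℓ - 1) ℓ
      have h2 : a ≤ j * ℓ := by
        have h3 := Nat.div_add_mod (a + ℓ - 1) ℓ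
        have h4 := Nat.mod_lt (a + ℓ - 1) hℓ0
        rw [← hj] at h3
        have h5 : ℓ * j = j * ℓ := mul_comm _ _
        omega
      have h3 : (j + 1) * ℓ = j * ℓ + ℓ := by ring
      refine mem_filter.2 ⟨mem_range.2 (by omega), by omega, ?_, ?_, hne, ?_⟩
      · exact hTa.trans (Nat.mul_le_mul_left _ h2)
      · refine le_trans (Nat.mul_le_mul_left _ ?_) hna
        omega
      · intro M hM hc
        rw [mem_Ico] at hM
        have hMl : M < a + 2 * ℓ := by omega
        refine ⟨by omega, hTa.trans (Nat.mul_le_mul_left _ (by omega)), ?_, hnT, hne, ?_⟩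
        · exact (Nat.mul_le_mul_left _ hMl.le).trans hna
        · exact hcon M (by omega) hMl hc

end Gouvea
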