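import Pool.Agent.Work.MP_d3517d_nt.GaussM
import Pool.Agent.Work.MP_d3517d_nt.A.Basic

/-!
# MP_d3517d_nt, all primes: the bridge between the family and the Newton function
-/

set_option autoImplicit false

open Polynomial Finset

noncomputable section

namespace Gouvea

open Pool.Agent.Gouv

variable {p : ℕ} [Fact p.Prime] {h : ℕ} {E V : Type} [Fintype E] [DecidableEq E] [Fintype V]
  [DecidableEq V]

/-- At an integer weight the Newton function of the family is the classical one up to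
`n + 1`. -/
theorem FF_familyA {a n0 L J : ℕ} (F : WFamA p a h n0 L J E) {D : Gam p E} (hF : CompatA F D) {κ : ℕ}
    (hJ : n0 + stp p a * κ < J) (hL : n0 + stp p a * κ < L) {x : ℝ}
    (hx : x ≤ ((n0 + stp p a * κ : ℕ) : ℝ) + 1) :
    FF (p : ℝ) (F.U.map fun f => f.eval (κ : ℚ_[p])).charpolyRev x =
      FF (p : ℝ) (toQ (Um D (n0 + stp p a * κ))).charpolyRev x := by
  set n := n0 + stp p a * κ with hndef
  set Mk : Matrix (E × Fin L) (E × Fin L) ℚ_[p] := F.U.map fun f => f.eval (κ : ℚ_[p]) with hMk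
  set Q : Matrix (E × Fin (L - (n + 1))) (E × Fin (L - (n + 1))) ℚ_[p] :=
    Mk.submatrix (fun x => splitE E hL (Sum.inr x)) (fun x => splitE E hL (Sum.inr x)) with hQ
  set B : Matrix (E × Fin (n + 1)) (E × Fin (L - (n + 1))) ℚ_[p] :=
    Mk.submatrix (fun x => splitE E hL (Sum.inl x)) (fun x => splitE E hL (Sum.inr x)) with hB
  have hblocks : Mk.submatrix (splitE E hL) (splitE E hL) =
      Matrix.fromBlocks (toQ (Um D n)) B 0 Q := by
    ext x y
    rcases x with x | x <;> rcases y with y | y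
    · have h1 := hF.blk κ hJ hL (splitE E hL (Sum.inl x)) (splitE E hL (Sum.inl y))
        (by rw [(splitE_inl hL x).2]; exact x.2.2) (by rw [(splitE_inl hL y).2]; exact y.2.2)
      exact h1
    · rfl
    · have h1 := hF.zero κ hJ hL (splitE E hL (Sum.inr x)) (splitE E hL (Sum.inl y))
        (splitE_inr hL x) (by rw [(splitE_inl hL y).2]; exact Nat.lt_succ_iff.1 y.2.2)
      exact h1
    · rfl
  have hrev : Mk.charpolyRev = (toQ (Um D n)).charpolyRev * Q.charpolyRev := by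
    ext r
    rw [bridge_coeff, ← esum_submatrix_equiv (splitE E hL) Mk, hblocks, esum_fromBlocks, coeff_mul,
      mul_sum]
    refine sum_congr rfl fun y hy => ?_
    rw [HasAntidiagonal.mem_antidiagonal] at hy
    rw [bridge_coeff, bridge_coeff, ← hy, pow_add]
    ring
  rw [hrev, FF_mul one_lt_pI isNonarch_Qp (bridge_rev_ne_zero _) (bridge_rev_ne_zero _),
    FF_small Q n ?_ hx, add_zero]
  intro i j
  have h1 := hF.low κ hJ hL (splitE E hL (Sum.inr i)) (splitE E hL (Sum.inr j)) (splitE_inr hL i)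
  refine (show ‖Q i j‖ ≤ _ from h1).trans ?_
  refine zpow_le_zpow_right₀ one_lt_pI.le ?_
  have h2 := splitE_inr hL i
  push_cast
  omega

/-- `r x - v(c_r(κ)) ≤ Gf T x` for `x ≤ n / 2`. -/
theorem le_Gf_of_crA {a n0 L J : ℕ} (F : WFamA p a h n0 L J E) (D : Dat p h E V)
    (hF : CompatA F D.toGam) {κ : ℕ} (hJ : n0 + stp p a * κ < J) (hL : n0 + stp p a * κ < L)
    (hn : Even (n0 + stp p a * κ)) {x : ℝ} (hx : x ≤ ((n0 + stp p a * κ : ℕ) : ℝ) / 2)
    {r : ℕ} {Λ : ℝ} (hr : (p : ℝ) ^ (-Λ) ≤ ‖(cr F.U r).eval (κ : ℚ_[p])‖) :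
    r * x - Λ ≤ Gf (toQ (D.π (n0 + stp p a * κ) * D.W (n0 + stp p a * κ) *
      D.ι (n0 + stp p a * κ))) x := by
  have hp1 := one_lt_pI (p := p)
  have hp0 : (0 : ℝ) < p := by linarith
  have hpos : 0 < ‖(cr F.U r).eval (κ : ℚ_[p])‖ := lt_of_lt_of_le (Real.rpow_pos_of_pos hp0 _) hr
  have hn0 : (0 : ℝ) ≤ ((n0 + stp p a * κ : ℕ) : ℝ) := Nat.cast_nonneg _
  have h1 := FF_familyA F hF hJ hL (x := x) (by linarith)
  rw [FF_total D hn hx] at h1
  have h2 : (F.U.map fun f => f.eval (κ : ℚ_[p])).charpolyRev.coeff r =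
      (-1) ^ r * (cr F.U r).eval (κ : ℚ_[p]) := by rw [bridge_coeff, eval_cr]
  have h3 : ‖(F.U.map fun f => f.eval (κ : ℚ_[p])).charpolyRev.coeff r‖ =
      ‖(cr F.U r).eval (κ : ℚ_[p])‖ := by
    rw [h2, norm_mul, norm_pow, norm_neg, norm_one, one_pow, one_mul]
  have h4 := FF_le hp1 (P := (F.U.map fun f => f.eval (κ : ℚ_[p])).charpolyRev) (r := r)
    (norm_pos_iff.1 (by rw [h3]; exact hpos)) x
  rw [h1, vv, h3] at h4
  have h5 := Real.logb_le_logb_of_le hp1 (Real.rpow_pos_of_pos hp0 _) hr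
  rw [Real.logb_rpow hp0 hp1.ne'] at h5
  linarith

theorem Gf_famA {a n0 L J : ℕ} (F : WFamA p a h n0 L J E) (D : Gam p E) (hc : CompatA F D) (κ : ℕ)
    (hJ : n0 + stp p a * κ < J) (hL : n0 + stp p a * κ < L) (r : ℕ) (x : ℝ)
    (hx : x ≤ (n0 + stp p a * κ : ℕ) + 1) :
    ‖(cr F.U r).eval (κ : ℚ_[p])‖ ≤
      (p : ℝ) ^ (Gf (toQ (Um D (n0 + stp p a * κ))) x - r * x) := by
  have h1 := le_Gf (F.U.map fun f => f.eval (κ : ℚ_[p])) r x
  have h2 := FF_familyA F hc hJ hL hx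
  rw [Gf_eq, Gf_eq, neg_inj] at h2
  rwa [h2, cr_eq_esum, ← eval_cr] at h1

end Gouvea
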