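import Pool.Agent.Work.MP_d3517d_nt.GhostA

/-!
# Gouvêa slope distribution (MP_d3517d_nt), M6: ghost sums for weights in a class modulo
`(p - 1) p ^ a`, all primes `p`
-/

set_option autoImplicit false

open Finset

namespace Gouvea

lemma mr_far_a {p h M u t a : ℕ} (hp : 2 ≤ p) (hM : 2 ≤ M) (ht : p * M ≤ t) :
    mr p h ((p + 1) * h * M - u) (M - 1 + (p - 1) * p ^ a * t) = 0 := by
  have h1 : p * M ≤ p ^ a * t := ht.trans (Nat.le_mul_of_pos_left t (pow_pos (by omega) a))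
  rw [mul_assoc (p - 1)]
  exact mr_far hp hM h1

/-- the lower bound for the ghost sum -/
theorem ghost_lower_a {p h M u N J : ℕ} (a : ℕ) (hp : p.Prime) (hM : 2 ≤ M)
    (hu : u ≤ (p + 1) * h) (hN : p * M ≤ N) (hJ : M ≤ (p - 1) * p ^ (a + J)) :
    (h : ℤ) * (p * gX ((p - 1) * p ^ a) M - gX ((p - 1) * p ^ (a + 1)) M) -
      u * (gN ((p - 1) * p ^ a) M - gN ((p - 1) * p ^ (a + 1)) M) - 2 * u * J ≤
    ∑ t ∈ Icc 1 N, ((mr p h ((p + 1) * h * M - u) (M - 1 + (p - 1) * p ^ a * t) *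
      padicValNat p t : ℕ) : ℤ) := by
  have hp2 := hp.two_le
  have hMN : M ≤ N := (Nat.le_mul_of_pos_left M hp.pos).trans hN
  set m : ℕ → ℕ := fun t => mr p h ((p + 1) * h * M - u) (M - 1 + (p - 1) * p ^ a * t) with hm
  have hfar : ∀ t, N < t → m t = 0 := fun t ht => mr_far_a hp2 hM (hN.trans ht.le)
  -- the valuation
  have h1 : ∑ j ∈ range J, ∑ s ∈ Icc 1 N, m (p ^ (j + 1) * s) ≤
      ∑ t ∈ Icc 1 N, m t * padicValNat p t := by
    have h2 : ∀ j ∈ range J, ∑ s ∈ Icc 1 N, m (p ^ (j + 1) * s) =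
        ∑ t ∈ Icc 1 N, (if p ^ (j + 1) ∣ t then m t else 0) := fun j _ =>
      (sum_mult (pow_pos hp.pos _) m hfar).symm
    rw [sum_congr rfl h2, sum_comm]
    refine sum_le_sum fun t ht => ?_
    rw [mem_Icc] at ht
    have h3 := val_ge hp J (t := t) (by omega)
    have h4 : ∑ j ∈ range J, (if p ^ (j + 1) ∣ t then m t else 0) =
        m t * ∑ j ∈ Icc 1 J, (if p ^ j ∣ t then 1 else 0) := by
      rw [mul_sum, range_eq_Ico, sum_Ico_add' (fun j => if p ^ j ∣ t then m t else 0) 0 J 1]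
      refine sum_congr ?_ fun j _ => by split_ifs <;> simp
      ext j
      simp
    rw [h4]
    exact Nat.mul_le_mul_left _ h3
  have h5 : (∑ j ∈ range J, ∑ s ∈ Icc 1 N, (m (p ^ (j + 1) * s) : ℤ)) ≤
      ∑ t ∈ Icc 1 N, ((m t * padicValNat p t : ℕ) : ℤ) := by exact_mod_cast h1
  refine le_trans ?_ h5
  have h6 := sum_le_sum fun j (_ : j ∈ range J) => sum_j (p := p) (N := N) hp2 hM hu hMN (a + j)
  have h6' : ∀ j s, M - 1 + (p - 1) * (p ^ (a + j + 1) * s) =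
      M - 1 + (p - 1) * p ^ a * (p ^ (j + 1) * s) := fun j s => by
    rw [add_assoc a j 1, pow_add p a (j + 1)]
    ring
  simp only [h6'] at h6
  refine le_trans (le_of_eq ?_) h6
  have h7 : ∀ j, (h : ℤ) * p * gX ((p - 1) * p ^ (a + j)) M -
      (p + 1) * h * gX ((p - 1) * p ^ (a + j + 1)) M +
      h * gX ((p - 1) * p ^ (a + j + 2)) M - u * gN ((p - 1) * p ^ (a + j)) M +
      2 * u * gN ((p - 1) * p ^ (a + j + 1)) M - u * gN ((p - 1) * p ^ (a + j + 2)) M - 2 * u =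
      ((h : ℤ) * p * (gX ((p - 1) * p ^ (a + j)) M : ℤ) -
        (h * p + h) * (gX ((p - 1) * p ^ (a + (j + 1))) M : ℤ) +
        h * (gX ((p - 1) * p ^ (a + (j + 2))) M : ℤ)) -
      u * ((gN ((p - 1) * p ^ (a + j)) M : ℤ) - 2 * (gN ((p - 1) * p ^ (a + (j + 1))) M : ℤ) +
        (gN ((p - 1) * p ^ (a + (j + 2))) M : ℤ)) - 2 * u := fun j => by
    rw [add_assoc a j 1, add_assoc a j 2]
    ring
  simp only [h7]
  rw [sum_sub_distrib, sum_sub_distrib, ← mul_sum,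
    tele (fun j => (gN ((p - 1) * p ^ (a + j)) M : ℤ)) J,
    tele2 ((h : ℤ) * p) h (fun j => (gX ((p - 1) * p ^ (a + j)) M : ℤ)) J]
  have z1 : gX ((p - 1) * p ^ (a + J)) M = 0 := gX_zero hJ
  have hJ' : M ≤ (p - 1) * p ^ (a + (J + 1)) := hJ.trans (Nat.mul_le_mul_left _
    (Nat.pow_le_pow_right hp.pos (by omega)))
  have z2 : gX ((p - 1) * p ^ (a + (J + 1))) M = 0 := gX_zero hJ'
  have z3 : gN ((p - 1) * p ^ (a + J)) M = 0 := gN_zero hJ
  have z4 : gN ((p - 1) * p ^ (a + (J + 1))) M = 0 := gN_zero hJ'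
  simp only [z1, z2, z3, z4, add_zero, sum_const, card_range, nsmul_eq_mul]
  push_cast
  ring

/-- the number of terms -/
lemma gN_diff {p M : ℕ} (a : ℕ) (hp : 2 ≤ p) (hM : 1 ≤ M) :
    (gN ((p - 1) * p ^ a) M : ℤ) - gN ((p - 1) * p ^ (a + 1)) M ≤ 2 + ((M - 1) / p ^ (a + 1) : ℕ) := by
  have hc : 0 < (p - 1) * p ^ a := Nat.mul_pos (by omega) (pow_pos (by omega) a)
  have hpc : 0 < (p - 1) * p ^ (a + 1) := Nat.mul_pos (by omega) (pow_pos (by omega) _)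
  have hP : 0 < p ^ (a + 1) := pow_pos (by omega) _
  rw [gN_val hc (by omega), gN_val hpc (by omega)]
  generalize M - 1 = m
  have e1 : ((p - 1 : ℕ) : ℤ) = (p : ℤ) - 1 := by rw [Nat.cast_sub (by omega)]; simp
  set c : ℤ := ((p : ℤ) - 1) * p ^ a with hcdef
  have ec : (((p - 1) * p ^ a : ℕ) : ℤ) = c := by rw [hcdef, Nat.cast_mul, e1]; push_cast; ring
  have epc : (((p - 1) * p ^ (a + 1) : ℕ) : ℤ) = p * c := by
    rw [hcdef, Nat.cast_mul, e1]; push_cast; ring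
  have eP : (((p - 1) * p ^ (a + 1) : ℕ) : ℤ) = ((p : ℤ) - 1) * (p ^ (a + 1) : ℕ) := by
    rw [Nat.cast_mul, e1]
  have hc0 : 0 < c := by rw [← ec]; exact_mod_cast hc
  have hp0 : (0 : ℤ) < p := by exact_mod_cast (by omega : 0 < p)
  have a1 : c * (m / ((p - 1) * p ^ a) : ℕ) ≤ m := by
    rw [← ec]; exact_mod_cast Nat.mul_div_le m _
  have a2 : (m : ℤ) < p * c * ((m / ((p - 1) * p ^ (a + 1)) : ℕ) + 1) := by
    rw [← epc]
    have := Nat.lt_mul_div_succ m hpc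
    exact_mod_cast this
  have a3 : (m : ℤ) < (p ^ (a + 1) : ℕ) * ((m / p ^ (a + 1) : ℕ) + 1) := by
    have := Nat.lt_mul_div_succ m hP
    exact_mod_cast this
  generalize ((m / ((p - 1) * p ^ a) : ℕ) : ℤ) = x at *
  generalize ((m / ((p - 1) * p ^ (a + 1)) : ℕ) : ℤ) = y at *
  generalize ((m / p ^ (a + 1) : ℕ) : ℤ) = z at *
  have hp1 : (0 : ℤ) ≤ (p : ℤ) - 1 := by linarith
  by_contra hcon
  push Not at hcon
  have h3 : 2 + z + 1 ≤ x - y := hcon
  have h4 : p * c * (2 + z + 1) ≤ p * c * (x - y) :=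
    mul_le_mul_of_nonneg_left h3 (by positivity)
  have h5 : p * c * x ≤ p * m := by
    have := mul_le_mul_of_nonneg_left a1 hp0.le
    linarith
  -- `(p - 1) m < p c (z + 1)`
  have h6 : ((p : ℤ) - 1) * m ≤ p * c * (z + 1) := by
    have h7 := mul_le_mul_of_nonneg_left a3.le hp1
    have h8 : ((p : ℤ) - 1) * ((p ^ (a + 1) : ℕ) * (z + 1)) = p * c * (z + 1) := by
      rw [← mul_assoc, ← eP, epc]
    linarith
  have h9 : 0 < p * c := by positivity
  nlinarith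

/-- Lemma 3.2: comparison of the special value with the ghost bound
(`q = (p+1) h`, `r = q M - u`). -/
theorem ghost_special_a {p h M u N J : ℕ} (a : ℕ) (hp : p.Prime) (hM : 2 ≤ M)
    (hu : u ≤ (p + 1) * h) (hN : p * M ≤ N) (hJ : M ≤ (p - 1) * p ^ (a + J)) :
    4 * ((h : ℤ) * M + (p + 1) * h * (∑ i ∈ range M, i / p ^ (a + 1) : ℕ)) -
      4 * u * (1 + ((M - 1) / p ^ (a + 1) : ℕ)) ≤
    4 * ∑ t ∈ Icc 1 N, ((mr p h ((p + 1) * h * M - u) (M - 1 + (p - 1) * p ^ a * t) *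
      padicValNat p t : ℕ) : ℤ) + h * p ^ (a + 2) + 4 * u + 8 * u * J := by
  have h1 := ghost_lower_a a hp hM hu hN hJ
  have hp2 := hp.two_le
  have hc : 0 < (p - 1) * p ^ a := Nat.mul_pos (by omega) (pow_pos (by omega) a)
  have hpc : 0 < (p - 1) * p ^ (a + 1) := Nat.mul_pos (by omega) (pow_pos (by omega) _)
  have hP : 0 < p ^ (a + 1) := pow_pos (by omega) _
  have e1 : ((p - 1 : ℕ) : ℤ) = (p : ℤ) - 1 := by rw [Nat.cast_sub (by omega)]; simp
  set A : ℤ := (p : ℤ) ^ a with hA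
  have hA0 : 0 < A := by rw [hA]; positivity
  have ec : (((p - 1) * p ^ a : ℕ) : ℤ) = ((p : ℤ) - 1) * A := by
    rw [hA, Nat.cast_mul, e1]; push_cast; ring
  have epc : (((p - 1) * p ^ (a + 1) : ℕ) : ℤ) = ((p : ℤ) - 1) * (p * A) := by
    rw [hA, Nat.cast_mul, e1]; push_cast; ring
  have eP : ((p ^ (a + 1) : ℕ) : ℤ) = p * A := by rw [hA]; push_cast; ring
  have b1 := gX_ge hc M
  have b2 := gX_le hpc M
  have b3 := gX_le hP M
  rw [ec] at b1
  rw [epc] at b2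
  rw [eP] at b3
  have hsum : ((∑ i ∈ range M, i / p ^ (a + 1) : ℕ) : ℤ) = gX (p ^ (a + 1)) M := by
    rw [sum_div_eq hP]
  have n1 := gN_diff (p := p) (M := M) a hp2 (by omega)
  have hh : (0 : ℤ) ≤ h := by positivity
  have hu0 : (0 : ℤ) ≤ u := by positivity
  have hp2' : (2 : ℤ) ≤ p := by exact_mod_cast hp2
  have e5 : ((p : ℤ)) ^ (a + 2) = p ^ 2 * A := by rw [hA]; ring
  -- the quadratic part
  have q1 : 4 * ((M : ℤ) + (p + 1) * gX (p ^ (a + 1)) M) ≤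
      4 * (p * gX ((p - 1) * p ^ a) M - gX ((p - 1) * p ^ (a + 1)) M) + p ^ 2 * A := by
    have hPP : (0 : ℤ) < 2 * (((p : ℤ) - 1) * p * A) := by
      have : (0 : ℤ) < (p : ℤ) - 1 := by linarith
      positivity
    refine le_of_mul_le_mul_left ?_ hPP
    generalize (gX (p ^ (a + 1)) M : ℤ) = G0 at *
    generalize (gX ((p - 1) * p ^ a) M : ℤ) = G1 at *
    generalize (gX ((p - 1) * p ^ (a + 1)) M : ℤ) = G2 at *
    have hp1 : (0 : ℤ) ≤ (p : ℤ) - 1 := by linarith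
    have d1 := mul_le_mul_of_nonneg_left b3 (by positivity : (0 : ℤ) ≤ ((p : ℤ) - 1) * (p + 1))
    have d2 := mul_le_mul_of_nonneg_left b1 (by positivity : (0 : ℤ) ≤ 4 * p ^ 2)
    nlinarith
  have q2 := mul_le_mul_of_nonneg_left q1 hh
  have q3 := mul_le_mul_of_nonneg_left n1 hu0
  rw [hsum, e5]
  nlinarith

end Gouvea
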