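import Pool.Agent.Work.MP_d3517d_nt.Ghost
import Pool.Agent.Work.MP_d3517d_nt.A.GhostB
import Pool.Agent.Work.MP_d3517d_nt.A.Basic

/-!
# Gouvêa slope distribution (MP_d3517d_nt), M6, all primes: ghost sums for the step `(p-1) p^a`
-/

set_option autoImplicit false

open Polynomial Finset

noncomputable section

namespace Gouvea

lemma stp_pos_gh {p : ℕ} (hp : p.Prime) (a : ℕ) : 0 < stp p a :=
  Nat.mul_pos (by have := hp.two_le; omega) (pow_pos hp.pos a)

lemma stp_cast {p : ℕ} (hp : p.Prime) (a : ℕ) : (stp p a : ℝ) = ((p : ℝ) - 1) * (p : ℝ) ^ a := by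
  have := hp.two_le
  unfold stp
  rw [Nat.cast_mul, Nat.cast_sub (by omega)]
  push_cast
  ring

lemma stp_modEq {p a n0 x y m : ℕ} (h : x ≡ y [MOD m]) :
    (n0 + stp p a * x) % (stp p a * m) = (n0 + stp p a * y) % (stp p a * m) :=
  (Nat.ModEq.mul_left' (stp p a) h).add_left n0

/-- interval bound for the valuation weights, as a function of the weight `n = n0 + d κ` -/
theorem IB_valA {p : ℕ} [Fact p.Prime] (a : ℕ) {n0 s V : ℕ} (N : Finset ℕ)
    (hN : ∀ κ ∈ N, κ ≠ s ∧ κ < p ^ (V + 1) ∧ s < p ^ (V + 1)) :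
    IBA p a (fun n => ∑ κ ∈ N, if n0 + stp p a * κ = n then (vd p s κ : ℝ) else 0) V := by
  have hpp : p.Prime := Fact.out
  have hp2 := hpp.two_le
  have hp1 : (1 : ℝ) < p := by exact_mod_cast (by omega : 1 < p)
  have hd := stp_pos_gh hpp a
  have hdc := stp_cast hpp a
  have hdR : (0 : ℝ) < stp p a := by exact_mod_cast hd
  refine ⟨fun n => ?_, fun x y hxy => ?_⟩
  · show 0 ≤ ∑ κ ∈ N, if n0 + stp p a * κ = n then (vd p s κ : ℝ) else 0
    exact sum_nonneg fun κ _ => by split_ifs <;> positivity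
  · have h0 : ∑ n ∈ Ico x y, (∑ κ ∈ N, if n0 + stp p a * κ = n then (vd p s κ : ℝ) else 0) =
        ∑ κ ∈ N.filter (fun κ => n0 + stp p a * κ ∈ Ico x y), (vd p s κ : ℝ) := by
      rw [sum_comm, sum_filter]
      refine sum_congr rfl fun κ _ => ?_
      rw [sum_ite_eq]
    show ∑ n ∈ Ico x y, (∑ κ ∈ N, if n0 + stp p a * κ = n then (vd p s κ : ℝ) else 0) ≤ _
    rw [h0]
    set N' := N.filter (fun κ => n0 + stp p a * κ ∈ Ico x y) with hN'
    have h1 : ∀ κ ∈ N', (vd p s κ : ℝ) ≤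
        ∑ j ∈ range V, ((if κ % p ^ (j + 1) = s % p ^ (j + 1) then 1 else 0 : ℕ) : ℝ) := by
      intro κ hκ
      obtain ⟨h2, h3, h4⟩ := hN κ (mem_filter.1 hκ).1
      have h6 := vd_le hpp (J := V) h2.symm h4 h3
      exact_mod_cast h6
    refine (sum_le_sum h1).trans ?_
    rw [sum_comm]
    have h2 : ∀ j ∈ range V, (∑ κ ∈ N',
        ((if κ % p ^ (j + 1) = s % p ^ (j + 1) then 1 else 0 : ℕ) : ℝ)) ≤
        ((y : ℝ) - x) / stp p a * (1 / (p : ℝ)) ^ (j + 1) + 1 := by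
      intro j _
      have e1 : (∑ κ ∈ N', ((if κ % p ^ (j + 1) = s % p ^ (j + 1) then 1 else 0 : ℕ) : ℝ)) =
          (((N'.filter fun κ => κ % p ^ (j + 1) = s % p ^ (j + 1)).image
            (fun κ => n0 + stp p a * κ)).card : ℝ) := by
        rw [card_image_of_injective _ (fun u v huv => by
          simp only [add_right_inj] at huv
          exact Nat.eq_of_mul_eq_mul_left hd huv), card_filter, Nat.cast_sum]
      rw [e1]
      have hdj : 0 < stp p a * p ^ (j + 1) := Nat.mul_pos hd (pow_pos hpp.pos _)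
      have h3 := card_class (a := x) (b := y) ((n0 + stp p a * s) % (stp p a * p ^ (j + 1))) hdj hxy
        ((N'.filter fun κ => κ % p ^ (j + 1) = s % p ^ (j + 1)).image
            (fun κ => n0 + stp p a * κ))
        fun n hn => by
          rw [mem_image] at hn
          obtain ⟨κ, hκ, rfl⟩ := hn
          rw [mem_filter, hN', mem_filter, mem_Ico] at hκ
          exact ⟨hκ.1.2.1, hκ.1.2.2, stp_modEq hκ.2⟩
      have h4 := (Nat.cast_le (α := ℝ)).2 h3
      rw [Nat.cast_add, Nat.cast_sub hxy, Nat.cast_mul, Nat.cast_mul (stp p a), Nat.cast_pow] at h4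
      have h6 : (0 : ℝ) < stp p a * (p : ℝ) ^ (j + 1) := mul_pos hdR (by positivity)
      rw [mul_comm, ← le_div_iff₀ h6, add_div, div_self h6.ne'] at h4
      refine h4.trans (le_of_eq ?_)
      rw [one_div, inv_pow]
      field_simp
    refine (sum_le_sum h2).trans ?_
    rw [sum_add_distrib, ← mul_sum, sum_const, card_range, nsmul_eq_mul, mul_one]
    have h3 := geom_le (p := p) hp2 V
    have h4 : (0 : ℝ) ≤ ((y : ℝ) - x) / stp p a :=
      div_nonneg (sub_nonneg.2 (by exact_mod_cast hxy)) hdR.le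
    have h5 := mul_le_mul_of_nonneg_left h3 h4
    have h6 : ((y : ℝ) - x) / stp p a * (1 / (p - 1)) =
        ((y : ℝ) - x) / (((p : ℝ) - 1) ^ 2 * (p : ℝ) ^ a) := by
      rw [hdc]
      field_simp
    rw [h6] at h5
    linarith

/-- ghost weights lie strictly between `M` and `(p+1) M` -/
theorem ghost_rangeA {p : ℕ} [Fact p.Prime] {h q M u r n : ℕ} (hq : q = (p + 1) * h) (_hh : 1 ≤ h)
    (hM : p + 2 ≤ M) (hu : u ≤ q) (hr : r + u = q * M) (hn : 0 < mr p h r n) :
    M ≤ n ∧ n + 1 < (p + 1) * M := by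
  unfold mr at hn
  rw [lt_min_iff] at hn
  obtain ⟨h1, h2⟩ := hn
  have h3 : h * (n + 1) < r := Nat.lt_of_sub_pos h1
  have h4 : r < p * h * (n + 1) := Nat.lt_of_sub_pos h2
  subst hq
  constructor
  · by_contra hcon
    push Not at hcon
    have h5 : p * h * (n + 1) ≤ p * h * M := Nat.mul_le_mul_left _ hcon
    have h6 : (p + 1) * h * M = p * h * M + h * M := by ring
    have h7 : (p + 1) * h ≤ h * M := by
      rw [mul_comm]
      exact Nat.mul_le_mul_left h (by omega)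
    omega
  · have h5 : h * (n + 1) < h * ((p + 1) * M) := by
      have h6 : (p + 1) * h * M = h * ((p + 1) * M) := by ring
      omega
    exact lt_of_mul_lt_mul_left h5 (Nat.zero_le h)

lemma phi_add_psiA' {p : ℕ} [Fact p.Prime] (a i : ℕ) :
    phiA p a i + psiA p a i + i / p ^ (a + 1) = i := by
  unfold phiA psiA
  have h1 := phi_add_psi' (p := p) (i / p ^ a)
  unfold phi psi at h1
  have h3 : i / p ^ a / p = i / p ^ (a + 1) := by
    rw [Nat.div_div_eq_div_mul, pow_succ]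
  rw [h3] at h1
  have h4 : i / p ^ a ≤ i := Nat.div_le_self _ _
  have h5 : padicValNat p (i / p ^ a).factorial ≤ i / p ^ a := by
    have := sub_one_mul_padicValNat_factorial (p := p) (i / p ^ a)
    have hp : 2 ≤ p := (Fact.out : p.Prime).two_le
    have h3 : padicValNat p (i / p ^ a).factorial ≤
        (p - 1) * padicValNat p (i / p ^ a).factorial :=
      Nat.le_mul_of_pos_left _ (by omega)
    have h6 := Nat.sub_le (i / p ^ a) (Nat.digits p (i / p ^ a)).sum
    rw [← this] at h6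
    exact h3.trans h6
  generalize padicValNat p (i / p ^ a).factorial = x at *
  generalize padicValNat p (i / p ^ (a + 1)).factorial = y at *
  generalize i / p ^ (a + 1) = z at *
  generalize i / p ^ a = w at *
  omega

lemma lam0A_eq {p : ℕ} [Fact p.Prime] (a q M u : ℕ) :
    2 * Lam0A p a q M u = (q : ℤ) * ((M : ℤ) * (M - 1)) -
      2 * q * (∑ i ∈ range M, i / p ^ (a + 1) : ℕ) -
      2 * u * (((M - 1 : ℕ) : ℤ) - ((M - 1) / p ^ (a + 1) : ℕ)) := by
  have h1 : ∀ i, (phiA p a i : ℤ) + psiA p a i = i - (i / p ^ (a + 1) : ℕ) := fun i => by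
    have := phi_add_psiA' (p := p) a i
    omega
  unfold Lam0A
  simp only [h1]
  rw [sum_sub_distrib]
  have h2 : 2 * ∑ i ∈ range M, (i : ℤ) = (M : ℤ) * (M - 1) := by
    induction M with
    | zero => simp
    | succ M ih =>
      rw [sum_range_succ, mul_add, ih]
      push_cast
      ring
  rw [Nat.cast_sum]
  linear_combination (q : ℤ) * h2

/-- Lemma 3.2 (the weight `M - 1` is even). -/
theorem ghost_specialA {p : ℕ} [Fact p.Prime] (a : ℕ) {h q n0 M u r V κ0 : ℕ}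
    (hq : q = (p + 1) * h) (hh : 1 ≤ h) (hM : p + 2 ≤ M) (hev : Even (M - 1)) (hu : u ≤ q)
    (hr : r + u = q * M) (hκ0 : n0 + stp p a * κ0 + 1 = M)
    (hV : (p + 1) * M < p ^ (V + 1)) (Gh : Finset ℕ)
    (hGh : ∀ κ, 0 < mr p h r (n0 + stp p a * κ) → κ ∈ Gh) :
    (((M - 1) / 2 : ℕ) : ℤ) * q * M + h * M - u * M ≤
      Lam0A p a q M u + ∑ κ ∈ Gh, (mr p h r (n0 + stp p a * κ) : ℤ) * vd p κ0 κ +
      20 * p ^ (a + 2) * q * V := by
  have hpp : p.Prime := Fact.out
  have hp2 := hpp.two_le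
  subst hq
  have hr' : r = (p + 1) * h * M - u := by omega
  have hJ : M ≤ (p - 1) * p ^ (a + V) := by
    have h1 : p * M < p * p ^ V := by
      calc p * M ≤ (p + 1) * M := Nat.mul_le_mul_right M (by omega)
        _ < p ^ (V + 1) := hV
        _ = p * p ^ V := by ring
    have h2 : M < p ^ V := lt_of_mul_lt_mul_left h1 (Nat.zero_le p)
    have h3 : p ^ V ≤ p ^ (a + V) := Nat.pow_le_pow_right (by omega) (by omega)
    have h4 : p ^ (a + V) ≤ (p - 1) * p ^ (a + V) := Nat.le_mul_of_pos_left _ (by omega)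
    omega
  have hV1 : 1 ≤ V := by
    by_contra hcon
    have h1 : V = 0 := by omega
    subst h1
    have : p + 1 ≤ (p + 1) * M := Nat.le_mul_of_pos_right _ (by omega)
    rw [zero_add, pow_one] at hV
    omega
  have h1 := ghost_special_a (N := p * M) (J := V) a hpp (by omega) hu le_rfl hJ
  -- the sum over `Gh`
  have h2 : ∑ t ∈ Icc 1 (p * M), mr p h ((p + 1) * h * M - u) (M - 1 + (p - 1) * p ^ a * t) *
      padicValNat p t ≤ ∑ κ ∈ Gh, mr p h r (n0 + stp p a * κ) * vd p κ0 κ := by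
    have hinj : Set.InjOn (fun t => κ0 + t) ((Icc 1 (p * M)).filter (fun t =>
        0 < mr p h ((p + 1) * h * M - u) (M - 1 + (p - 1) * p ^ a * t)) : Set ℕ) :=
      fun a _ b _ hab => Nat.add_left_cancel hab
    have h3 : ∑ t ∈ Icc 1 (p * M), mr p h ((p + 1) * h * M - u) (M - 1 + (p - 1) * p ^ a * t) *
        padicValNat p t =
        ∑ t ∈ (Icc 1 (p * M)).filter (fun t =>
          0 < mr p h ((p + 1) * h * M - u) (M - 1 + (p - 1) * p ^ a * t)),
          mr p h ((p + 1) * h * M - u) (M - 1 + (p - 1) * p ^ a * t) * padicValNat p t := by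
      rw [sum_filter]
      refine sum_congr rfl fun t _ => ?_
      split_ifs with h4
      · rfl
      · rw [Nat.eq_zero_of_not_pos h4, zero_mul]
    have h4 : ∀ t, n0 + stp p a * (κ0 + t) = M - 1 + (p - 1) * p ^ a * t := fun t => by
      rw [mul_add]
      have : stp p a * t = (p - 1) * p ^ a * t := rfl
      omega
    have h5 : ∑ t ∈ (Icc 1 (p * M)).filter (fun t =>
          0 < mr p h ((p + 1) * h * M - u) (M - 1 + (p - 1) * p ^ a * t)),
          mr p h ((p + 1) * h * M - u) (M - 1 + (p - 1) * p ^ a * t) * padicValNat p t =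
        ∑ κ ∈ ((Icc 1 (p * M)).filter (fun t =>
          0 < mr p h ((p + 1) * h * M - u) (M - 1 + (p - 1) * p ^ a * t))).image (fun t => κ0 + t),
          mr p h r (n0 + stp p a * κ) * vd p κ0 κ := by
      rw [sum_image hinj]
      refine sum_congr rfl fun t _ => ?_
      have h6 : vd p κ0 (κ0 + t) = padicValNat p t := by
        show padicValNat p ((κ0 : ℤ) - ((κ0 + t : ℕ) : ℤ)).natAbs = padicValNat p t
        congr 1
        omega
      rw [h4, h6, hr']
    rw [h3, h5]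
    refine sum_le_sum_of_subset ?_
    intro κ hκ
    rw [mem_image] at hκ
    obtain ⟨t, ht, rfl⟩ := hκ
    rw [mem_filter] at ht
    refine hGh _ ?_
    rw [h4, hr']
    exact ht.2
  have h3 : (∑ t ∈ Icc 1 (p * M), ((mr p h ((p + 1) * h * M - u) (M - 1 + (p - 1) * p ^ a * t) *
      padicValNat p t : ℕ) : ℤ)) ≤
      ∑ κ ∈ Gh, (mr p h r (n0 + stp p a * κ) : ℤ) * vd p κ0 κ := by
    have := (Nat.cast_le (α := ℤ)).2 h2
    rw [Nat.cast_sum, Nat.cast_sum] at this
    simpa only [Nat.cast_mul] using this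
  have h4 := lam0A_eq (p := p) a ((p + 1) * h) M u
  have h6 : ((M - 1 : ℕ) : ℤ) = (M : ℤ) - 1 := by rw [Nat.cast_sub (by omega)]; simp
  have h5 : (((M - 1) / 2 : ℕ) : ℤ) * 2 = (M : ℤ) - 1 := by
    rw [← h6]
    exact_mod_cast Nat.div_two_mul_two_of_even hev
  generalize (∑ i ∈ range M, i / p ^ (a + 1)) = Φ at *
  generalize (M - 1) / p ^ (a + 1) = fl at *
  rw [h6] at h4
  generalize ((((M - 1) / 2 : ℕ) : ℤ)) = Q at *
  push_cast at h4 ⊢
  generalize (∑ κ ∈ Gh, (mr p h r (n0 + stp p a * κ) : ℤ) * vd p κ0 κ) = Sg at *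
  have hu' : (u : ℤ) ≤ (p + 1) * h := by exact_mod_cast hu
  have hu0 : (0 : ℤ) ≤ u := by positivity
  have hV' : (1 : ℤ) ≤ V := by exact_mod_cast hV1
  have hP : (2 : ℤ) ≤ p := by exact_mod_cast hp2
  have hH : (1 : ℤ) ≤ h := by exact_mod_cast hh
  have hPa : (1 : ℤ) ≤ (p : ℤ) ^ (a + 2) := one_le_pow₀ (by linarith)
  generalize (p : ℤ) ^ (a + 2) = P at *
  -- error terms
  have b1 : (h : ℤ) * P + 4 * u + 8 * u * V ≤ 80 * P * ((p + 1) * h) * V := by
    have c1 : (h : ℤ) * P ≤ P * ((p + 1) * h) * V := by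
      have : (h : ℤ) * P * 1 ≤ h * P * ((p + 1) * V) := by
        refine mul_le_mul_of_nonneg_left ?_ (by positivity)
        nlinarith
      linarith
    have c2 : (u : ℤ) ≤ P * ((p + 1) * h) * V := by
      have : ((p : ℤ) + 1) * h * 1 ≤ (p + 1) * h * (P * V) := by
        refine mul_le_mul_of_nonneg_left ?_ (by positivity)
        nlinarith
      linarith
    have c3 : (u : ℤ) * V ≤ P * ((p + 1) * h) * V := by
      have d1 : (u : ℤ) * V ≤ (p + 1) * h * V := mul_le_mul_of_nonneg_right hu' (by positivity)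
      have d2 : ((p : ℤ) + 1) * h * V * 1 ≤ (p + 1) * h * V * P := by
        refine mul_le_mul_of_nonneg_left ?_ (by positivity)
        linarith
      linarith
    nlinarith
  have e2 : 4 * (Q * ((p + 1) * h) * M + h * M - u * M) =
      2 * (((p : ℤ) + 1) * h * (M * (M - 1))) + 4 * h * M - 4 * u * M := by
    rw [← h5]; ring
  refine le_of_mul_le_mul_left ?_ (by norm_num : (0 : ℤ) < 4)
  rw [e2]
  linarith

/-! ### Section 6 -/

/-- the ghost sum at any weight -/
lemma ghost_sum_leA {p : ℕ} [Fact p.Prime] (a : ℕ) {h n0 M r V s : ℕ} (hh : 1 ≤ h)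
    (hr : r ≤ (p + 1) * h * M) (Gh : Finset ℕ) (hGh : ∀ κ ∈ Gh, κ < p ^ (V + 1))
    (hs : s < p ^ (V + 1)) (hs' : s ∉ Gh) :
    ∑ κ ∈ Gh, (mr p h r (n0 + stp p a * κ) : ℝ) * vd p s κ ≤
      (∑ x ∈ Icc 1 (2 * r), ((min (r - h * x) (p * h * x - r) : ℕ) : ℝ)) /
        (((p : ℝ) - 1) ^ 2 * (p : ℝ) ^ a) + 2 * (p * h * M) * V := by
  have hpp : p.Prime := Fact.out
  have hp2 := hpp.two_le
  set f : ℕ → ℕ := fun x => min (r - h * x) (p * h * x - r) with hf
  obtain ⟨t0, ht0, hinc, hdec⟩ := min_unimodal (p := p) (r := r) hh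
  have hmax : ∀ t, f t ≤ p * h * M := fun t => min_le_peak hr
  have hf0 : f 0 = 0 := by
    show min (r - h * 0) (p * h * 0 - r) = 0
    simp
  have hfar : ∀ x, 2 * r < x → f x = 0 := by
    intro x hx
    have h1 : x ≤ h * x := Nat.le_mul_of_pos_left x (by omega)
    have h2 : r - h * x = 0 := by omega
    show min (r - h * x) (p * h * x - r) = 0
    rw [h2]
    simp
  have hmr : ∀ κ, mr p h r (n0 + stp p a * κ) = f (n0 + stp p a * κ + 1) := fun κ => rfl
  have hsum0 : ∑ t ∈ range (2 * r + 1), f t = ∑ t ∈ Icc 1 (2 * r), f t := by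
    rw [sum_range_succ', hf0, add_zero, range_eq_Ico, sum_Ico_add' f 0 (2 * r) 1]
    refine sum_congr ?_ fun _ _ => rfl
    ext j
    simp
  have hp1 : (1 : ℝ) < p := by exact_mod_cast (by omega : 1 < p)
  have hst := stp_pos_gh hpp a
  have hstR : (0 : ℝ) < stp p a := by exact_mod_cast hst
  have hdc := stp_cast hpp a
  set Sg : ℝ := ∑ t ∈ Icc 1 (2 * r), (f t : ℝ) with hSg
  -- one residue class
  have hj : ∀ j : ℕ, (∑ κ ∈ Gh, (f (n0 + stp p a * κ + 1) : ℝ) *
      ((if κ % p ^ (j + 1) = s % p ^ (j + 1) then 1 else 0 : ℕ) : ℝ)) ≤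
      Sg / stp p a * (1 / (p : ℝ)) ^ (j + 1) + 2 * (p * h * M) := by
    intro j
    set d := stp p a * p ^ (j + 1) with hd
    set c := (n0 + stp p a * s + 1) % d with hc
    have hinj : Set.InjOn (fun κ => n0 + stp p a * κ + 1)
        ((Gh.filter fun κ => κ % p ^ (j + 1) = s % p ^ (j + 1)) : Set ℕ) := by
      intro x _ y _ hxy
      simp only at hxy
      have : stp p a * x = stp p a * y := by omega
      exact Nat.eq_of_mul_eq_mul_left hst this
    have h1 : ∑ κ ∈ Gh.filter (fun κ => κ % p ^ (j + 1) = s % p ^ (j + 1)),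
        f (n0 + stp p a * κ + 1) ≤
        ∑ t ∈ (range (2 * r + 1)).filter (fun t => t % d = c), f t := by
      have h2 : ∑ κ ∈ Gh.filter (fun κ => κ % p ^ (j + 1) = s % p ^ (j + 1)),
          f (n0 + stp p a * κ + 1) =
          ∑ x ∈ (Gh.filter (fun κ => κ % p ^ (j + 1) = s % p ^ (j + 1))).image
            (fun κ => n0 + stp p a * κ + 1), f x := (sum_image hinj).symm
      rw [h2]
      have h3 : ∑ x ∈ (Gh.filter (fun κ => κ % p ^ (j + 1) = s % p ^ (j + 1))).image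
            (fun κ => n0 + stp p a * κ + 1), f x =
          ∑ x ∈ ((Gh.filter (fun κ => κ % p ^ (j + 1) = s % p ^ (j + 1))).image
            (fun κ => n0 + stp p a * κ + 1)).filter (fun x => x ≤ 2 * r), f x := by
        rw [sum_filter]
        refine sum_congr rfl fun x _ => ?_
        split_ifs with h4
        · rfl
        · exact hfar x (not_le.1 h4)
      rw [h3]
      refine sum_le_sum_of_subset ?_
      intro x hx
      rw [mem_filter, mem_image] at hx
      obtain ⟨⟨κ, hκ, rfl⟩, hx2⟩ := hx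
      rw [mem_filter] at hκ
      rw [mem_filter, mem_range]
      refine ⟨by omega, ?_⟩
      have h5 : κ ≡ s [MOD p ^ (j + 1)] := hκ.2
      exact ((Nat.ModEq.mul_left' (stp p a) h5).add_left n0).add_right 1
    have h2 : (∑ κ ∈ Gh, (f (n0 + stp p a * κ + 1) : ℝ) *
        ((if κ % p ^ (j + 1) = s % p ^ (j + 1) then 1 else 0 : ℕ) : ℝ)) =
        ((∑ κ ∈ Gh.filter (fun κ => κ % p ^ (j + 1) = s % p ^ (j + 1)),
        f (n0 + stp p a * κ + 1) : ℕ) : ℝ) := by
      rw [sum_filter, Nat.cast_sum]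
      refine sum_congr rfl fun κ _ => ?_
      split_ifs <;> simp
    rw [h2]
    have h3 := tent_ap (a := c) (d := d) ht0 hinc hdec hmax
    rw [hsum0] at h3
    have h4 := (Nat.cast_le (α := ℝ)).2 ((Nat.mul_le_mul_left d h1).trans h3)
    rw [Nat.cast_mul, Nat.cast_add, Nat.cast_sum (Icc 1 (2 * r))] at h4
    have h5 : (d : ℝ) = (stp p a : ℝ) * (p : ℝ) ^ (j + 1) := by
      rw [hd, Nat.cast_mul, Nat.cast_pow]
    rw [← hSg] at h4
    generalize ((∑ κ ∈ Gh.filter (fun κ => κ % p ^ (j + 1) = s % p ^ (j + 1)),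
      f (n0 + stp p a * κ + 1) : ℕ) : ℝ) = Z at *
    push_cast at h4
    rw [h5] at h4
    have h6 : (0 : ℝ) < (stp p a : ℝ) * (p : ℝ) ^ (j + 1) := mul_pos hstR (by positivity)
    have h7 : Z ≤ (Sg + 2 * ((stp p a : ℝ) * (p : ℝ) ^ (j + 1)) * (p * h * M)) /
        ((stp p a : ℝ) * (p : ℝ) ^ (j + 1)) := by
      rw [le_div_iff₀ h6]
      linarith
    refine h7.trans (le_of_eq ?_)
    rw [one_div, inv_pow]
    field_simp
  calc ∑ κ ∈ Gh, (mr p h r (n0 + stp p a * κ) : ℝ) * vd p s κ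
      ≤ ∑ κ ∈ Gh, (f (n0 + stp p a * κ + 1) : ℝ) *
          ∑ j ∈ range V, ((if κ % p ^ (j + 1) = s % p ^ (j + 1) then 1 else 0 : ℕ) : ℝ) := by
        refine sum_le_sum fun κ hκ => ?_
        rw [hmr]
        refine mul_le_mul_of_nonneg_left ?_ (by positivity)
        have := vd_le hpp (J := V) (a := s) (b := κ) (fun h => hs' (h ▸ hκ)) hs (hGh κ hκ)
        exact_mod_cast this
    _ = ∑ j ∈ range V, ∑ κ ∈ Gh, (f (n0 + stp p a * κ + 1) : ℝ) *
          ((if κ % p ^ (j + 1) = s % p ^ (j + 1) then 1 else 0 : ℕ) : ℝ) := by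
        simp only [mul_sum]
        rw [sum_comm]
    _ ≤ ∑ j ∈ range V, (Sg / stp p a * (1 / (p : ℝ)) ^ (j + 1) + 2 * (p * h * M)) :=
        sum_le_sum fun j _ => hj j
    _ ≤ Sg / (((p : ℝ) - 1) ^ 2 * (p : ℝ) ^ a) + 2 * (p * h * M) * V := by
        rw [sum_add_distrib, ← mul_sum, sum_const, card_range, nsmul_eq_mul]
        have hg := geom_le (p := p) (by omega) V
        have hS0 : 0 ≤ Sg / (stp p a : ℝ) := div_nonneg (by positivity) hstR.le
        have h1 := mul_le_mul_of_nonneg_left hg hS0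
        have h8 : (p : ℝ) - 1 ≠ 0 := by linarith
        have e : Sg / (stp p a : ℝ) * (1 / ((p : ℝ) - 1)) =
            Sg / (((p : ℝ) - 1) ^ 2 * (p : ℝ) ^ a) := by
          rw [hdc]
          field_simp
        rw [e] at h1
        linarith

/-- Section 6. -/
theorem ghost_totalA {p : ℕ} [Fact p.Prime] (a : ℕ) {h q n0 M u r V s : ℕ}
    (hq : q = (p + 1) * h) (hh : 1 ≤ h)
    (hV : 1 ≤ V) (hM : p + 2 ≤ M) (hu : u ≤ q) (hr : r + u = q * M)
    (Gh : Finset ℕ) (hGh : ∀ κ ∈ Gh, κ < p ^ (V + 1)) (hs : s < p ^ (V + 1)) (hs' : s ∉ Gh) :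
    (Lam0A p a q M u : ℝ) + ∑ κ ∈ Gh, (mr p h r (n0 + stp p a * κ) : ℝ) * vd p s κ ≤
      (r : ℝ) ^ 2 / (2 * q) + 20 * p ^ (a + 1) * q * M * V := by
  have hpp : p.Prime := Fact.out
  have hp2 := hpp.two_le
  have h1 := ghost_sum_leA (n0 := n0) a hh (r := r) (M := M) (by rw [← hq]; omega) Gh hGh hs hs'
  have h2 := sum_mr_le (p := p) (h := h) (r := r) (N := 2 * r) (by omega) hh le_rfl
  have h3 := lam0A_eq (p := p) a q M u
  have hP0 : 0 < p ^ (a + 1) := pow_pos (by omega) _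
  rw [sum_div_eq hP0] at h3
  have h4 := gX_ge hP0 M
  have hP : (2 : ℝ) ≤ p := by exact_mod_cast hp2
  have hH : (1 : ℝ) ≤ h := by exact_mod_cast hh
  have hV' : (1 : ℝ) ≤ V := by exact_mod_cast hV
  have hM' : (4 : ℝ) ≤ M := by exact_mod_cast (by omega : 4 ≤ M)
  have hu' : (u : ℝ) ≤ q := by exact_mod_cast hu
  have hu0 : (0 : ℝ) ≤ u := by positivity
  have hq' : (q : ℝ) = (p + 1) * h := by rw [hq]; push_cast; ring
  have hq0 : (0 : ℝ) < q := by rw [hq']; positivity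
  have hr' : (r : ℝ) = q * M - u := by
    have : ((r + u : ℕ) : ℝ) = ((q * M : ℕ) : ℝ) := by rw [hr]
    push_cast at this
    linarith
  have hA1 : (1 : ℝ) ≤ (p : ℝ) ^ a := one_le_pow₀ (by linarith)
  have hA2 : (p : ℝ) ^ (a + 1) = p * (p : ℝ) ^ a := by ring
  -- the sum of the multiplicities
  have h2' : (∑ x ∈ Icc 1 (2 * r), ((min (r - h * x) (p * h * x - r) : ℕ) : ℝ)) /
      (((p : ℝ) - 1) ^ 2 * (p : ℝ) ^ a) ≤ (r : ℝ) ^ 2 / (2 * (p : ℝ) ^ (a + 1) * q) + q / 8 := by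
    have h5 : 8 * (p : ℝ) * q * ∑ x ∈ Icc 1 (2 * r), ((min (r - h * x) (p * h * x - r) : ℕ) : ℝ) ≤
        4 * ((p : ℝ) - 1) ^ 2 * r ^ 2 + p * q ^ 2 := by
      have h6 := (Int.cast_le (R := ℝ)).2 h2
      push_cast at h6 ⊢
      rw [hq']
      refine le_trans (le_of_eq ?_) h6
      ring
    have h6' : (1 : ℝ) ≤ ((p : ℝ) - 1) ^ 2 := by nlinarith
    have h6 : (0 : ℝ) < ((p : ℝ) - 1) ^ 2 * (p : ℝ) ^ a := by positivity
    generalize (∑ x ∈ Icc 1 (2 * r), ((min (r - h * x) (p * h * x - r) : ℕ) : ℝ)) = Z at *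
    rw [div_le_iff₀ h6]
    have h7 : (0 : ℝ) < 8 * p * q := by positivity
    refine le_of_mul_le_mul_left ?_ h7
    refine h5.trans ?_
    have e : 8 * (p : ℝ) * q * (((r : ℝ) ^ 2 / (2 * (p : ℝ) ^ (a + 1) * q) + q / 8) *
        (((p : ℝ) - 1) ^ 2 * (p : ℝ) ^ a)) =
        4 * ((p : ℝ) - 1) ^ 2 * r ^ 2 + p * q ^ 2 * (((p : ℝ) - 1) ^ 2 * (p : ℝ) ^ a) := by
      rw [hA2]
      field_simp
      ring
    rw [e]
    have : (1 : ℝ) ≤ ((p : ℝ) - 1) ^ 2 * (p : ℝ) ^ a := by nlinarith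
    have : (p : ℝ) * q ^ 2 * 1 ≤ p * q ^ 2 * (((p : ℝ) - 1) ^ 2 * (p : ℝ) ^ a) :=
      mul_le_mul_of_nonneg_left this (by positivity)
    linarith
  -- the Hodge part
  have hP1 : (1 : ℝ) ≤ (p : ℝ) ^ (a + 1) := one_le_pow₀ (by linarith)
  have h3' : (Lam0A p a q M u : ℝ) ≤
      (q : ℝ) * M ^ 2 * ((p : ℝ) ^ (a + 1) - 1) / (2 * (p : ℝ) ^ (a + 1)) := by
    have h6 := (Int.cast_le (R := ℝ)).2 h4
    push_cast at h6
    have h7 : (0 : ℝ) ≤ ((M - 1 : ℕ) : ℝ) - (((M - 1) / p ^ (a + 1) : ℕ) : ℝ) := by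
      have : (M - 1) / p ^ (a + 1) ≤ M - 1 := Nat.div_le_self _ _
      have := (Nat.cast_le (α := ℝ)).2 this
      linarith
    have h8 : 0 ≤ 2 * (u : ℝ) * (((M - 1 : ℕ) : ℝ) - (((M - 1) / p ^ (a + 1) : ℕ) : ℝ)) :=
      mul_nonneg (by positivity) h7
    have h9 : 2 * (Lam0A p a q M u : ℝ) ≤ (q : ℝ) * (M * (M - 1)) - 2 * q * gX (p ^ (a + 1)) M := by
      have h10 : ((((M - 1 : ℕ) : ℤ) - (((M - 1) / p ^ (a + 1) : ℕ) : ℤ) : ℤ) : ℝ) =
        ((M - 1 : ℕ) : ℝ) - (((M - 1) / p ^ (a + 1) : ℕ) : ℝ) := by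
          rw [Int.cast_sub, Int.cast_natCast, Int.cast_natCast]
      have h11 := congrArg (Int.cast (R := ℝ)) h3
      rw [Int.cast_sub, Int.cast_mul (2 * (u : ℤ)), h10] at h11
      push_cast at h11
      linarith
    have h10 : (0 : ℝ) < (p : ℝ) ^ (a + 1) := by linarith
    rw [le_div_iff₀ (by positivity)]
    have h11 := mul_le_mul_of_nonneg_right h9 h10.le
    have h12 := mul_le_mul_of_nonneg_left h6 hq0.le
    generalize (p : ℝ) ^ (a + 1) = P at *
    nlinarith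
  -- conclusion
  generalize (p : ℝ) ^ (a + 1) = P at *
  have h5 : (q : ℝ) * M ^ 2 * (P - 1) / (2 * P) ≤
      (r : ℝ) ^ 2 * (P - 1) / (2 * P * q) + q * M + q := by
    have hP0' : (0 : ℝ) < P := by linarith
    have e : (q : ℝ) * M ^ 2 = (r + u) ^ 2 / q := by
      rw [hr']; field_simp; ring
    have e2 : ((r : ℝ) + u) ^ 2 / q * (P - 1) / (2 * P) =
        (r : ℝ) ^ 2 * (P - 1) / (2 * P * q) + (2 * r * u + u ^ 2) * (P - 1) / (2 * P * q) := by
      field_simp
      ring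
    rw [e, e2]
    have e3 : (2 * (r : ℝ) * u + u ^ 2) * (P - 1) / (2 * P * q) ≤ q * M + q := by
      rw [div_le_iff₀ (by positivity)]
      have hr0 : (0 : ℝ) ≤ r := by positivity
      have hrq : (r : ℝ) ≤ q * M := by rw [hr']; linarith
      have f1 : 2 * (r : ℝ) * u + u ^ 2 ≤ 2 * (q * M) * q + q ^ 2 := by
        have g1 : (r : ℝ) * u ≤ q * M * q := mul_le_mul hrq hu' hu0 (by positivity)
        have g2 : (u : ℝ) ^ 2 ≤ q ^ 2 := by gcongr
        linarith
      have f2 : (0 : ℝ) ≤ P - 1 := by linarith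
      have f3 := mul_le_mul_of_nonneg_right f1 f2
      refine f3.trans ?_
      have : (0 : ℝ) ≤ q * M * q := by positivity
      have : (0 : ℝ) ≤ q ^ 2 := by positivity
      nlinarith
    linarith
  have h6 : (r : ℝ) ^ 2 * (P - 1) / (2 * P * q) + (r : ℝ) ^ 2 / (2 * P * q) =
      (r : ℝ) ^ 2 / (2 * q) := by
    have hP0' : (0 : ℝ) < P := by linarith
    field_simp
    ring
  have h7 : 2 * ((p : ℝ) * h * M) * V ≤ 2 * q * M * V := by
    have h9 : (p : ℝ) * h ≤ q := by rw [hq']; nlinarith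
    have h10 : (p : ℝ) * h * (M * V) ≤ q * (M * V) :=
      mul_le_mul_of_nonneg_right h9 (by positivity)
    linarith
  have h8 : (q : ℝ) * M + q + q / 8 + 2 * q * M * V ≤ 20 * P * q * M * V := by
    have a1 : (q : ℝ) ≤ q * M * V := by
      have : (1 : ℝ) ≤ M * V := by nlinarith
      nlinarith
    have a2 : (q : ℝ) * M ≤ q * M * V := by
      have : (0 : ℝ) ≤ q * M := by positivity
      nlinarith
    have a3 : (q : ℝ) * M * V ≤ P * (q * M * V) := by
      have : (0 : ℝ) ≤ q * M * V := by positivity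
      nlinarith
    have e : 20 * P * q * M * V = 20 * (P * (q * M * V)) := by ring
    rw [e]
    nlinarith
  linarith

end Gouvea
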