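import Pool.Agent.Work.MP_d3517d_nt.A.Basic

/-!
# Gouvêa slope distribution (MP_d3517d_nt), all primes: the statement of the main proposition
-/

open Polynomial Finset

noncomputable section

namespace Gouvea

/-- statement of the main proposition (the weight `M - 1` is even) -/
def MainBadStatA (p a h V0 : ℕ) [Fact p.Prime] : Prop :=
    ∀ (E : Type) (_ : Fintype E) (_ : DecidableEq E) (n0 L J : ℕ) (F : WFamA p a h n0 L J E)
      (T V M u r κ0 : ℕ), Fintype.card E = (p + 1) * h → V0 ≤ V → 2 * (p + 1) * T < p ^ V →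
      p ^ V ≤ 2 * (p + 1) * p ^ 2 * T → M ≤ T → T ≤ V * M → u ≤ (p + 1) * h →
      r + u = (p + 1) * h * M → n0 + stp p a * κ0 + 1 = M → Even (M - 1) →
      2 * (p + 1) * T < L → 2 * (p + 1) * T < J →
      (p : ℝ) ^ (-((((M - 1) / 2 : ℕ) : ℤ) * ((p + 1) * h : ℕ) * M + h * M - u * M)) ≤
        ‖(cr F.U r).eval (κ0 : ℚ_[p])‖ →
      ∀ S : Finset ℕ, (∀ s ∈ S, (p + 1) * M ≤ n0 + stp p a * s ∧ n0 + stp p a * s ≤ 2 * T ∧
        Nat.clog p (V ^ 6) + 1 ≤ vd p κ0 s ∧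
        ‖(cr F.U r).eval (s : ℚ_[p])‖ ≤
          (p : ℝ) ^ (-((r : ℝ) ^ 2 / (2 * ((p + 1) * h)) + 30 * p ^ (a + 2) * h * T * V) + 1)) →
      S.card < 3 * V ^ 4

end Gouvea
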