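import Pool.Agent.Work.MP_d3517d_nt.PhiPsi
import Pool.Agent.Work.MP_d3517d_nt.A.Basic

/-!
# M1 for the step `d = (p - 1) p ^ a`
-/

open Polynomial Finset

noncomputable section

namespace Gouvea

variable {p : ℕ} [Fact p.Prime]

theorem phiA_zero (i : ℕ) : phiA p 0 i = phi p i := by
  unfold phiA phi
  rw [pow_zero, Nat.div_one]

theorem psiA_zero (j : ℕ) : psiA p 0 j = psi p j := by
  unfold psiA psi
  rw [zero_add, pow_one]

theorem val_factorial_mono {m n : ℕ} (h : m ≤ n) :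
    padicValNat p m.factorial ≤ padicValNat p n.factorial :=
  (padicValNat_dvd_iff_le (Nat.factorial_ne_zero _)).1
    (pow_padicValNat_dvd.trans (Nat.factorial_dvd_factorial h))

theorem psiA_mono (a : ℕ) : Monotone (psiA p a) := fun _ _ hxy =>
  val_factorial_mono (Nat.div_le_div_right hxy)

theorem val_divA_le (a i : ℕ) : padicValNat p (i / p ^ a).factorial ≤ i :=
  (val_factorial_le _).trans (Nat.div_le_self _ _)

/-- `φ_a + ψ_a = i - ⌊i / p^(a+1)⌋`. -/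
theorem phiA_add_psiA (a i : ℕ) : phiA p a i + psiA p a i + i / p ^ (a + 1) = i := by
  have h1 := val_factorial (p := p) (i / p ^ a)
  have h2 := val_divA_le (p := p) a i
  have h3 : i / p ^ a / p = i / p ^ (a + 1) := by
    rw [Nat.div_div_eq_div_mul, pow_succ]
  rw [h3] at h1
  unfold phiA psiA
  omega

/-- `(p - 1) (i - φ_a(i)) + s_p(⌊i / p^a⌋) = ⌊i / p^a⌋` -/
theorem phiA_digits (a i : ℕ) :
    ((p : ℝ) - 1) * (i - phiA p a i) + ((Nat.digits p (i / p ^ a)).sum : ℝ) =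
      ((i / p ^ a : ℕ) : ℝ) := by
  have h1 := sub_one_mul_val (p := p) (i / p ^ a)
  have h2 := val_divA_le (p := p) a i
  have hp := (Fact.out : p.Prime).two_le
  unfold phiA
  rw [Nat.cast_sub h2]
  have : ((p - 1 : ℕ) : ℝ) = (p : ℝ) - 1 := by
    rw [Nat.cast_sub (by omega)]
    simp
  rw [← this, sub_sub_cancel]
  exact_mod_cast h1

/-- `φ_a` grows at least with slope `1 - 1 / ((p - 1) p^a)` -/
theorem phiA_sub_ge (a : ℕ) {i j V : ℕ} (hij : i ≤ j) (hi : i < p ^ (V + 1)) :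
    (1 - 1 / (((p : ℝ) - 1) * (p : ℝ) ^ a)) * ((j : ℝ) - i) - (V + 2) ≤
      (phiA p a j : ℝ) - phiA p a i := by
  have hp := (Fact.out : p.Prime).two_le
  have hp' : (2 : ℝ) ≤ p := by exact_mod_cast hp
  have hp1 : (0 : ℝ) < (p : ℝ) - 1 := by linarith
  have hpa : (0 : ℝ) < (p : ℝ) ^ a := by positivity
  have h1 := phiA_digits (p := p) a i
  have h2 := phiA_digits (p := p) a j
  have h3 : ((Nat.digits p (i / p ^ a)).sum : ℝ) ≤ ((p : ℝ) - 1) * (V + 1) := by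
    have h4 : (Nat.digits p (i / p ^ a)).sum ≤ (p - 1) * (V + 1) :=
      digits_sum_le ((Nat.div_le_self _ _).trans_lt hi)
    have : ((p - 1 : ℕ) : ℝ) = (p : ℝ) - 1 := by
      rw [Nat.cast_sub (by omega)]
      simp
    rw [← this]
    exact_mod_cast h4
  have h4 : (0 : ℝ) ≤ ((Nat.digits p (j / p ^ a)).sum : ℝ) := Nat.cast_nonneg _
  -- the integer parts
  have h5 : ((j / p ^ a : ℕ) : ℝ) ≤ (j : ℝ) / (p : ℝ) ^ a := by
    rw [le_div_iff₀ hpa]
    exact_mod_cast Nat.div_mul_le_self j (p ^ a)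
  have h6 : (i : ℝ) / (p : ℝ) ^ a ≤ ((i / p ^ a : ℕ) : ℝ) + 1 := by
    rw [div_le_iff₀ hpa]
    have h7 : i ≤ (i / p ^ a + 1) * p ^ a := by
      have h8 := Nat.div_add_mod i (p ^ a)
      have h9 := Nat.mod_lt i (Nat.pos_of_ne_zero (pow_ne_zero a (by omega)) : 0 < p ^ a)
      nlinarith
    exact_mod_cast h7
  have h7 : ((p : ℝ) - 1) * ((phiA p a j : ℝ) - phiA p a i) ≥ ((p : ℝ) - 1) * ((j : ℝ) - i) -
      ((j : ℝ) - i) / (p : ℝ) ^ a - 1 - ((p : ℝ) - 1) * (V + 1) := by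
    rw [sub_div]
    nlinarith
  have h8 : (1 / (((p : ℝ) - 1) * (p : ℝ) ^ a)) * ((j : ℝ) - i) =
      (((j : ℝ) - i) / (p : ℝ) ^ a) / ((p : ℝ) - 1) := by
    field_simp
  have h9 : (1 - 1 / (((p : ℝ) - 1) * (p : ℝ) ^ a)) * ((j : ℝ) - i) =
      ((j : ℝ) - i) - (((j : ℝ) - i) / (p : ℝ) ^ a) / ((p : ℝ) - 1) := by
    rw [sub_mul, one_mul, h8]
  rw [h9]
  have h10 : (((j : ℝ) - i) - (((j : ℝ) - i) / (p : ℝ) ^ a) / ((p : ℝ) - 1) - (V + 2)) *
      ((p : ℝ) - 1) ≤ ((phiA p a j : ℝ) - phiA p a i) * ((p : ℝ) - 1) := by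
    rw [sub_mul, sub_mul, div_mul_cancel₀ _ hp1.ne']
    nlinarith
  exact le_of_mul_le_mul_right h10 hp1

end Gouvea
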