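import Pool.Agent.Work.MP_d3517d_nt.MinorGB
import Pool.Agent.Work.MP_d3517d_nt.A.PhiPsi

/-!
# M3: Gauss bound for the minors, step `(p - 1) p ^ a`
-/

open Polynomial Finset

noncomputable section

namespace Gouvea

variable {p : ℕ} [Fact p.Prime]

theorem minor_GBA {a h n0 L J : ℕ} {E : Type} [Fintype E] [DecidableEq E]
    (F : WFamA p a h n0 L J E) {q M u : ℕ} (hq : Fintype.card E = q) (hM : 1 ≤ M) (hu : u ≤ q)
    (R : Finset (E × Fin L)) (hR : R.card + u = q * M) :
    GB p (minor F.U R) (LamAA p a q M u L (cnt R)) := by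
  classical
  -- take out the rows
  have h1 : minor F.U R = (∏ x : R, C ((p : ℚ_[p]) ^ phiA p a (lev (x : E × Fin L)))) *
      (Matrix.of fun x y : R => ∑ z, F.G x z * C ((p : ℚ_[p]) ^ psiA p a (lev z) * F.H z y)).det := by
    rw [← Matrix.det_mul_column]
    unfold minor
    congr 1
    funext x y
    simp only [Matrix.submatrix_apply, Matrix.of_apply]
    rw [F.fac, Finset.mul_sum]
    exact Finset.sum_congr rfl fun z _ => mul_assoc _ _ _
  -- the first factor
  have h2 : GB p (∏ x : R, C ((p : ℚ_[p]) ^ phiA p a (lev (x : E × Fin L))))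
      (∑ i ∈ range L, (cnt R i : ℤ) * phiA p a i) := by
    have h3 := GB.prod (p := p) (s := (univ : Finset R))
      (f := fun x : R => C ((p : ℚ_[p]) ^ phiA p a (lev (x : E × Fin L))))
      (Λ := fun x : R => (phiA p a (lev (x : E × Fin L)) : ℤ)) (fun x _ => GB.C (VB.p_pow _))
    rw [Finset.sum_coe_sort R (fun x => (phiA p a (lev x) : ℤ)),
      sum_lev le_rfl R (fun i => (phiA p a i : ℤ))] at h3
    exact h3
  -- the second factor
  have h3 : GB p (Matrix.of fun x y : R => ∑ z, F.G x z *
      C ((p : ℚ_[p]) ^ psiA p a (lev z) * F.H z y)).det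
      ((q : ℤ) * ∑ i ∈ range M, (psiA p a i : ℤ) - u * (psiA p a (M - 1) : ℤ)) := by
    rw [det_sum_columns]
    refine GB.sum fun f _ => ?_
    by_cases hf : Function.Injective f
    · have h4 : GB p (∏ y, C ((p : ℚ_[p]) ^ psiA p a (lev (f y)) * F.H (f y) y))
          (∑ y, ((psiA p a (lev (f y)) : ℤ) + 0)) :=
        GB.prod fun y _ => GB.C ((VB.p_pow _).mul (F.hH _ _))
      have h5 : GB p (Matrix.of fun x y : R => F.G x (f y)).det 0 :=
        GB.det fun x y => F.hG _ _
      have h6 := h4.mul h5
      refine h6.mono ?_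
      have h7 := level_sum_ge (psiA p a) (psiA_mono a) hq hM hu (univ.map ⟨f, hf⟩) (by
        rw [Finset.card_map, Finset.card_univ, Fintype.card_coe]
        exact hR)
      rw [Finset.sum_map] at h7
      simp only [Function.Embedding.coeFn_mk] at h7
      have h8 : (q : ℤ) * ∑ i ∈ range M, (psiA p a i : ℤ) ≤ ∑ y : R, (psiA p a (lev (f y)) : ℤ) +
          u * (psiA p a (M - 1) : ℤ) := by exact_mod_cast h7
      simp only [add_zero]
      linarith
    · have h4 : (Matrix.of fun x y : R => F.G x (f y)).det = 0 := by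
        rw [Function.Injective] at hf
        push Not at hf
        obtain ⟨y, y', hyy, hne⟩ := hf
        exact Matrix.det_zero_of_column_eq hne fun x => by
          simp only [Matrix.of_apply]
          rw [hyy]
      rw [h4, mul_zero]
      exact GB.zero _
  rw [h1]
  exact h2.mul h3

end Gouvea
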