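import Pool.Agent.Work.MP_d3517d_nt.Rank
import Pool.Agent.Work.MP_d3517d_nt.A.MinorGB

/-!
# M4, all primes: ranks and ghost factors of the principal minors of a family (MP_d3517d_nt)
-/

open Polynomial Finset

noncomputable section

namespace Gouvea

/-! ### ranks -/

private theorem minorFacA_rank_add_le {K m n : Type} [Field K] [Fintype n] [Fintype m] (A B : Matrix m n K) :
    (A + B).rank ≤ A.rank + B.rank := by
  rw [Matrix.rank, Matrix.rank, Matrix.rank, Matrix.mulVecLin_add]
  exact (Submodule.finrank_mono (LinearMap.range_add_le _ _)).trans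
    (Submodule.finrank_add_le_finrank_add_finrank _ _)

private theorem minorFacA_rank_le_card_cols {K n : Type} [Field K] [Fintype n] [DecidableEq n] (A : Matrix n n K)
    (s : Finset n) (h : ∀ x y, A x y ≠ 0 → y ∈ s) : A.rank ≤ s.card := by
  classical
  have h1 : A = A * Matrix.diagonal fun y => if y ∈ s then (1 : K) else 0 := by
    ext x y
    rw [Matrix.mul_diagonal]
    split_ifs with hy
    · rw [mul_one]
    · rw [mul_zero]
      by_contra hne
      exact hy (h x y hne)
  rw [h1]
  refine (Matrix.rank_mul_le_right _ _).trans ?_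
  rw [Matrix.rank_diagonal, Fintype.card_subtype]
  refine (Finset.card_le_card ?_)
  intro y hy
  by_contra hys
  simp [hys] at hy

section

variable {p : ℕ} [Fact p.Prime]

theorem minor_rankA {a h n0 L J : ℕ} {E : Type} [Fintype E] [DecidableEq E]
    (F : WFamA p a h n0 L J E) (R : Finset (E × Fin L)) (κ : ℕ) (hκ : n0 + stp p a * κ < J)
    (hL : n0 + stp p a * κ < L) :
    (((F.U.submatrix (Subtype.val : R → E × Fin L) (Subtype.val : R → E × Fin L))).map
      fun f => f.eval (κ : ℚ_[p])).rank ≤
      h * (n0 + stp p a * κ + 1) + Acount (cnt R) L (n0 + stp p a * κ) := by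
  classical
  obtain ⟨P, Q, hPQ, hP, hQ⟩ := F.dec κ hκ
  set n := n0 + stp p a * κ with hn
  have h1 : ((F.U.submatrix (Subtype.val : R → E × Fin L) (Subtype.val : R → E × Fin L))).map
      (fun f => f.eval (κ : ℚ_[p])) = P.submatrix (Subtype.val : R → E × Fin L) Subtype.val +
        Q.submatrix (Subtype.val : R → E × Fin L) Subtype.val := by
    have h2 : (F.U.map fun f => f.eval (κ : ℚ_[p])).submatrix
        (Subtype.val : R → E × Fin L) (Subtype.val : R → E × Fin L) =
        (P + Q).submatrix (Subtype.val : R → E × Fin L) Subtype.val := by rw [hPQ]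
    exact h2
  rw [h1]
  refine (minorFacA_rank_add_le _ _).trans (Nat.add_le_add ((Matrix.rank_submatrix_le _ _ _).trans hP) ?_)
  -- the antidiagonal part
  let s : Finset R := univ.filter fun y => n < lev y.1 ∨
    ∃ x : R, x.1.1 = F.σ y.1.1 ∧ lev x.1 + lev y.1 = n
  refine (minorFacA_rank_le_card_cols _ s ?_).trans ?_
  · intro x y hxy
    have h2 := hQ x.1 y.1 hxy
    simp only [s, Finset.mem_filter, Finset.mem_univ, true_and]
    rcases h2 with h2 | h2
    · exact Or.inl h2
    · exact Or.inr ⟨x, h2⟩
  · -- counting by level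
    let t : Finset (E × Fin L) := R.filter fun y => n < lev y ∨
      ∃ x ∈ R, x.1 = F.σ y.1 ∧ lev x + lev y = n
    have hst : s.card ≤ t.card := by
      refine Finset.card_le_card_of_injOn (fun y => y.1) ?_ (fun a _ b _ hab => Subtype.ext hab)
      intro y hy
      simp only [s, Finset.coe_filter, Finset.mem_univ, true_and, Set.mem_ofPred_eq] at hy
      simp only [t, Finset.coe_filter, Set.mem_ofPred_eq]
      refine ⟨y.2, hy.imp id ?_⟩
      rintro ⟨x, hx1, hx2⟩
      exact ⟨x.1, x.2, hx1, hx2⟩
    refine hst.trans ?_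
    have hmaps : ∀ y ∈ t, lev y ∈ range L := fun y _ => Finset.mem_range.2 y.2.2
    rw [Finset.card_eq_sum_card_fiberwise hmaps]
    have hsplit : range L = range (n + 1) ∪ Ico (n + 1) L := by
      ext i
      simp only [Finset.mem_range, Finset.mem_union, Finset.mem_Ico]
      omega
    have hdisj : Disjoint (range (n + 1)) (Ico (n + 1) L) := by
      rw [Finset.disjoint_left]
      intro i hi hi'
      simp only [Finset.mem_range, Finset.mem_Ico] at hi hi'
      omega
    rw [hsplit, Finset.sum_union hdisj]
    unfold Acount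
    refine Nat.add_le_add (Finset.sum_le_sum fun i hi => ?_) (Finset.sum_le_sum fun i hi => ?_)
    · -- level `i ≤ n`
      rw [Finset.mem_range] at hi
      refine le_min ?_ ?_
      · refine Finset.card_le_card ?_
        intro y hy
        simp only [t, Finset.mem_filter] at hy ⊢
        exact ⟨hy.1.1, hy.2⟩
      · -- send `y` to its partner
        refine Finset.card_le_card_of_injOn
          (fun y => if hL' : n - i < L then (F.σ y.1, (⟨n - i, hL'⟩ : Fin L)) else y) ?_ ?_
        · intro y hy
          simp only [t, Finset.coe_filter, Finset.mem_filter, Set.mem_ofPred_eq] at hy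
          have hL' : n - i < L := by omega
          simp only [hL', dif_pos, Finset.coe_filter, Set.mem_ofPred_eq]
          obtain ⟨⟨hyR, hy2⟩, hyi⟩ := hy
          rcases hy2 with hy2 | ⟨x, hxR, hx1, hx2⟩
          · omega
          · have hx : x = (F.σ y.1, (⟨n - i, hL'⟩ : Fin L)) := by
              refine Prod.ext hx1 (Fin.ext ?_)
              show lev x = n - i
              omega
            rw [← hx]
            exact ⟨hxR, by omega⟩
        · intro y hy y' hy' hyy'
          have hL' : n - i < L := by omega
          simp only [t, Finset.coe_filter, Finset.mem_filter, Set.mem_ofPred_eq] at hy hy'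
          simp only [hL', dif_pos, Prod.mk.injEq, and_true] at hyy'
          refine Prod.ext (F.σ.injective hyy') (Fin.ext ?_)
          show lev y = lev y'
          omega
    · refine Finset.card_le_card ?_
      intro y hy
      simp only [t, Finset.mem_filter] at hy ⊢
      exact ⟨hy.1.1, hy.2⟩

end

section

variable {p : ℕ} [Fact p.Prime]

theorem minor_facA {a h n0 L J : ℕ} {E : Type} [Fintype E] [DecidableEq E]
    (F : WFamA p a h n0 L J E) {q M u : ℕ} (hq : Fintype.card E = q) (hM : 1 ≤ M) (hu : u ≤ q)
    (R : Finset (E × Fin L)) (hR : R.card + u = q * M) (s : Finset ℕ)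
    (hs : ∀ κ ∈ s, n0 + stp p a * κ < J ∧ n0 + stp p a * κ < L) :
    ∃ e, GB p e (LamAA p a q M u L (cnt R)) ∧ minor F.U R =
      (∏ κ ∈ s, (X - C (κ : ℚ_[p])) ^ ma h R.card (cnt R) L (n0 + stp p a * κ)) * e := by
  refine GB_factor (minor F.U R) _ (minor_GBA F hq hM hu R hR) s _ fun κ hκ => ?_
  unfold minor
  refine pow_dvd_det _ _ _ ?_
  have h1 := minor_rankA F R κ (hs κ hκ).1 (hs κ hκ).2
  have h2 := Matrix.rank_le_card_width
    (((F.U.submatrix (Subtype.val : R → E × Fin L) (Subtype.val : R → E × Fin L))).map
      fun f => f.eval (κ : ℚ_[p]))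
  rw [Fintype.card_coe] at h2 ⊢
  unfold ma
  omega

end

end Gouvea
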