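import Pool.Agent.Work.MP_d3517d_nt.A.Comb
import Pool.Agent.Work.MP_d3517d_nt.A.MinorFac
import Pool.Agent.Work.MP_d3517d_nt.A.Ghost
import Pool.Agent.Work.MP_d3517d_nt.A.MainBadDef
import Pool.Agent.Work.MP_d3517d_nt.Interp

/-!
# Few bad weights (all primes)
-/

open Polynomial Finset

noncomputable section

namespace Gouvea

variable {p : ℕ} [Fact p.Prime]

omit [Fact p.Prime] in
private lemma mbA_dvd (a b : ℕ) : ((p : ℤ) ^ vd p a b) ∣ ((a : ℤ) - b) := padicValInt_dvd _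

private lemma mbA_vd_lt {V a b : ℕ} (hab : a ≠ b) (ha : a < p ^ V) (hb : b < p ^ V) :
    vd p a b < V := by
  have hp1 : 1 < p := (Fact.out : p.Prime).one_lt
  by_contra hlt
  push Not at hlt
  have h1 : ((p : ℤ) ^ V) ∣ ((a : ℤ) - b) := (pow_dvd_pow _ hlt).trans (mbA_dvd a b)
  have h2 : ((a : ℤ) - b) ≠ 0 := fun h => hab (by omega)
  have h3 := Int.le_of_dvd (abs_pos.2 h2) ((dvd_abs _ _).2 h1)
  have ha' : (a : ℤ) < (p : ℤ) ^ V := by exact_mod_cast ha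
  have hb' : (b : ℤ) < (p : ℤ) ^ V := by exact_mod_cast hb
  have h4 : |(a : ℤ) - b| < (p : ℤ) ^ V := by
    rw [abs_lt]
    constructor <;> omega
  omega

private lemma mbA_two_pow {V : ℕ} (hV : 256 ≤ V) : V ^ 12 ≤ 2 ^ V := by
  induction V, hV using Nat.le_induction with
  | base => norm_num
  | succ n hn ih =>
    have h1 : 4 * (n + 1) ^ 6 ≤ 5 * n ^ 6 := by
      have e : (n + 1) ^ 6 = n ^ 6 + (6 * n ^ 5 + 15 * n ^ 4 + 20 * n ^ 3 + 15 * n ^ 2 + 6 * n + 1) := by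
        ring
      have h5 : n ^ 4 ≤ n ^ 5 := Nat.pow_le_pow_right (by omega) (by norm_num)
      have h6 : n ^ 3 ≤ n ^ 5 := Nat.pow_le_pow_right (by omega) (by norm_num)
      have h7 : n ^ 2 ≤ n ^ 5 := Nat.pow_le_pow_right (by omega) (by norm_num)
      have h8 : n ^ 1 ≤ n ^ 5 := Nat.pow_le_pow_right (by omega) (by norm_num)
      have h9 : n ^ 0 ≤ n ^ 5 := Nat.pow_le_pow_right (by omega) (by norm_num)
      have h10 : 252 * n ^ 5 ≤ n * n ^ 5 := Nat.mul_le_mul_right _ (by omega)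
      have h11 : n * n ^ 5 = n ^ 6 := by ring
      rw [pow_one] at h8
      rw [pow_zero] at h9
      rw [e]
      omega
    have h2 : (4 * (n + 1) ^ 6) * (4 * (n + 1) ^ 6) ≤ (5 * n ^ 6) * (5 * n ^ 6) :=
      Nat.mul_le_mul h1 h1
    have h3 : (4 * (n + 1) ^ 6) * (4 * (n + 1) ^ 6) = 16 * (n + 1) ^ 12 := by ring
    have h4 : (5 * n ^ 6) * (5 * n ^ 6) = 25 * n ^ 12 := by ring
    have h5 : 2 ^ (n + 1) = 2 * 2 ^ n := by ring
    rw [h3, h4] at h2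
    rw [h5]
    omega

omit [Fact p.Prime] in
/-- the numerical conditions that hold for large `V` -/
private lemma mbA_T_large (hp : 2 ≤ p) {T V : ℕ} (hV1 : 1000 * p ^ 2 ≤ V)
    (hT : p ^ V ≤ 2 * (p + 1) * p ^ 2 * T) : V ^ 10 ≤ T := by
  have hp2 : 4 ≤ p ^ 2 := by nlinarith
  have h1 : V ^ 12 ≤ 2 ^ V := mbA_two_pow (by omega)
  have h3 : V ^ 12 ≤ p ^ V := le_trans h1 (Nat.pow_le_pow_left hp V)
  have h4 : 2 * (p + 1) * p ^ 2 ≤ V ^ 2 := by
    have h5 : (2 * (p + 1) * p ^ 2) ≤ (1000 * p ^ 2) * (1000 * p ^ 2) := by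
      have h6 : 2 * (p + 1) ≤ 1000 * (1000 * p ^ 2) := by nlinarith
      calc 2 * (p + 1) * p ^ 2 ≤ 1000 * (1000 * p ^ 2) * p ^ 2 := Nat.mul_le_mul_right _ h6
        _ = (1000 * p ^ 2) * (1000 * p ^ 2) := by ring
    calc 2 * (p + 1) * p ^ 2 ≤ (1000 * p ^ 2) * (1000 * p ^ 2) := h5
      _ ≤ V * V := Nat.mul_le_mul hV1 hV1
      _ = V ^ 2 := by ring
  have h5 : V ^ 2 * V ^ 10 ≤ V ^ 2 * T :=
    calc V ^ 2 * V ^ 10 = V ^ 12 := by ring
      _ ≤ p ^ V := h3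
      _ ≤ 2 * (p + 1) * p ^ 2 * T := hT
      _ ≤ V ^ 2 * T := Nat.mul_le_mul_right _ h4
  exact Nat.le_of_mul_le_mul_left h5 (Nat.pow_pos (by omega))

private lemma mbA_cnt_le {E : Type} [Fintype E] [DecidableEq E] {L : ℕ} (R : Finset (E × Fin L))
    (i : ℕ) : cnt R i ≤ Fintype.card E := by
  unfold cnt
  rw [← Finset.card_univ]
  refine Finset.card_le_card_of_injOn (fun x => x.1) (fun x _ => mem_coe.2 (mem_univ _)) ?_
  intro x hx y hy hxy
  rw [mem_coe, mem_filter] at hx hy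
  have hx2 : (x.2 : ℕ) = i := hx.2
  have hy2 : (y.2 : ℕ) = i := hy.2
  refine Prod.ext hxy (Fin.ext ?_)
  rw [hx2, hy2]

private lemma mbA_cnt_sum {E : Type} [Fintype E] [DecidableEq E] {L : ℕ}
    (R : Finset (E × Fin L)) : ∑ i ∈ range L, cnt R i = R.card := by
  unfold cnt
  exact (Finset.card_eq_sum_card_fiberwise fun x _ => mem_coe.2 (mem_range.2 x.2.2)).symm

omit [Fact p.Prime] in
private lemma mbA_IB_mono {a : ℕ} {w w' : ℕ → ℝ} {V : ℕ} (hw : IBA p a w V) (h0 : ∀ n, 0 ≤ w' n)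
    (h1 : ∀ n, w' n ≤ w n) : IBA p a w' V :=
  ⟨h0, fun a b hab => le_trans (Finset.sum_le_sum fun n _ => h1 n) (hw.2 a b hab)⟩

omit [Fact p.Prime] in
/-- few windows of the ball around the special weight are close to the centre -/
private lemma mbA_few {n0 M V κ0 J1 P : ℕ} (hP : 1 ≤ P) (hV : 256 ≤ V) (hJ : V ^ 6 ≤ p ^ J1)
    (B : Finset ℕ) (hB : ∀ k ∈ B, J1 ≤ vd p κ0 k) :
    (B.filter fun k => |((n0 + P * k : ℕ) : ℤ) + 2 - 2 * M| ≤ 64 * (V : ℤ) ^ 5).card ≤ 1 := by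
  rw [Finset.card_le_one]
  intro a ha b hb
  rw [mem_filter] at ha hb
  by_contra hab
  have h1 : ((p : ℤ) ^ J1) ∣ ((κ0 : ℤ) - a) := (pow_dvd_pow _ (hB a ha.1)).trans (mbA_dvd _ _)
  have h2 : ((p : ℤ) ^ J1) ∣ ((κ0 : ℤ) - b) := (pow_dvd_pow _ (hB b hb.1)).trans (mbA_dvd _ _)
  have h3 : ((p : ℤ) ^ J1) ∣ ((a : ℤ) - b) := by
    have : ((a : ℤ) - b) = ((κ0 : ℤ) - b) - ((κ0 : ℤ) - a) := by ring
    rw [this]
    exact dvd_sub h2 h1
  have h4 : ((a : ℤ) - b) ≠ 0 := fun h => hab (by omega)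
  have h5 := Int.le_of_dvd (abs_pos.2 h4) ((dvd_abs _ _).2 h3)
  have h6 : (V : ℤ) ^ 6 ≤ |(a : ℤ) - b| := le_trans (by exact_mod_cast hJ) h5
  have h7 : |(P : ℤ) * ((a : ℤ) - b)| ≤ 128 * (V : ℤ) ^ 5 := by
    have e : (P : ℤ) * ((a : ℤ) - b) =
        (((n0 + P * a : ℕ) : ℤ) + 2 - 2 * M) - (((n0 + P * b : ℕ) : ℤ) + 2 - 2 * M) := by
      push_cast
      ring
    rw [e]
    have := abs_sub (((n0 + P * a : ℕ) : ℤ) + 2 - 2 * M) (((n0 + P * b : ℕ) : ℤ) + 2 - 2 * M)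
    have ha2 := ha.2
    have hb2 := hb.2
    linarith
  rw [abs_mul] at h7
  have h8 : (1 : ℤ) ≤ |(P : ℤ)| := by
    rw [abs_of_nonneg (by positivity)]
    exact_mod_cast hP
  have h9 : 1 * (V : ℤ) ^ 6 ≤ 128 * (V : ℤ) ^ 5 := by
    have h10 : 1 * (V : ℤ) ^ 6 ≤ |(P : ℤ)| * |(a : ℤ) - b| :=
      mul_le_mul h8 h6 (by positivity) (by positivity)
    linarith
  have h11 : (256 : ℤ) ≤ V := by exact_mod_cast hV
  have h12 : (0 : ℤ) < (V : ℤ) ^ 5 := by positivity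
  have h13 : 256 * (V : ℤ) ^ 5 ≤ V * (V : ℤ) ^ 5 := mul_le_mul_of_nonneg_right h11 h12.le
  have h14 : (V : ℤ) * (V : ℤ) ^ 5 = (V : ℤ) ^ 6 := by ring
  linarith

/-- an unimportant minor is expensive -/
private lemma mbA_cost {h q M u L r V n D : ℕ} (hq : q = (p + 1) * h) (hh : 1 ≤ h)
    (hVq : 1000 * q ≤ V) (hM : 1 ≤ M)
    (hu : u ≤ q) (a : ℕ → ℕ) (ha : ∀ i, a i ≤ q) (hr : r + u = q * M)
    (hsum : ∑ i ∈ range L, a i = r) (hn : M ≤ n) (hnL : n < L)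
    (hD : D = if |(n : ℤ) + 2 - 2 * M| ≤ 64 * (V : ℤ) ^ 5 then V ^ 3 else 0)
    (hk : ma h r a L n < mr p h r n - D) :
    4 * (4 * V ^ 5) ≤ cost q M L a := by
  have hq1 : 1 ≤ q := by
    rw [hq]
    nlinarith
  by_cases hc : |(n : ℤ) + 2 - 2 * M| ≤ 64 * (V : ℤ) ^ 5
  · rw [if_pos hc] at hD
    have hk' : ma h r a L n + (V ^ 3 + 1) ≤ mr p h r n := by omega
    have h1 := comb_cost2 (p := p) hq hM hu a ha hr hsum hn hnL hk'
    have h2 := cX_sq (M := M) (L := L) a ha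
    by_contra hlt
    push Not at hlt
    have h3 : V ^ 6 ≤ 8 * q * (cost q M L a + cX q M a) := le_trans (by nlinarith) h1
    have hV5 : 1 ≤ V ^ 5 := Nat.one_le_pow _ _ (by omega)
    have hqV : q ≤ V ^ 5 := le_trans (by omega) (Nat.le_self_pow (by norm_num) V)
    have h4 : cX q M a ≤ 16 * V ^ 5 := by
      by_contra h5
      push Not at h5
      have h6 : cX q M a ^ 2 ≤ 2 * q * (2 * cX q M a) :=
        le_trans h2 (Nat.mul_le_mul_left _ (by omega))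
      have h7 : cX q M a * cX q M a ≤ (4 * q) * cX q M a := by nlinarith
      have h8 := Nat.le_of_mul_le_mul_right h7 (by omega)
      omega
    have h9 : V ^ 6 ≤ 8 * q * (32 * V ^ 5) := le_trans h3 (Nat.mul_le_mul_left _ (by omega))
    have h10 : V * V ^ 5 ≤ (256 * q) * V ^ 5 := by
      calc V * V ^ 5 = V ^ 6 := by ring
        _ ≤ 8 * q * (32 * V ^ 5) := h9
        _ = (256 * q) * V ^ 5 := by ring
    have h11 := Nat.le_of_mul_le_mul_right h10 hV5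
    omega
  · rw [if_neg hc] at hD
    have hk' : ma h r a L n + 1 ≤ mr p h r n := by omega
    have h1 := comb_cost1 (p := p) hq hM hu a ha hr hsum hn hnL hk'
    push Not at hc
    have h2 : 64 * (V : ℤ) ^ 5 < 4 * cost q M L a := by
      push_cast at h1
      linarith
    have h3 : 64 * V ^ 5 < 4 * cost q M L a := by exact_mod_cast h2
    omega

omit [Fact p.Prime] in
private lemma mbA_H4 {a q h M V T : ℕ} (hp : 2 ≤ p) (hq : q = (p + 1) * h) (hh : 1 ≤ h)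
    (hVpos : 1 ≤ V) (hMT : (p + 1) * M ≤ 2 * T) (hT10 : V ^ 10 ≤ T) :
    20 * p ^ (a + 1) * q * M * V + 4 * V ^ 5 + 1 ≤ 30 * p ^ (a + 2) * h * T * V := by
  have hpa : 1 ≤ p ^ (a + 1) := Nat.one_le_pow _ _ (by omega)
  have hpa2 : p ^ (a + 2) = p * p ^ (a + 1) := by ring
  have hpa3 : 2 * p ^ (a + 1) ≤ p ^ (a + 2) := by
    rw [hpa2]
    exact Nat.mul_le_mul_right _ hp
  have h5 : 20 * p ^ (a + 1) * q * M * V ≤ 20 * p ^ (a + 2) * h * T * V :=
    calc 20 * p ^ (a + 1) * q * M * V = 20 * p ^ (a + 1) * h * ((p + 1) * M) * V := by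
          rw [hq]; ring
      _ ≤ 20 * p ^ (a + 1) * h * (2 * T) * V :=
          Nat.mul_le_mul_right _ (Nat.mul_le_mul_left _ hMT)
      _ = 20 * (2 * p ^ (a + 1)) * h * T * V := by ring
      _ ≤ 20 * p ^ (a + 2) * h * T * V :=
          Nat.mul_le_mul_right _ (Nat.mul_le_mul_right _ (Nat.mul_le_mul_right _
            (Nat.mul_le_mul_left _ hpa3)))
  have h7 : 4 * V ^ 5 + 1 ≤ 10 * p ^ (a + 2) * h * T * V := by
    have h8 : V ^ 5 ≤ V ^ 10 := Nat.pow_le_pow_right hVpos (by norm_num)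
    have h9 : V ^ 5 ≤ T := le_trans h8 hT10
    have h10 : 1 ≤ V ^ 5 := Nat.one_le_pow _ _ hVpos
    have h11 : 5 * 1 ≤ 10 * p ^ (a + 2) * h := Nat.mul_le_mul (by omega) hh
    calc 4 * V ^ 5 + 1 ≤ 5 * V ^ 5 := by omega
      _ ≤ 5 * T := by omega
      _ = 5 * 1 * T * 1 := by ring
      _ ≤ 10 * p ^ (a + 2) * h * T * V := Nat.mul_le_mul (Nat.mul_le_mul_right _ h11) hVpos
  calc 20 * p ^ (a + 1) * q * M * V + 4 * V ^ 5 + 1
      = 20 * p ^ (a + 1) * q * M * V + (4 * V ^ 5 + 1) := by ring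
    _ ≤ 20 * p ^ (a + 2) * h * T * V + 10 * p ^ (a + 2) * h * T * V := Nat.add_le_add h5 h7
    _ = 30 * p ^ (a + 2) * h * T * V := by ring

theorem main_badA (a : ℕ) (hpa : CondA p a) {h : ℕ} (hh : 1 ≤ h) :
    ∃ V0 : ℕ, MainBadStatA p a h V0 := by
  have hpp : p.Prime := Fact.out
  have hp : 2 ≤ p := hpp.two_le
  have hp1 : 1 < p := by omega
  refine ⟨1000 * p ^ (a + 2) * ((p + 1) * h), ?_⟩
  intro E instF instD n0 L J F T V M u r κ0 hE hV0 hTV hVT hMT hTM hu hr hκ0 hev hL hJ hspec S hS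
  obtain ⟨P, hPdef⟩ : ∃ P, P = stp p a := ⟨_, rfl⟩
  have hP : 1 ≤ P := by
    rw [hPdef]
    unfold stp
    exact Nat.mul_pos (by omega) (Nat.pow_pos (by omega))
  obtain ⟨q, hq⟩ : ∃ q, q = (p + 1) * h := ⟨_, rfl⟩
  rw [← hq] at hE hV0 hu hr hspec
  have hq1 : 1 ≤ q := by
    rw [hq]
    nlinarith
  have hp2 : 4 ≤ p ^ 2 := by nlinarith
  have hpa1 : 1 ≤ p ^ a := Nat.one_le_pow _ _ (by omega)
  have hpa2 : p ^ 2 ≤ p ^ (a + 2) := Nat.pow_le_pow_right (by omega) (by omega)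
  have hVpa : 1000 * p ^ (a + 2) ≤ V :=
    le_trans (le_mul_of_one_le_right (Nat.zero_le _) hq1) hV0
  have hVp : 1000 * p ^ 2 ≤ V := le_trans (Nat.mul_le_mul_left _ hpa2) hVpa
  have hVq : 1000 * q ≤ V := by
    refine le_trans ?_ hV0
    have h1 : 1 ≤ p ^ (a + 2) := Nat.one_le_pow _ _ (by omega)
    calc 1000 * q = 1000 * 1 * q := by ring
      _ ≤ 1000 * p ^ (a + 2) * q := Nat.mul_le_mul_right _ (Nat.mul_le_mul_left _ h1)
  have hVpos : 1 ≤ V := by omega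
  have hT10 := mbA_T_large hp hVp hVT
  have hM9 : V ^ 9 ≤ M := by
    have h1 : V * V ^ 9 ≤ V * M := le_trans (le_of_eq (by ring)) (le_trans hT10 hTM)
    exact Nat.le_of_mul_le_mul_left h1 hVpos
  have hMp : p + 2 ≤ M := by
    have h1 : V ≤ V ^ 9 := Nat.le_self_pow (by norm_num) V
    nlinarith
  have hM1 : 1 ≤ M := by omega
  simp only [← hPdef] at hκ0 hS
  -- the ghost weights
  let Gh : Finset ℕ := (range ((p + 1) * M)).filter fun κ => 0 < mr p h r (n0 + P * κ)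
  have hpow : p ^ V ≤ p ^ (V + 1) := Nat.pow_le_pow_right (by omega) (by omega)
  have hrange : ∀ κ, 0 < mr p h r (n0 + P * κ) →
      M ≤ n0 + P * κ ∧ n0 + P * κ + 1 < (p + 1) * M := fun κ hκ =>
    ghost_rangeA hq hh hMp hu hr hκ
  have hle : ∀ κ, κ ≤ n0 + P * κ := fun κ => by
    have : 1 * κ ≤ P * κ := Nat.mul_le_mul_right _ hP
    omega
  have hGh : ∀ κ, 0 < mr p h r (n0 + P * κ) → κ ∈ Gh := fun κ hκ => by
    refine mem_filter.2 ⟨mem_range.2 ?_, hκ⟩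
    have h1 := hrange κ hκ
    have h2 := hle κ
    omega
  have hGhr : ∀ κ ∈ Gh, M ≤ n0 + P * κ ∧ n0 + P * κ + 1 < (p + 1) * M :=
    fun κ hκ => hrange κ (mem_filter.1 hκ).2
  have hpM : (p + 1) * M ≤ (p + 1) * T := Nat.mul_le_mul_left _ hMT
  have hpT : 2 * (p + 1) * T = (p + 1) * T + (p + 1) * T := by ring
  have hGhL : ∀ κ ∈ Gh, n0 + P * κ < L := fun κ hκ => by
    have h1 := hGhr κ hκ
    omega
  have hGhJ : ∀ κ ∈ Gh, n0 + P * κ < J := fun κ hκ => by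
    have h1 := hGhr κ hκ
    omega
  have hGhV : ∀ κ ∈ Gh, n0 + P * κ < p ^ V := fun κ hκ => by
    have h1 := hGhr κ hκ
    omega
  have hMV : M < p ^ V := by
    have h1 : 1 * M ≤ (p + 1) * M := Nat.mul_le_mul_right _ (by omega)
    omega
  have hML : M ≤ L := by
    have h1 : 1 * M ≤ (p + 1) * M := Nat.mul_le_mul_right _ (by omega)
    omega
  have hκ0Gh : κ0 ∉ Gh := fun h1 => by
    have := hGhr κ0 h1
    omega
  have hSGh : ∀ s ∈ S, s ∉ Gh := fun s hs h1 => by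
    have := hGhr s h1
    have := (hS s hs).1
    omega
  have hκ0S : κ0 ∉ S := fun h1 => by
    have h2 := (hS κ0 h1).1
    have h3 : 1 * M ≤ (p + 1) * M := Nat.mul_le_mul_right _ (by omega)
    omega
  have hTV2 : 2 * T < p ^ V := by
    have h1 : 2 * T ≤ 2 * (p + 1) * T := Nat.mul_le_mul_right _ (by omega)
    omega
  -- all relevant weights are below `p ^ V`
  have hlt : ∀ s ∈ insert κ0 S, n0 + P * s < p ^ V := fun s hs => by
    rcases mem_insert.1 hs with rfl | hs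
    · omega
    · have := (hS s hs).2.1
      omega
  have hnot : ∀ s ∈ insert κ0 S, s ∉ Gh := fun s hs => by
    rcases mem_insert.1 hs with rfl | hs
    · exact hκ0Gh
    · exact hSGh s hs
  -- the set of ghost weights `n`
  let N : Finset ℕ := Gh.image fun κ => n0 + P * κ
  have hinj : Set.InjOn (fun κ => n0 + P * κ) (Gh : Set ℕ) := fun a _ b _ hab => by
    have h1 : P * a = P * b := by
      have : n0 + P * a = n0 + P * b := hab
      omega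
    exact Nat.eq_of_mul_eq_mul_left (by omega) h1
  have hsumN : ∀ f : ℕ → ℝ, ∑ n ∈ N, f n = ∑ κ ∈ Gh, f (n0 + P * κ) := fun f =>
    Finset.sum_image hinj
  have hNM : ∀ n ∈ N, M ≤ n ∧ n < L := fun n hn => by
    obtain ⟨κ, hκ, rfl⟩ := mem_image.1 hn
    exact ⟨(hGhr κ hκ).1, hGhL κ hκ⟩
  -- interval bounds
  have hIB : ∀ s ∈ insert κ0 S,
      IBA p a (fun n => ∑ κ ∈ Gh, if n0 + P * κ = n then (vd p s κ : ℝ) else 0) V := by
    intro s hs
    rw [hPdef]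
    refine IB_valA a Gh fun κ hκ => ⟨?_, ?_, ?_⟩
    · intro h1
      exact hnot s hs (h1 ▸ hκ)
    · exact lt_of_lt_of_le (lt_of_le_of_lt (hle κ) (hGhV κ hκ)) hpow
    · exact lt_of_lt_of_le (lt_of_le_of_lt (hle s) (hlt s hs)) hpow
  have hwval : ∀ (f : ℕ → ℝ), ∀ κ ∈ Gh,
      (∑ κ' ∈ Gh, if n0 + P * κ' = n0 + P * κ then f κ' else 0) = f κ := fun f κ hκ => by
    rw [Finset.sum_eq_single κ]
    · exact if_pos rfl
    · intro b hb hbκ
      refine if_neg fun h1 => hbκ ?_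
      exact hinj hb hκ h1
    · intro h1
      exact absurd hκ h1
  -- level counts
  have hRs : ∀ R ∈ powersetCard r (univ : Finset (E × Fin L)), R.card = r := fun R hR =>
    (mem_powersetCard.1 hR).2
  have hcnt : ∀ R : Finset (E × Fin L), ∀ i, cnt R i ≤ q := fun R i => hE ▸ mbA_cnt_le R i
  let J1 : ℕ := Nat.clog p (V ^ 6)
  have hJ1 : V ^ 6 ≤ p ^ J1 := Nat.le_pow_clog hp1 _
  let B : Finset ℕ := Gh.filter fun k => J1 ≤ vd p κ0 k
  let D : ℕ → ℕ := fun k =>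
    if |((n0 + P * k : ℕ) : ℤ) + 2 - 2 * M| ≤ 64 * (V : ℤ) ^ 5 then V ^ 3 else 0
  have hvdle : ∀ k ∈ Gh, vd p κ0 k ≤ V := fun k hk => by
    refine (mbA_vd_lt (a := κ0) (b := k) (fun h1 => hκ0Gh (by rw [h1]; exact hk)) ?_ ?_).le
    · exact lt_of_le_of_lt (hle κ0) (hlt κ0 (mem_insert_self _ _))
    · exact lt_of_le_of_lt (hle k) (hGhV k hk)
  have hfew := mbA_few (n0 := n0) (M := M) (κ0 := κ0) (V := V) (J1 := J1) hP (by omega) hJ1 B
    (fun k hk => (mem_filter.1 hk).2)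
  have hDsum : ∑ k ∈ B, D k * vd p κ0 k ≤ V ^ 4 := by
    have h1 : ∀ k ∈ B, D k * vd p κ0 k ≤
        if |((n0 + P * k : ℕ) : ℤ) + 2 - 2 * M| ≤ 64 * (V : ℤ) ^ 5 then V ^ 4 else 0 := by
      intro k hk
      have h2 := hvdle k (mem_filter.1 hk).1
      simp only [D]
      split_ifs
      · calc V ^ 3 * vd p κ0 k ≤ V ^ 3 * V := Nat.mul_le_mul_left _ h2
          _ = V ^ 4 := by ring
      · simp
    calc ∑ k ∈ B, D k * vd p κ0 k ≤ ∑ k ∈ B,
        (if |((n0 + P * k : ℕ) : ℤ) + 2 - 2 * M| ≤ 64 * (V : ℤ) ^ 5 then V ^ 4 else 0) :=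
          Finset.sum_le_sum h1
      _ = (B.filter fun k =>
          |((n0 + P * k : ℕ) : ℤ) + 2 - 2 * M| ≤ 64 * (V : ℤ) ^ 5).card * V ^ 4 := by
          rw [← Finset.sum_filter, Finset.sum_const, smul_eq_mul]
      _ ≤ 1 * V ^ 4 := Nat.mul_le_mul_right _ hfew
      _ = V ^ 4 := one_mul _
  -- numerical facts
  have hn1 : 20 * p ^ (a + 2) * q * V ≤ V ^ 2 := by
    have h1 : 20 * p ^ (a + 2) * q ≤ V := by
      refine le_trans ?_ hV0
      exact Nat.mul_le_mul_right _ (Nat.mul_le_mul_right _ (by norm_num))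
    calc 20 * p ^ (a + 2) * q * V ≤ V * V := Nat.mul_le_mul_right _ h1
      _ = V ^ 2 := by ring
  have hn2 : 2 * q * (5 * V + 5) ^ 2 ≤ V ^ 3 := by
    calc 2 * q * (5 * V + 5) ^ 2 ≤ 2 * q * (6 * V) ^ 2 :=
          Nat.mul_le_mul_left _ (Nat.pow_le_pow_left (by omega) 2)
      _ = (72 * q) * V ^ 2 := by ring
      _ ≤ V * V ^ 2 := Nat.mul_le_mul_right _ (by omega)
      _ = V ^ 3 := by ring
  have hV23 : V ^ 2 ≤ V ^ 3 := Nat.pow_le_pow_right hVpos (by norm_num)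
  have hV34 : 3 * V ^ 3 ≤ V ^ 4 := by
    calc 3 * V ^ 3 ≤ V * V ^ 3 := Nat.mul_le_mul_right _ (by omega)
      _ = V ^ 4 := by ring
  have hV45 : 3 * V ^ 4 ≤ V ^ 5 := by
    calc 3 * V ^ 4 ≤ V * V ^ 4 := Nat.mul_le_mul_right _ (by omega)
      _ = V ^ 5 := by ring
  have hV3p : 1 ≤ V ^ 3 := Nat.one_le_pow _ _ hVpos
  have hX4 : 32 * q * (5 * V + 5) ^ 2 ≤ 4 * V ^ 5 := by
    calc 32 * q * (5 * V + 5) ^ 2 ≤ 32 * q * (6 * V) ^ 2 :=
          Nat.mul_le_mul_left _ (Nat.pow_le_pow_left (by omega) 2)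
      _ = (1152 * q) * V ^ 2 := by ring
      _ ≤ (4 * V) * V ^ 2 := Nat.mul_le_mul_right _ (by omega)
      _ = 4 * V ^ 3 := by ring
      _ ≤ 4 * V ^ 5 := by omega
  have hNV : 3 * V ^ 4 * V = 3 * V ^ 5 := by ring
  refine interp_main (ρ := Finset (E × Fin L)) (powersetCard r univ) (fun R => minor F.U R)
    (fun R => LamAA p a q M u L (cnt R)) (fun R κ => ma h R.card (cnt R) L (n0 + P * κ))
    Gh (fun κ => mr p h r (n0 + P * κ)) (Lam0A p a q M u) ?_ B (filter_subset _ _) D J1 V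
    (2 * q * (5 * V + 5) ^ 2) (4 * V ^ 5) (20 * p ^ (a + 2) * q * V) (3 * V ^ 4) κ0 S hκ0Gh hSGh hκ0S
    ?_ ?_ ?_ ?_ ?_ ?_ ?_ ?_ ?_
  · -- the factorisation
    intro R hR
    have h1 := minor_facA F hE hM1 hu R (by rw [hRs R hR]; exact hr) Gh
      (by rw [← hPdef]; exact fun κ hκ => ⟨hGhJ κ hκ, hGhL κ hκ⟩)
    rw [← hPdef] at h1
    exact h1
  · intro k hk
    exact ⟨fun h1 => (mem_filter.1 h1).2, fun h1 => mem_filter.2 ⟨hk, h1⟩⟩
  · intro s hs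
    exact (hS s hs).2.2.1
  · intro a ha b hb hab
    exact (mbA_vd_lt hab (lt_of_le_of_lt (hle a) (hlt a ha)) (lt_of_le_of_lt (hle b) (hlt b hb))).le
  · -- H1
    intro R hR
    have hc : R.card = r := hRs R hR
    have hw : IBA p a (fun n => ∑ κ ∈ Gh, if n0 + P * κ = n then
        ((min (vd p κ0 κ) J1 : ℕ) : ℝ) else 0) V := by
      refine mbA_IB_mono (hIB κ0 (mem_insert_self _ _)) (fun n => ?_) (fun n => ?_)
      · refine Finset.sum_nonneg fun κ _ => ?_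
        split_ifs
        · positivity
        · exact le_rfl
      · refine Finset.sum_le_sum fun κ _ => ?_
        split_ifs
        · exact_mod_cast Nat.min_le_left _ _
        · exact le_rfl
    have h1 := comb_betaA a hpa hq hh hM1 hML (lt_of_lt_of_le hMV hpow) hu (cnt R) (hcnt R) hr
      ((mbA_cnt_sum R).trans hc) _ hw N hNM
    rw [hsumN, hsumN] at h1
    have e1 : ∀ m : ℕ → ℕ, ∑ κ ∈ Gh, (m (n0 + P * κ) : ℝ) *
        (∑ κ' ∈ Gh, if n0 + P * κ' = n0 + P * κ then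
          ((min (vd p κ0 κ') J1 : ℕ) : ℝ) else 0) =
        ((∑ κ ∈ Gh, (m (n0 + P * κ) : ℤ) * (min (vd p κ0 κ) J1 : ℕ) : ℤ) : ℝ) := by
      intro m
      push_cast
      refine Finset.sum_congr rfl fun κ hκ => ?_
      have h2 := hwval (fun κ' => ((min (vd p κ0 κ') J1 : ℕ) : ℝ)) κ hκ
      push_cast at h2
      rw [h2]
    rw [e1 (fun n => mr p h r n), e1 (fun n => ma h r (cnt R) L n)] at h1
    have h2 : Lam0A p a q M u + (∑ κ ∈ Gh, (mr p h r (n0 + P * κ) : ℤ) *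
        (min (vd p κ0 κ) J1 : ℕ)) - ((2 * q * (5 * V + 5) ^ 2 : ℕ) : ℤ) ≤
        LamAA p a q M u L (cnt R) + ∑ κ ∈ Gh, (ma h r (cnt R) L (n0 + P * κ) : ℤ) *
        (min (vd p κ0 κ) J1 : ℕ) := by
      have h3 : ((Lam0A p a q M u + (∑ κ ∈ Gh, (mr p h r (n0 + P * κ) : ℤ) *
        (min (vd p κ0 κ) J1 : ℕ)) - ((2 * q * (5 * V + 5) ^ 2 : ℕ) : ℤ) : ℤ) : ℝ) ≤
        ((LamAA p a q M u L (cnt R) + ∑ κ ∈ Gh, (ma h r (cnt R) L (n0 + P * κ) : ℤ) *
        (min (vd p κ0 κ) J1 : ℕ) : ℤ) : ℝ) := by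
        push_cast at h1 ⊢
        exact h1
      exact_mod_cast h3
    simpa only [hc] using h2
  · -- H2
    intro R hR hex s hs
    have hc : R.card = r := hRs R hR
    obtain ⟨k, hkB, hk⟩ := hex
    have hkGh : k ∈ Gh := (mem_filter.1 hkB).1
    rw [hc] at hk
    have hcost := mbA_cost hq hh hVq hM1 hu (cnt R) (hcnt R) hr ((mbA_cnt_sum R).trans hc)
      (hGhr k hkGh).1 (hGhL k hkGh) (D := D k) rfl hk
    have h1 := comb_betaA' a hpa hq hh hVpos hM1 hML (lt_of_lt_of_le hMV hpow) hu (cnt R) (hcnt R) hr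
      ((mbA_cnt_sum R).trans hc) _ (hIB s hs) N hNM hX4 hcost
    rw [hsumN, hsumN] at h1
    have e1 : ∀ m : ℕ → ℕ, ∑ κ ∈ Gh, (m (n0 + P * κ) : ℝ) *
        (∑ κ' ∈ Gh, if n0 + P * κ' = n0 + P * κ then (vd p s κ' : ℝ) else 0) =
        ((∑ κ ∈ Gh, (m (n0 + P * κ) : ℤ) * vd p s κ : ℤ) : ℝ) := by
      intro m
      push_cast
      refine Finset.sum_congr rfl fun κ hκ => ?_
      rw [hwval (fun κ' => (vd p s κ' : ℝ)) κ hκ]
    rw [e1 (fun n => mr p h r n), e1 (fun n => ma h r (cnt R) L n)] at h1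
    have h2 : Lam0A p a q M u + (∑ κ ∈ Gh, (mr p h r (n0 + P * κ) : ℤ) * vd p s κ) +
        ((4 * V ^ 5 : ℕ) : ℤ) ≤
        LamAA p a q M u L (cnt R) + ∑ κ ∈ Gh, (ma h r (cnt R) L (n0 + P * κ) : ℤ) *
        vd p s κ := by
      have h3 : ((Lam0A p a q M u + (∑ κ ∈ Gh, (mr p h r (n0 + P * κ) : ℤ) * vd p s κ) +
        ((4 * V ^ 5 : ℕ) : ℤ) : ℤ) : ℝ) ≤
        ((LamAA p a q M u L (cnt R) + ∑ κ ∈ Gh, (ma h r (cnt R) L (n0 + P * κ) : ℤ) *
        vd p s κ : ℤ) : ℝ) := by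
        push_cast at h1 ⊢
        exact h1
      exact_mod_cast h3
    simpa only [hc] using h2
  · -- H3
    have h1 := ghost_specialA a (V := V) hq hh hMp hev hu hr (by rw [← hPdef]; exact hκ0)
      (lt_of_lt_of_le (by omega) hpow) Gh (by rw [← hPdef]; exact hGh)
    rw [← hPdef] at h1
    refine le_trans ?_ hspec
    refine zpow_le_zpow_right₀ (by exact_mod_cast hp1.le) ?_
    push_cast at h1 ⊢
    linarith
  · -- H4
    intro s hs
    obtain ⟨hs1, hs2, -, h1⟩ := hS s hs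
    have h2 := ghost_totalA a (n0 := n0) (V := V) hq hh hVpos hMp hu hr Gh
      (fun κ hκ => lt_of_lt_of_le (lt_of_le_of_lt (hle κ) (hGhV κ hκ)) hpow)
      (lt_of_lt_of_le (lt_of_le_of_lt (hle s) (hlt s (mem_insert_of_mem hs))) hpow) (hSGh s hs)
    rw [← hPdef] at h2
    unfold VB
    refine le_trans h1 ?_
    rw [← Real.rpow_intCast]
    refine Real.rpow_le_rpow_of_exponent_le (by exact_mod_cast hp1.le) ?_
    push_cast
    have hqR : ((p : ℝ) + 1) * h = q := by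
      rw [hq]
      push_cast
      ring
    rw [hqR]
    have h3 : 20 * (p : ℝ) ^ (a + 1) * q * M * V + 4 * (V : ℝ) ^ 5 + 1 ≤
        30 * p ^ (a + 2) * h * T * V := by
      have h4 : 20 * p ^ (a + 1) * q * M * V + 4 * V ^ 5 + 1 ≤ 30 * p ^ (a + 2) * h * T * V :=
        mbA_H4 hp hq hh hVpos (le_trans hs1 hs2) hT10
      exact_mod_cast h4
    linarith
  · -- H5
    have h1 : ∑ k ∈ B, D k * (vd p κ0 k - J1) ≤ V ^ 4 :=
      le_trans (Finset.sum_le_sum fun k _ => Nat.mul_le_mul_left _ (Nat.sub_le _ _)) hDsum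
    omega
  · -- H6
    rw [hNV]
    omega

end Gouvea
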