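import Pool.Agent.Work.MP_d3517d_nt.A.Basic
import Pool.Agent.Work.MP_d3517d_nt.Special

/-!
# M11 (version A, all primes): the special value
-/

set_option autoImplicit false

open Polynomial Finset

noncomputable section

namespace Gouvea

open Pool.Agent.Gouv

variable {p : ℕ} [Fact p.Prime] {h : ℕ} {E V : Type} [Fintype E] [DecidableEq E] [Fintype V]
  [DecidableEq V]

/-- the determinant of `W` in an even weight -/
theorem norm_det_W_even (D : Dat p h E V) {n : ℕ} (hn : Even n) :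
    ‖(D.W n).det‖ = (p : ℝ) ^ (-(((n / 2 : ℕ) : ℤ) * ((p + 1) * h : ℕ) * (n + 1))) := by
  have hp := (Fact.out : p.Prime)
  have hp0 : (0 : ℝ) < p := by exact_mod_cast hp.pos
  have h1 := congrArg Matrix.det (D.WW n hn)
  rw [Matrix.det_mul, Matrix.det_smul, Matrix.det_one, mul_one, Fintype.card_prod,
    Fintype.card_fin, D.cardE] at h1
  have h2 := congrArg norm h1
  rw [norm_mul, norm_pow, norm_pow, PadicInt.norm_p] at h2
  obtain ⟨m, hm⟩ := hn
  have hm2 : n / 2 = m := by omega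
  rw [hm2]
  set q := (p + 1) * h with hq
  have h3 : ‖(D.W n).det‖ ^ 2 = ((p : ℝ) ^ (-((m : ℤ) * q * (n + 1)))) ^ 2 := by
    rw [sq, h2, ← zpow_natCast, ← zpow_natCast, ← zpow_natCast, ← zpow_mul, inv_zpow',
      ← zpow_mul]
    congr 1
    rw [hm]
    push_cast
    ring
  exact (pow_left_inj₀ (norm_nonneg _) (zpow_nonneg hp0.le _) two_ne_zero).1 h3

theorem norm_det_Um_even (D : Dat p h E V) {n : ℕ} (hn : Even n) :
    ‖(Um D.toGam n).det‖ =
      (p : ℝ) ^ (-(((n / 2 : ℕ) : ℤ) * ((p + 1) * h : ℕ) * (n + 1) + h * (n + 1))) := by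
  have hp := (Fact.out : p.Prime)
  have hp0 : (p : ℝ) ≠ 0 := by exact_mod_cast hp.ne_zero
  rw [← D.WU n hn, Matrix.det_mul, norm_mul, norm_det_W_even D hn, norm_det_S D hn,
    ← zpow_add₀ hp0]
  congr 1
  ring

/-- The special value, for any matrix which is block triangular with the classical matrix as
block of the levels `≤ n` and rows of level `> n` divisible by `p ^ (n + 1)`. -/
theorem special_core (hh : 1 ≤ h) (D : Dat p h E V) {n L : ℕ} (hn : Even n) (hL : n < L)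
    (Mk : Matrix (E × Fin L) (E × Fin L) ℚ_[p])
    (hblk : ∀ x y : E × Fin L, ∀ (hx : lev x < n + 1) (hy : lev y < n + 1),
      Mk x y = ((Um D.toGam n (x.1, ⟨lev x, hx⟩) (y.1, ⟨lev y, hy⟩) : ℤ_[p]) : ℚ_[p]))
    (hzero : ∀ x y : E × Fin L, n < lev x → lev y ≤ n → Mk x y = 0)
    (hlow : ∀ x y : E × Fin L, n < lev x → VB p (Mk x y) (lev x)) :
    ∃ u r : ℕ, u ≤ (p + 1) * h ∧ r + u = (p + 1) * h * (n + 1) ∧
      (p : ℝ) ^ (-(((n / 2 : ℕ) : ℤ) * ((p + 1) * h : ℕ) * (n + 1) + h * (n + 1)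
        - u * (n + 1))) ≤ ‖esum r Mk‖ := by
  classical
  have hp := (Fact.out : p.Prime)
  have hp0 : (0 : ℝ) < p := by exact_mod_cast hp.pos
  have hp1 : (1 : ℝ) < p := by exact_mod_cast hp.one_lt
  obtain ⟨u, huq, hu, hrest⟩ := classical hh D hn
  set q := (p + 1) * h with hq
  have hqN : q ≤ q * (n + 1) := Nat.le_mul_of_pos_right q (Nat.succ_pos n)
  refine ⟨u, q * (n + 1) - u, huq, by omega, ?_⟩
  set Q : Matrix (E × Fin (L - (n + 1))) (E × Fin (L - (n + 1))) ℚ_[p] :=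
    Mk.submatrix (fun x => splitE E hL (Sum.inr x)) (fun x => splitE E hL (Sum.inr x)) with hQ
  set B : Matrix (E × Fin (n + 1)) (E × Fin (L - (n + 1))) ℚ_[p] :=
    Mk.submatrix (fun x => splitE E hL (Sum.inl x)) (fun x => splitE E hL (Sum.inr x)) with hB
  have hblocks : Mk.submatrix (splitE E hL) (splitE E hL) =
      Matrix.fromBlocks (toQ (Um D.toGam n)) B 0 Q := by
    ext x y
    rcases x with x | x <;> rcases y with y | y
    · have h1 := hblk (splitE E hL (Sum.inl x)) (splitE E hL (Sum.inl y))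
        (by rw [(splitE_inl hL x).2]; exact x.2.2) (by rw [(splitE_inl hL y).2]; exact y.2.2)
      exact h1
    · rfl
    · have h1 := hzero (splitE E hL (Sum.inr x)) (splitE E hL (Sum.inl y))
        (splitE_inr hL x) (by rw [(splitE_inl hL y).2]; exact Nat.lt_succ_iff.1 y.2.2)
      exact h1
    · rfl
  have hQle : ∀ j, ‖esum j Q‖ ≤ ((p : ℝ) ^ (n + 1))⁻¹ ^ j := by
    intro j
    have hc0 : (0 : ℝ) ≤ ((p : ℝ) ^ (n + 1))⁻¹ := inv_nonneg.2 (pow_nonneg hp0.le _)
    refine norm_esum_le (c := fun _ => ((p : ℝ) ^ (n + 1))⁻¹) (fun _ => hc0) ?_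
      (pow_nonneg hc0 _) ?_
    · intro x y
      have h1 := hlow (splitE E hL (Sum.inr x)) (splitE E hL (Sum.inr y))
        (splitE_inr hL x)
      refine (show ‖Q x y‖ ≤ _ from h1).trans ?_
      rw [← zpow_natCast, ← zpow_neg]
      refine zpow_le_zpow_right₀ hp1.le ?_
      have h2 := splitE_inr hL x
      push_cast
      omega
    · intro s hs
      rw [prod_const, hs]
  rw [← esum_submatrix_equiv (splitE E hL) Mk, hblocks, esum_fromBlocks]
  set r := q * (n + 1) - u with hr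
  have hmem : (r, 0) ∈ antidiagonal r := by simp
  rw [← add_sum_erase _ _ hmem, esum_zero, mul_one]
  set main := esum r (toQ (Um D.toGam n)) with hmain
  have hmainn : ‖main‖ = ‖(Um D.toGam n).det‖ * (p : ℝ) ^ (u * (n + 1)) := hu
  have hdet := norm_det_Um_even D hn
  have hmain0 : 0 < ‖main‖ := by
    rw [hmainn, hdet]
    positivity
  have hrestn : ‖∑ x ∈ (antidiagonal r).erase (r, 0), esum x.1 (toQ (Um D.toGam n)) * esum x.2 Q‖ ≤
      ‖main‖ * (p : ℝ)⁻¹ := by
    refine IsUltrametricDist.norm_sum_le_of_forall_le_of_nonneg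
      (mul_nonneg (norm_nonneg _) (inv_nonneg.2 hp0.le)) fun x hx => ?_
    rw [mem_erase, HasAntidiagonal.mem_antidiagonal] at hx
    obtain ⟨hx0, hxr⟩ := hx
    have hx2 : 1 ≤ x.2 := by
      rw [Nat.one_le_iff_ne_zero]
      intro h0
      apply hx0
      ext
      · show x.1 = r
        omega
      · exact h0
    have hle : u + x.2 ≤ q * (n + 1) := by omega
    have h1 := hrest x.2 hx2 hle
    have h2 : q * (n + 1) - (u + x.2) = x.1 := by omega
    rw [h2] at h1
    rw [norm_mul]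
    calc ‖esum x.1 (toQ (Um D.toGam n))‖ * ‖esum x.2 Q‖
        ≤ (‖(Um D.toGam n).det‖ * (p : ℝ) ^ ((u + x.2) * (n + 1)) * (p : ℝ)⁻¹) *
            ((p : ℝ) ^ (n + 1))⁻¹ ^ x.2 := by
          refine mul_le_mul h1 (hQle x.2) (norm_nonneg _) (by positivity)
      _ = ‖main‖ * (p : ℝ)⁻¹ := by
          rw [hmainn, add_mul, pow_add, inv_pow, ← pow_mul, mul_comm (n + 1) x.2]
          have h3 : ((p : ℝ) ^ (x.2 * (n + 1))) ≠ 0 := by positivity
          field_simp
  have hlt : ‖main‖ * (p : ℝ)⁻¹ < ‖main‖ := by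
    refine mul_lt_of_lt_one_right hmain0 ?_
    exact inv_lt_one_of_one_lt₀ hp1
  have hge : ‖main‖ ≤ ‖main + ∑ x ∈ (antidiagonal r).erase (r, 0),
      esum x.1 (toQ (Um D.toGam n)) * esum x.2 Q‖ := by
    rw [IsUltrametricDist.norm_add_eq_max_of_norm_ne_norm (ne_of_gt (hrestn.trans_lt hlt))]
    exact le_max_left _ _
  refine le_trans (le_of_eq ?_) hge
  rw [hmainn, hdet, ← zpow_natCast, ← zpow_add₀ hp0.ne']
  congr 1
  rw [← hq]
  generalize n / 2 = c
  push_cast
  ring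

/-- **The special value** (all primes). -/
theorem special_valueA (hh : 1 ≤ h) (D : Dat p h E V) {a n0 L J : ℕ}
    (F : WFamA p a h n0 L J E) (hF : CompatA F D.toGam) {M κ0 : ℕ}
    (hM : n0 + stp p a * κ0 + 1 = M) (hn : Even (M - 1))
    (hJ : n0 + stp p a * κ0 < J) (hL : n0 + stp p a * κ0 < L) :
    ∃ u r : ℕ, u ≤ (p + 1) * h ∧ r + u = (p + 1) * h * M ∧
      (p : ℝ) ^ (-((((M - 1) / 2 : ℕ) : ℤ) * ((p + 1) * h : ℕ) * M + h * M - u * M)) ≤
        ‖(cr F.U r).eval (κ0 : ℚ_[p])‖ := by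
  have hM1 : n0 + stp p a * κ0 = M - 1 := by omega
  rw [← hM1] at hn
  obtain ⟨u, r, hu, hr, hle⟩ := special_core hh D hn hL
    (F.U.map fun f => f.eval (κ0 : ℚ_[p])) (hF.blk κ0 hJ hL) (hF.zero κ0 hJ hL)
    (hF.low κ0 hJ hL)
  refine ⟨u, r, hu, by rw [hr, hM], ?_⟩
  rw [eval_cr]
  refine le_trans (le_of_eq ?_) hle
  congr 1
  rw [← hM1, ← hM]
  push_cast
  ring

end Gouvea
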