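import Pool.Agent.Work.MP_d3517d_nt.A.Exceptional
import Pool.Agent.Work.MP_d3517d_nt.A.Special
import Pool.Agent.Work.MP_d3517d_nt.A.Gauss
import Pool.Agent.Work.MP_d3517d_nt.A.Fam
import Pool.Agent.Work.MP_d3517d_nt.A.FamFac
import Pool.Agent.Work.MP_d3517d_nt.A.MainBad

/-!
# Few exceptional weights (MP_d3517d_nt), M14 (a), all primes: assembly
-/

open Polynomial Finset Filter Topology

noncomputable section

namespace Gouvea

variable {p : ℕ} [Fact p.Prime] {h : ℕ} {E V : Type} [Fintype E] [DecidableEq E] [Fintype V]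
  [DecidableEq V]

open Classical in
/-- `few_exceptional` from the main proposition. -/
theorem few_exceptional_of_main {α : ℕ} (hpa : CondA p α) (hh : 1 ≤ h) (D : Dat p h E V)
    {V0 : ℕ} (hmain : MainBadStatA p α h V0) (η ε : ℝ) (hη : 0 < η) (hε : 0 < ε) :
    ∃ N0 : ℕ, ∀ N ≥ N0, (((range N).filter fun n : ℕ => Even n ∧ ∃ x : ℝ, 0 ≤ x ∧
      x * (p + 1) ≤ n ∧ Gf (toQ (Um D.toGam n)) x <
        ((p : ℝ) + 1) * h * x ^ 2 / 2 - η * (n : ℝ) ^ 2).card : ℝ) ≤ ε * N := by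
  refine few_exceptional_ofA (stp_even_of_condA hpa) hh D hmain ?_ ?_ ?_ η ε hη hε
  · intro n0 L J h0
    refine exists_fam_ofA (famFacA p α) D ?_ h0 L J
    intro h2
    by_contra ha
    have ha0 : α = 0 := by omega
    subst ha0 h2
    unfold CondA at hpa
    norm_num at hpa
  · intro n0 L J F hF M κ0 hM hn hJ hL
    refine special_valueA hh D F hF hM ?_ hJ hL
    have h1 : n0 + stp p α * κ0 = M - 1 := by omega
    rwa [← h1]
  · intro n0 L J F hF κ hJ hL r x hx
    exact Gf_famA F D.toGam hF κ hJ hL r x hx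

open Classical in
/-- **Few exceptional weights** (all primes). -/
theorem few_exceptional (hh : 1 ≤ h) (D : Dat p h E V) (η ε : ℝ) (hη : 0 < η) (hε : 0 < ε) :
    ∃ N0 : ℕ, ∀ N ≥ N0, (((range N).filter fun n : ℕ => Even n ∧ ∃ x : ℝ, 0 ≤ x ∧
      x * (p + 1) ≤ n ∧ Gf (toQ (Um D.toGam n)) x <
        ((p : ℝ) + 1) * h * x ^ 2 / 2 - η * (n : ℝ) ^ 2).card : ℝ) ≤ ε * N := by
  obtain ⟨V0, hmain⟩ := main_badA (p := p) 4 condA_four hh
  exact few_exceptional_of_main condA_four hh D hmain η ε hη hε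

end Gouvea
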