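import Pool.Agent.Work.MP_d3517d_nt.Assembly
import Pool.Agent.Work.MP_d3517d_nt.A.Exceptional
import Pool.Agent.Work.MP_d3517d_nt.A.MainBad
import Pool.Agent.Work.MP_d3517d_nt.A.Family
import Pool.Agent.Work.MP_d3517d_nt.A.Special
import Pool.Agent.Work.MP_d3517d_nt.A.Gauss

/-!
# The equidistribution theorem for all primes `p`
-/

open Polynomial Finset Filter Topology MeasureTheory

noncomputable section

namespace Gouvea

variable {p : ℕ} [Fact p.Prime]

/-- There are few exceptional weights (any prime `p`). -/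
theorem fewExcA (h : ℕ) (E V : Type) [Fintype E] [DecidableEq E] [Fintype V]
    [DecidableEq V] (D : Dat p h E V) (hh : 1 ≤ h) : FewExcStat D := by
  obtain ⟨V0, hV0⟩ := main_badA (p := p) 4 condA_four hh
  intro η ε hη hε
  refine few_exceptional_ofA (α := 4) (stp_even_of_condA condA_four) hh D (V0 := V0) hV0
    (fun n0 L J h0 => exists_famA D n0 L J h0 (by omega)) ?_ ?_ η ε hη hε
  · intro n0 L J F hF M κ0 hM hn hJ hL
    exact special_valueA hh D F hF hM (by rwa [← hM, Nat.add_sub_cancel]) hJ hL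
  · intro n0 L J F hc κ hJ hL r x hx
    exact Gf_famA F D.toGam hc κ hJ hL r x hx

/-- The equidistribution theorem (any prime `p`). -/
theorem equidistribution (Ω : Type) [MulAction (G p) Ω]
    (hstab : ∀ k ∈ K p, ∀ x : Ω, k • x = x → k = 1 ∨ k = -1)
    (horb : Finite (MulAction.orbitRel.Quotient (K p) Ω))
    (hscal : ∀ x : Ω, scal p • x = x)
    (R : Type) [CommRing R] (act : R →+* Module.End ℤ_[p] (Ω →₀ ℤ_[p]))
    (hact : ∀ t, Equivariant (act t)) (m : Ideal R)
    (hm : ∃ n, Even n ∧ FormsAt act m n ≠ ⊥) :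
    (∀ n, Even n → (∀ f ∈ FormsAt act m n, heckeT Ω n f ∈ FormsAt act m n) ∧
      Module.Finite ℚ_[p] (FormsAt act m n) ∧
      ∀ l ∈ eigs (heckeT Ω n) (FormsAt act m n), ‖l‖ ≤ 1) ∧
    ∃ (μ : ℕ → ProbabilityMeasure ENNReal) (ν : ProbabilityMeasure ENNReal),
      (∀ᶠ T in atTop, (μ T : Measure ENNReal) = unif (slopes act m T)) ∧
      (ν : Measure ENNReal) = (volume.restrict (Set.Icc (0 : ℝ) 1)).map ENNReal.ofReal ∧
      Tendsto μ atTop (𝓝 ν) :=
  equidistribution_of (fun h E V _ _ _ _ D hh => fewExcA h E V D hh) Ω hstab horb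
    hscal R act hact m hm

end Gouvea
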